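import Pool.Agent.X312.HH.Wts

/-!
# Positive and negative primitive cycles
-/

set_option autoImplicit false
set_option linter.unusedSectionVars false

open CategoryTheory AlgebraicGeometry

universe u v

namespace Pool.Agent.X312.HH

open Module
open Pool.Agent.H914 Pool.Agent.H914.VarClass Pool.Agent.H914.VarClass.Obj
  Pool.Agent.H914.WeilCohomology Pool.Agent.H281R3.HT Pool.Agent.W552 Pool.Agent.W539.Ker
  Pool.Agent.Y133.Half

variable {k : Type u} [Field k] {𝒱 : VarClass k} {ops : CycleOps 𝒱}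

/-- The largest number of pairwise orthogonal primitive cycles of codimension `n` with positive
(`s = 1`) or negative (`s = -1`) squares. -/
noncomputable def idx (W : WeilCohomology.{u, v} ops) (X : 𝒱.Obj) (D : X.Cycles) (s : ℚ)
    (n : ℕ) : ℕ := sSup {r | HasFamily W X D n s r}

/-- The sum over the codimensions `n` of primitive classes contributing in codimension `j`. -/
def wN (d : ℕ) (φ : ℕ → ℕ) (j : ℕ) : ℕ :=
  ∑ n ∈ Finset.range (d / 2 + 1), if n ≤ j ∧ n + j ≤ d then φ n else 0

variable {W : WeilCohomology.{u, v} ops} {X : 𝒱.Obj} {D : X.Cycles}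
  {f : Module.End W.K (W.H X)}

lemma idx_one (hD : X.IsCyc 1 D) {n : ℕ} (hn : 2 * n ≤ X.dim) {ι : Type*} [Fintype ι]
    {x : ι → PM W X D n} (h : OM (BP W hD n hn) x) : idx W X D 1 n =
      (Finset.univ.filter fun i => 0 < pairing ops X D n (x i : X.Cycles) (x i)).card := by
  have h1 := h.posIdx_eq (BP_symm hD hn)
  rw [← h.posIdx_eq (BP_symm hD hn)] at h1
  have h2 : idx W X D 1 n = posIdx (fun x y => BP W hD n hn x y) := by
    rw [idx, posIdx]
    congr 1
    ext r
    exact hasFamily_one hD hn r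
  rw [h2, h.posIdx_eq (BP_symm hD hn)]
  rfl

lemma idx_neg (hD : X.IsCyc 1 D) {n : ℕ} (hn : 2 * n ≤ X.dim) {ι : Type*} [Fintype ι]
    {x : ι → PM W X D n} (h : OM (BP W hD n hn) x) : idx W X D (-1) n =
      (Finset.univ.filter fun i => pairing ops X D n (x i : X.Cycles) (x i) < 0).card := by
  have h2 : idx W X D (-1) n = posIdx (fun x y => (-BP W hD n hn) x y) := by
    rw [idx, posIdx]
    congr 1
    ext r
    exact hasFamily_neg hD hn r
  rw [h2, h.neg.posIdx_eq (fun x y => by
    rw [LinearMap.neg_apply, LinearMap.neg_apply, LinearMap.neg_apply, LinearMap.neg_apply,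
      BP_symm])]
  congr 1
  ext i
  rw [Finset.mem_filter, Finset.mem_filter, LinearMap.neg_apply, LinearMap.neg_apply, neg_pos]
  rfl

/-- **The numbers of positive and negative classes of codimension `j`.** -/
theorem sg_codim (F : Fr W X D f) (j : ℕ) :
    Sg (bf W X D f) (VP W X 1 (2 * j - X.dim)) (wN X.dim (idx W X D 1) j)
      (wN X.dim (idx W X D (-1)) j) := by
  classical
  have hle : ∀ n : Fin (X.dim / 2 + 1), 2 * (n : ℕ) ≤ X.dim := fun n => by omega
  choose M x hx using fun n : Fin (X.dim / 2 + 1) => exists_prim W F.hD (hle n)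
  set L := LinearMap.mulLeft W.K (W.cl X D) with hL
  let C : Fin (X.dim / 2 + 1) → Prop := fun n => (n : ℕ) ≤ j ∧ (n : ℕ) + j ≤ X.dim
  have hpm : ∀ (n : Fin (X.dim / 2 + 1)) (t : Fin (M n)),
      Primitive W X D n (x n t : X.Cycles) := fun n t => (x n t).2
  have hpne : ∀ (n : Fin (X.dim / 2 + 1)) (t : Fin (M n)),
      pairing ops X D n (x n t : X.Cycles) (x n t : X.Cycles) ≠ 0 := by
    intro n t
    have := (hx n).ne t
    rwa [BP_apply] at this
  have hgr : ∀ n : Fin (X.dim / 2 + 1), C n → ∀ z : X.Cycles, Primitive W X D n z →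
      (L ^ (j - (n : ℕ))) (W.cl X z) ∈ algClasses W X j := by
    rintro n ⟨hn1, _⟩ z hz
    have h1 := (ap_alg F).map_L_pow (j - (n : ℕ)) (l := (n : ℕ)) (c := W.cl X z) ⟨z, hz.1, rfl⟩
    rwa [show (n : ℕ) + (j - n) = j by omega] at h1
  have hc : ∀ n : Fin (X.dim / 2 + 1), (0 : ℚ) < (j - (n : ℕ)).factorial *
      ((X.dim - 2 * (n : ℕ) - (j - (n : ℕ))).factorial : ℚ)⁻¹ := by
    intro n; positivity
  have hMF : MF (bf W X D f) (VP W X 1 (2 * j - X.dim))
      (fun p : (Σ n : {n : Fin (X.dim / 2 + 1) // C n}, Fin (M n.1)) =>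
        (L ^ (j - (p.1.1 : ℕ))) (W.cl X (x p.1.1 p.2 : X.Cycles)))
      (fun p => (j - (p.1.1 : ℕ)).factorial *
        ((X.dim - 2 * (p.1.1 : ℕ) - (j - (p.1.1 : ℕ))).factorial : ℚ)⁻¹ *
        pairing ops X D p.1.1 (x p.1.1 p.2 : X.Cycles) (x p.1.1 p.2 : X.Cycles)) := by
    refine ⟨?_, ?_, ?_, ?_, ?_⟩
    · rintro ⟨⟨n, hn⟩, t⟩
      have h1 := hgr n hn _ (hpm n t)
      refine ⟨⟨AS.of h1, rfl⟩, ?_⟩
      rw [Fr.wt_gr (alg_gr h1)]
      congr 1
      push_cast
      ring
    · rintro ⟨⟨n, hn⟩, t⟩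
      exact mul_ne_zero (hc n).ne' (hpne n t)
    · rintro ⟨⟨n, hn⟩, t⟩
      exact bf_same F (hle n) (hpm n t) (hpm n t) (j := j - (n : ℕ))
        (by have := hn.2; have := hn.1; omega)
    · rintro ⟨⟨n, hn⟩, t⟩ ⟨⟨n', hn'⟩, t'⟩ hne
      by_cases hnn : n = n'
      · subst hnn
        have htt : t ≠ t' := by rintro rfl; exact hne rfl
        have h1 := bf_same F (hle n) (hpm n t) (hpm n t') (j := j - (n : ℕ))
          (by have := hn.2; have := hn.1; omega)
        have h2 : pairing ops X D n (x n t : X.Cycles) (x n t' : X.Cycles) = 0 := by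
          have := (hx n).orth t t' htt
          rwa [BP_apply] at this
        rw [h2, mul_zero, Rat.cast_zero] at h1
        exact h1
      · exact bf_cross F (hle n) (hle n') (fun h => hnn (Fin.ext h)) (hpm n t) (hpm n' t')
          (j := j - (n : ℕ)) (j' := j - (n' : ℕ))
          (by have := hn.1; have := hn'.1; omega) (by have := hn'.2; have := hn'.1; omega)
    · intro w hw hwy
      have hwl : w ∈ algClasses W X j := hw.1.1.alg (VP_gr hw)
      obtain ⟨v, hv, hs⟩ := (ap_alg F).decomp (mulLeft_isHom F.hD) W_hbd hwl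
      rw [← hL] at hv hs
      have key : ∀ b ∈ Finset.range (j + 1), (L ^ b) (v b) = 0 ∨
          ∃ n : Fin (X.dim / 2 + 1), (n : ℕ) = j - b ∧ C n ∧
            ∃ z, Primitive W X D n z ∧ v b = W.cl X z := by
        intro b hb
        rw [Finset.mem_range] at hb
        obtain ⟨h1, h2, h3⟩ := hv b (by omega)
        by_cases h0 : (L ^ b) (v b) = 0
        · exact Or.inl h0
        right
        have hv0 : v b ≠ 0 := by rintro h; apply h0; rw [h, map_zero]
        have h4 := h2 hv0
        have h5 : b ≤ X.dim - 2 * (j - b) := by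
          by_contra h6
          exact h0 (L_pow_gt (n := X.dim) (i := 2 * (j - b)) h3 (by omega))
        obtain ⟨z, hz, hz'⟩ := h1
        refine ⟨⟨j - b, by omega⟩, rfl, ⟨?_, ?_⟩, z, ⟨hz, ?_⟩, hz'.symm⟩
        · change j - b ≤ j
          omega
        · change j - b + j ≤ X.dim
          omega
        · rw [cl_divPow, hz']; exact h3
      have hcross : ∀ b ∈ Finset.range (j + 1), ∀ b' ∈ Finset.range (j + 1), b ≠ b' →
          bf W X D f ((L ^ b) (v b)) ((L ^ b') (v b')) = 0 := by
        intro b hb b' hb' hne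
        rcases key b hb with h0 | ⟨n, hn, hC, z, hz, hvz⟩
        · rw [h0, map_zero, LinearMap.zero_apply]
        rcases key b' hb' with h0 | ⟨n', hn', hC', z', hz', hvz'⟩
        · rw [h0, map_zero]
        rw [hvz, hvz']
        rw [Finset.mem_range] at hb hb'
        refine bf_cross F (hle n) (hle n') (by omega) hz hz' (by omega) ?_
        have := hC'.2
        omega
      have hdiag : ∀ b ∈ Finset.range (j + 1),
          bf W X D f ((L ^ b) (v b)) ((L ^ b) (v b)) = 0 := by
        intro b hb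
        rcases key b hb with h0 | ⟨n, hn, hC, z, hz, hvz⟩
        · rw [h0, map_zero]
        have hb' := Finset.mem_range.1 hb
        have hbn : b = j - (n : ℕ) := by omega
        have hbj : b ≤ X.dim - 2 * (n : ℕ) := by have := hC.2; omega
        have h1 : ∀ t, BP W F.hD n (hle n) ⟨z, hz⟩ (x n t) = 0 := by
          intro t
          have h2 := hwy ⟨⟨n, hC⟩, t⟩
          change bf W X D f w ((L ^ (j - (n : ℕ))) (W.cl X (x n t : X.Cycles))) = 0 at h2
          have h3 : bf W X D f w ((L ^ (j - (n : ℕ))) (W.cl X (x n t : X.Cycles))) =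
              bf W X D f ((L ^ b) (v b)) ((L ^ (j - (n : ℕ))) (W.cl X (x n t : X.Cycles))) := by
            rw [hs, map_sum (bf W X D f), LinearMap.sum_apply, Finset.sum_eq_single b]
            · intro b' hb' hne
              rcases key b' hb' with h0 | ⟨n', hn', hC', z', hz', hvz'⟩
              · rw [h0, map_zero, LinearMap.zero_apply]
              rw [hvz']
              rw [Finset.mem_range] at hb hb'
              exact bf_cross F (hle n') (hle n) (by omega) hz' (hpm n t) (by omega)
                (by have := hC.2; omega)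
            · intro h0; exact absurd hb h0
          rw [h2, ← hbn, hvz, bf_same F (hle n) hz (hpm n t) hbj] at h3
          have h4 : (0 : ℚ) = b.factorial * ((X.dim - 2 * (n : ℕ) - b).factorial : ℚ)⁻¹ *
              pairing ops X D n z (x n t : X.Cycles) := by exact_mod_cast h3
          rw [hbn] at h4
          rcases mul_eq_zero.1 h4.symm with h5 | h5
          · exact absurd h5 (hc n).ne'
          · rw [BP_apply]; exact h5
        have h2 : pairing ops X D n z z = 0 := by
          have := (hx n).max ⟨z, hz⟩ h1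
          rwa [BP_apply] at this
        rw [hvz, bf_same F (hle n) hz hz hbj, h2, mul_zero, Rat.cast_zero]
      have h1 : bf W X D f w w = ∑ b ∈ Finset.range (j + 1), ∑ b' ∈ Finset.range (j + 1),
          bf W X D f ((L ^ b) (v b)) ((L ^ b') (v b')) := by
        conv_lhs => rw [hs]
        rw [map_sum (bf W X D f), LinearMap.sum_apply]
        apply Finset.sum_congr rfl
        intro b _
        rw [map_sum]
      rw [h1]
      apply Finset.sum_eq_zero
      intro b hb
      apply Finset.sum_eq_zero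
      intro b' hb'
      by_cases hbb : b = b'
      · subst hbb; exact hdiag b hb
      · exact hcross b hb b' hb' hbb
  have h5 := hMF.sg
  have hsum : ∀ (p : Fin (X.dim / 2 + 1) → ℚ → Prop) [∀ n q, Decidable (p n q)] (φ : ℕ → ℕ),
      (∀ n : Fin (X.dim / 2 + 1), (Finset.univ.filter fun t : Fin (M n) =>
        p n (pairing ops X D n (x n t : X.Cycles) (x n t))).card = φ n) →
      (Finset.univ.filter fun q : (Σ n : {n : Fin (X.dim / 2 + 1) // C n}, Fin (M n.1)) =>
        p q.1.1 (pairing ops X D q.1.1 (x q.1.1 q.2 : X.Cycles) (x q.1.1 q.2))).card =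
        wN X.dim φ j := by
    intro p _ φ hφ
    rw [Finset.card_filter, Fintype.sum_sigma]
    have e1 : ∀ n : {n : Fin (X.dim / 2 + 1) // C n}, (∑ t : Fin (M n.1),
        if p n.1 (pairing ops X D n.1 (x n.1 t : X.Cycles) (x n.1 t)) then 1 else 0) =
        φ n.1 := by
      intro n
      rw [← hφ, Finset.card_filter]
    rw [Finset.sum_congr rfl (fun n _ => e1 n), wN, Finset.sum_range, ← Finset.sum_filter]
    exact (Finset.sum_subtype (Finset.univ.filter C) (by simp) (fun n => φ n)).symm
  have e1 := hsum (fun _ q => 0 < q) (idx W X D 1) fun n => (idx_one F.hD (hle n) (hx n)).symm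
  have e2 := hsum (fun _ q => q < 0) (idx W X D (-1)) fun n =>
    (idx_neg F.hD (hle n) (hx n)).symm
  rw [← e1, ← e2]
  have f1 : ∀ q : (Σ n : {n : Fin (X.dim / 2 + 1) // C n}, Fin (M n.1)),
      (0 < (j - (q.1.1 : ℕ)).factorial *
        ((X.dim - 2 * (q.1.1 : ℕ) - (j - (q.1.1 : ℕ))).factorial : ℚ)⁻¹ *
        pairing ops X D q.1.1 (x q.1.1 q.2 : X.Cycles) (x q.1.1 q.2 : X.Cycles)) ↔
      0 < pairing ops X D q.1.1 (x q.1.1 q.2 : X.Cycles) (x q.1.1 q.2 : X.Cycles) :=
    fun q => mul_pos_iff_of_pos_left (hc q.1.1)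
  have f2 : ∀ q : (Σ n : {n : Fin (X.dim / 2 + 1) // C n}, Fin (M n.1)),
      ((j - (q.1.1 : ℕ)).factorial *
        ((X.dim - 2 * (q.1.1 : ℕ) - (j - (q.1.1 : ℕ))).factorial : ℚ)⁻¹ *
        pairing ops X D q.1.1 (x q.1.1 q.2 : X.Cycles) (x q.1.1 q.2 : X.Cycles) < 0) ↔
      pairing ops X D q.1.1 (x q.1.1 q.2 : X.Cycles) (x q.1.1 q.2 : X.Cycles) < 0 := by
    intro q
    constructor
    · intro h
      by_contra h6
      exact absurd h (not_lt.2 (mul_nonneg (hc q.1.1).le (not_lt.1 h6)))
    · intro h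
      exact mul_neg_of_pos_of_neg (hc q.1.1) h
  simp only [f1, f2] at h5
  exact h5

end Pool.Agent.X312.HH
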