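import Pool.Agent.X312.HH.Tow
import Pool.Agent.X312.HH.Cnt

/-!
# The bound for the signatures
-/

set_option autoImplicit false
set_option linter.unusedSectionVars false

open CategoryTheory AlgebraicGeometry

universe u v

namespace Pool.Agent.X312.HH

open Module
open Pool.Agent.H914 Pool.Agent.H914.VarClass Pool.Agent.H914.VarClass.Obj
  Pool.Agent.H914.WeilCohomology Pool.Agent.H281R3.HT Pool.Agent.W552 Pool.Agent.W539.Ker
  Pool.Agent.Y133.Half

section Num

variable {R : ℕ → ℕ → ℕ} {g : ℕ → ℕ} {β : ℕ}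

lemma g_pow (h1 : ∀ l, g (2 * (l + 1)) ≤ β ^ 2 * g (2 * l)) (i m : ℕ) :
    g (2 * (i + m)) ≤ β ^ (2 * m) * g (2 * i) := by
  induction m with
  | zero => simp
  | succ m ih =>
    calc g (2 * (i + (m + 1))) ≤ β ^ 2 * g (2 * (i + m)) := h1 (i + m)
      _ ≤ β ^ 2 * (β ^ (2 * m) * g (2 * i)) := Nat.mul_le_mul_left _ ih
      _ = _ := by ring

lemma lower_aux (hR0 : ∀ l, R 0 l = g l) (hR : ∀ n l, R (n + 1) l = 2 * R n l + R n (l + 1))
    (h1 : ∀ l, g (2 * (l + 1)) ≤ β ^ 2 * g (2 * l)) (L : ℕ) (n : ℕ) : ∀ l, n + l ≤ 2 * L →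
      (g (2 * L) : ℤ) * ((β : ℤ) ^ l * (β + 2) ^ n + (-(β : ℤ)) ^ l * (2 - β) ^ n) ≤
        2 * (β : ℤ) ^ (2 * L) * R n l := by
  induction n with
  | zero =>
    intro l hl
    rw [hR0, pow_zero, pow_zero, mul_one, mul_one]
    rcases Nat.even_or_odd l with he | ho
    · obtain ⟨i, rfl⟩ := he
      rw [Even.neg_pow ⟨i, rfl⟩]
      have h2 := g_pow h1 i (L - i)
      rw [show i + (L - i) = L by omega] at h2
      have h3 : (g (2 * L) : ℤ) ≤ (β : ℤ) ^ (2 * (L - i)) * g (i + i) := by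
        rw [← two_mul]
        exact_mod_cast h2
      have h4 : (0 : ℤ) ≤ 2 * (β : ℤ) ^ (i + i) := by positivity
      calc (g (2 * L) : ℤ) * ((β : ℤ) ^ (i + i) + (β : ℤ) ^ (i + i)) =
          (g (2 * L) : ℤ) * (2 * (β : ℤ) ^ (i + i)) := by ring
        _ ≤ ((β : ℤ) ^ (2 * (L - i)) * g (i + i)) * (2 * (β : ℤ) ^ (i + i)) :=
          mul_le_mul_of_nonneg_right h3 h4
        _ = 2 * ((β : ℤ) ^ (2 * (L - i)) * (β : ℤ) ^ (i + i)) * g (i + i) := by ring
        _ = _ := by rw [← pow_add, show 2 * (L - i) + (i + i) = 2 * L by omega]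
    · rw [Odd.neg_pow ho, add_neg_cancel, mul_zero]
      positivity
  | succ n ih =>
    intro l hl
    rw [hR]
    push_cast
    have e1 := ih l (by omega)
    have e2 := ih (l + 1) (by omega)
    calc (g (2 * L) : ℤ) * ((β : ℤ) ^ l * (β + 2) ^ (n + 1) +
        (-(β : ℤ)) ^ l * (2 - β) ^ (n + 1)) =
        2 * ((g (2 * L) : ℤ) * ((β : ℤ) ^ l * (β + 2) ^ n + (-(β : ℤ)) ^ l * (2 - β) ^ n)) +
          (g (2 * L) : ℤ) * ((β : ℤ) ^ (l + 1) * (β + 2) ^ n +
            (-(β : ℤ)) ^ (l + 1) * (2 - β) ^ n) := by ring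
      _ ≤ 2 * (2 * (β : ℤ) ^ (2 * L) * R n l) + 2 * (β : ℤ) ^ (2 * L) * R n (l + 1) :=
        add_le_add (mul_le_mul_of_nonneg_left e1 (by norm_num)) e2
      _ = _ := by ring

/-- **The complementary part is exponentially small.** -/
theorem num_bound (hR0 : ∀ l, R 0 l = g l)
    (hR : ∀ n l, R (n + 1) l = 2 * R n l + R n (l + 1))
    (h1 : ∀ l, g (2 * (l + 1)) ≤ β ^ 2 * g (2 * l)) (h2 : ∀ l, g (2 * l + 1) ≤ β * g (2 * l))
    (n : ℕ) : g n * (β + 2) ^ n ≤ (β + 2) * β ^ n * R n 0 := by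
  have key : ∀ L, g (2 * L) * (β + 2) ^ (2 * L) ≤ 2 * β ^ (2 * L) * R (2 * L) 0 := by
    intro L
    have h3 := lower_aux hR0 hR h1 L (2 * L) 0 (by omega)
    rw [pow_zero, pow_zero, one_mul, one_mul] at h3
    have h4 : (0 : ℤ) ≤ (2 - (β : ℤ)) ^ (2 * L) := by rw [pow_mul]; positivity
    have h5 : (g (2 * L) : ℤ) * (β + 2) ^ (2 * L) ≤ 2 * (β : ℤ) ^ (2 * L) * R (2 * L) 0 := by
      refine le_trans ?_ h3
      apply mul_le_mul_of_nonneg_left _ (Nat.cast_nonneg _)
      linarith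
    exact_mod_cast h5
  rcases Nat.even_or_odd n with he | ho
  · obtain ⟨L, rfl⟩ := he
    rw [← two_mul]
    refine (key L).trans ?_
    exact Nat.mul_le_mul_right _ (Nat.mul_le_mul_right _ (by omega))
  · obtain ⟨L, rfl⟩ := ho
    have h3 : 2 * R (2 * L) 0 ≤ R (2 * L + 1) 0 := by rw [hR]; omega
    calc g (2 * L + 1) * (β + 2) ^ (2 * L + 1) ≤
        (β * g (2 * L)) * (β + 2) ^ (2 * L + 1) := Nat.mul_le_mul_right _ (h2 L)
      _ = (β * (β + 2)) * (g (2 * L) * (β + 2) ^ (2 * L)) := by ring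
      _ ≤ (β * (β + 2)) * (2 * β ^ (2 * L) * R (2 * L) 0) := Nat.mul_le_mul_left _ (key L)
      _ = ((β + 2) * β ^ (2 * L + 1)) * (2 * R (2 * L) 0) := by ring
      _ ≤ _ := Nat.mul_le_mul_left _ h3

/-- From the signatures in the single codimensions to the primitive parts. -/
lemma wN_low {d : ℕ} (φ : ℕ → ℕ) {j : ℕ} (hj : 2 * j ≤ d) :
    wN d φ j = ∑ n ∈ Finset.range (j + 1), φ n := by
  rw [wN, ← Finset.sum_filter]
  congr 1
  ext n
  rw [Finset.mem_filter, Finset.mem_range, Finset.mem_range]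
  omega

lemma sum_abs_le {d : ℕ} (p q : ℕ → ℕ) :
    ∑ i ∈ Finset.range (d / 2 + 1), |(p i : ℤ) - q i| ≤
      2 * ∑ j ∈ Finset.range (d + 1), |(wN d p j : ℤ) - wN d q j| := by
  have h1 : ∀ i ∈ Finset.range (d / 2 + 1), |(p i : ℤ) - q i| ≤
      |(wN d p i : ℤ) - wN d q i| +
        (if i = 0 then 0 else |(wN d p (i - 1) : ℤ) - wN d q (i - 1)|) := by
    intro i hi
    rw [Finset.mem_range] at hi
    rcases Nat.eq_zero_or_pos i with h0 | h0
    · subst h0
      rw [if_pos rfl, wN_low p (by omega), wN_low q (by omega)]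
      simp
    · obtain ⟨i, rfl⟩ : ∃ i', i = i' + 1 := ⟨i - 1, by omega⟩
      rw [if_neg (by omega), wN_low p (by omega), wN_low q (by omega), Nat.add_sub_cancel,
        wN_low p (by omega), wN_low q (by omega), Finset.sum_range_succ _ (i + 1),
        Finset.sum_range_succ _ (i + 1)]
      push_cast
      have h2 := abs_sub_abs_le_abs_sub
        ((∑ n ∈ Finset.range (i + 1), (p n : ℤ)) + p (i + 1) -
          ((∑ n ∈ Finset.range (i + 1), (q n : ℤ)) + q (i + 1)))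
        ((∑ n ∈ Finset.range (i + 1), (p n : ℤ)) - (∑ n ∈ Finset.range (i + 1), (q n : ℤ)))
      have h3 : (p (i + 1) : ℤ) - q (i + 1) =
          ((∑ n ∈ Finset.range (i + 1), (p n : ℤ)) + p (i + 1) -
          ((∑ n ∈ Finset.range (i + 1), (q n : ℤ)) + q (i + 1))) -
          ((∑ n ∈ Finset.range (i + 1), (p n : ℤ)) -
            (∑ n ∈ Finset.range (i + 1), (q n : ℤ))) := by ring
      rw [h3]
      exact abs_sub _ _
  refine (Finset.sum_le_sum h1).trans ?_
  rw [Finset.sum_add_distrib, two_mul]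
  apply add_le_add
  · apply Finset.sum_le_sum_of_subset_of_nonneg
    · intro i hi
      rw [Finset.mem_range] at hi ⊢
      omega
    · intro i _ _; exact abs_nonneg _
  · rw [Finset.sum_range_succ', if_pos rfl, add_zero]
    have h4 : ∀ i ∈ Finset.range (d / 2), (if i + 1 = 0 then (0 : ℤ) else
        |(wN d p (i + 1 - 1) : ℤ) - wN d q (i + 1 - 1)|) =
        |(wN d p i : ℤ) - wN d q i| := by
      intro i _
      rw [if_neg (by omega), Nat.add_sub_cancel]
    rw [Finset.sum_congr rfl h4]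
    apply Finset.sum_le_sum_of_subset_of_nonneg
    · intro i hi
      rw [Finset.mem_range] at hi ⊢
      omega
    · intro i _ _; exact abs_nonneg _

lemma wN_le (d : ℕ) (φ : ℕ → ℕ) (j : ℕ) : wN d φ j ≤ ∑ n ∈ Finset.range (d / 2 + 1), φ n := by
  rw [wN]
  apply Finset.sum_le_sum
  intro n _
  split_ifs
  · exact le_rfl
  · exact Nat.zero_le _

lemma sum_wN_le (d : ℕ) (p q : ℕ → ℕ) :
    ∑ j ∈ Finset.range (d + 1), (wN d p j + wN d q j) ≤
      (d + 1) * ∑ i ∈ Finset.range (d / 2 + 1), (p i + q i) := by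
  have h1 : ∀ j ∈ Finset.range (d + 1), wN d p j + wN d q j ≤
      ∑ i ∈ Finset.range (d / 2 + 1), (p i + q i) := by
    intro j _
    rw [Finset.sum_add_distrib]
    exact Nat.add_le_add (wN_le d p j) (wN_le d q j)
  refine (Finset.sum_le_sum h1).trans ?_
  rw [Finset.sum_const, Finset.card_range, smul_eq_mul]

end Num

variable {k : Type u} [Field k] {𝒱 : VarClass k} {ops : CycleOps 𝒱}
  {W : WeilCohomology.{u, v} ops} {A B P : Bd W} {j : ℕ} {e z : W.H B.X} {c c' : ℚ}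

lemma dim_NB (A B : Bd W) (n : ℕ) : (NB A B n).X.dim = A.X.dim + n * B.X.dim := by
  induction n with
  | zero => rw [zero_mul, add_zero]; rfl
  | succ n ih =>
    change (NB A B n).X.dim + B.X.dim = _
    rw [ih]; ring

lemma dim_ZB (A B : Bd W) (n : ℕ) : (ZB A B n).X.dim = A.X.dim + n * B.X.dim := by
  induction n with
  | zero => rw [zero_mul, add_zero]; rfl
  | succ n ih =>
    change B.X.dim + (ZB A B n).X.dim = _
    rw [ih]; ring

/-- **The bound for the signatures.** -/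
theorem sig_bound (hA : A.Gd) (hB : B.Gd) (hP : P.Gd) (h : Par B j e z c c') (n : ℕ)
    {θ : ((NB A B n).prod A).X ≅ P.X} (hθ : Isom ((NB A B n).prod A) P θ) :
    (∑ i ∈ Finset.range (P.X.dim / 2 + 1),
      |(idx W P.X P.D 1 i : ℤ) - idx W P.X P.D (-1) i|) * (finrank W.K (W.H B.X) : ℤ) ^ n ≤
    2 * (P.X.dim + 1) * finrank W.K (W.H B.X) * ((finrank W.K (W.H B.X) : ℤ) - 2) ^ n *
      ∑ i ∈ Finset.range (P.X.dim / 2 + 1),
        ((idx W P.X P.D 1 i : ℤ) + idx W P.X P.D (-1) i) := by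
  set ρ := rho B e z c c' with hρ
  have hρm : B.Mo ρ := h.mo_rho hB
  set d := P.X.dim with hd
  set p := idx W P.X P.D 1
  set q := idx W P.X P.D (-1)
  have hdT : (((NB A B n).prod A).X).dim = d := hθ.dim
  have hdZ : ((ZB A B 0).prod (ZB A B n)).X.dim = d := by
    rw [← hdT]
    change (ZB A B 0).X.dim + (ZB A B n).X.dim = (NB A B n).X.dim + A.X.dim
    rw [dim_ZB, dim_ZB, dim_NB]
    ring
  -- the tower
  have hT : ∀ i : ℕ, Sg ((NB A B n).prod (ZB A B 0)).bf (VP W ((NB A B n).prod (ZB A B 0)).X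
      (extOp W 1 (zeta A B ρ 0)) (2 * i - d)) (wN d p i) (wN d q i) := by
    intro i
    have h1 := sg_codim (W := W) hP.fr i
    have h2 : extOp W (1 : Module.End W.K (W.H (NB A B n).X)) (zeta A B ρ 0) = 1 := extOp_one
    rw [h2]
    exact hθ.sg_VP (fun x => rfl) h1
  have hNA : (NB A B n).Gd := NB_gd hA hB n
  have hMT : ((NB A B n).prod (ZB A B 0)).Mo (extOp W 1 (zeta A B ρ 0)) :=
    Bd.Mo.prod (Mo.one hNA) (zeta_mo hA hρm 0)
  have hsumT : ∑ i ∈ Finset.range (d + 1), (wN d p i + wN d q i) = RR A B ρ n 0 := by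
    have h3 := sum_weights_eq hMT (wN d p) (wN d q) (by
      intro i
      have h4 : (((NB A B n).prod (ZB A B 0)).X.dim : ℤ) = d := by exact_mod_cast hdT
      rw [h4]
      exact hT i)
    have h5 : ((NB A B n).prod (ZB A B 0)).X.dim = d := hdT
    rw [h5] at h3
    exact h3
  -- the complementary part
  have hrec := fun i : ℕ => sig_rec hA hB h n 0 n (by ring) _ _ _ (hT i)
  choose p' q' hs' hpq using hrec
  have hMZ : ((ZB A B 0).prod (ZB A B n)).Mo (extOp W (zeta A B ρ 0) (zeta A B ρ n)) :=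
    Bd.Mo.prod (zeta_mo hA hρm 0) (zeta_mo hA hρm n)
  have hsumZ : ∑ i ∈ Finset.range (d + 1), (p' i + q' i) = g A B ρ n := by
    have h3 := sum_weights_eq hMZ p' q' (by
      intro i
      have h4 : (((ZB A B 0).prod (ZB A B n)).X.dim : ℤ) = d := by exact_mod_cast hdZ
      rw [h4]
      exact hs' i)
    rw [hdZ] at h3
    exact h3
  have hle : ∑ i ∈ Finset.range (d + 1), |(wN d p i : ℤ) - wN d q i| ≤ g A B ρ n := by
    rw [← hsumZ, Nat.cast_sum]
    apply Finset.sum_le_sum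
    intro i _
    rw [hpq i]
    push_cast
    rw [abs_le]
    constructor <;> omega
  -- the numerical bound
  have hb := finrank_rho hB h
  have hnum := num_bound (R := fun n l => RR A B ρ n l) (g := g A B ρ)
    (β := finrank W.K (LinearMap.range ρ)) (fun l => rank_zero hA hB h l)
    (fun n l => rank_rec hA hB h n l) (g_ratio hA hρm) (g_odd hA hρm) n
  rw [hb] at hnum
  have hβ : ((finrank W.K (LinearMap.range ρ) : ℕ) : ℤ) = (finrank W.K (W.H B.X) : ℤ) - 2 := by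
    rw [← hb]; push_cast; ring
  have hnum' : (g A B ρ n : ℤ) * (finrank W.K (W.H B.X) : ℤ) ^ n ≤
      finrank W.K (W.H B.X) * ((finrank W.K (W.H B.X) : ℤ) - 2) ^ n * RR A B ρ n 0 := by
    rw [← hβ]
    exact_mod_cast hnum
  have hRR : (RR A B ρ n 0 : ℤ) ≤ (d + 1) * ∑ i ∈ Finset.range (d / 2 + 1),
      ((p i : ℤ) + q i) := by
    rw [← hsumT]
    exact_mod_cast sum_wN_le d p q
  have hb0 : (0 : ℤ) ≤ (finrank W.K (W.H B.X) : ℤ) - 2 := by rw [← hβ]; positivity
  calc (∑ i ∈ Finset.range (d / 2 + 1), |(p i : ℤ) - q i|) *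
        (finrank W.K (W.H B.X) : ℤ) ^ n ≤
        (2 * ∑ i ∈ Finset.range (d + 1), |(wN d p i : ℤ) - wN d q i|) *
          (finrank W.K (W.H B.X) : ℤ) ^ n :=
        mul_le_mul_of_nonneg_right (sum_abs_le p q) (by positivity)
    _ ≤ (2 * g A B ρ n) * (finrank W.K (W.H B.X) : ℤ) ^ n :=
        mul_le_mul_of_nonneg_right (mul_le_mul_of_nonneg_left hle (by norm_num)) (by positivity)
    _ = 2 * (g A B ρ n * (finrank W.K (W.H B.X) : ℤ) ^ n) := by ring
    _ ≤ 2 * (finrank W.K (W.H B.X) * ((finrank W.K (W.H B.X) : ℤ) - 2) ^ n * RR A B ρ n 0) :=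
        mul_le_mul_of_nonneg_left hnum' (by norm_num)
    _ = (2 * finrank W.K (W.H B.X) * ((finrank W.K (W.H B.X) : ℤ) - 2) ^ n) *
          RR A B ρ n 0 := by ring
    _ ≤ (2 * finrank W.K (W.H B.X) * ((finrank W.K (W.H B.X) : ℤ) - 2) ^ n) *
          ((d + 1) * ∑ i ∈ Finset.range (d / 2 + 1), ((p i : ℤ) + q i)) :=
        mul_le_mul_of_nonneg_left hRR (by positivity)
    _ = _ := by ring

end Pool.Agent.X312.HH
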