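import Pool.Agent.X312.HH.Frm

/-!
# The idempotents given by anisotropic classes
-/

set_option autoImplicit false
set_option linter.unusedSectionVars false

open CategoryTheory AlgebraicGeometry

universe u v

namespace Pool.Agent.X312.HH

open Pool.Agent.H914 Pool.Agent.H914.VarClass Pool.Agent.H914.VarClass.Obj
  Pool.Agent.H914.WeilCohomology Pool.Agent.H281R3.HT Pool.Agent.W552 Pool.Agent.W539.Ker

variable {k : Type u} [Field k] {𝒱 : VarClass k} {ops : CycleOps 𝒱}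
  {W : WeilCohomology.{u, v} ops} {X Y Z : 𝒱.Obj} {D : X.Cycles} {f : Module.End W.K (W.H X)}
  {E : Y.Cycles} {g : Module.End W.K (W.H Y)}

/-- The orthogonal projector onto the line of `e`. -/
noncomputable def pe (W : WeilCohomology.{u, v} ops) (Y : 𝒱.Obj) (E : Y.Cycles)
    (g : Module.End W.K (W.H Y)) (e : W.H Y) (c : ℚ) : Module.End W.K (W.H Y) :=
  ((c⁻¹ : ℚ) : W.K) • (bf W Y E g e).smulRight e

lemma pe_apply (e : W.H Y) (c : ℚ) (x : W.H Y) :
    pe W Y E g e c x = (((c⁻¹ : ℚ) : W.K) * bf W Y E g e x) • e := by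
  rw [pe, LinearMap.smul_apply, LinearMap.smulRight_apply, smul_smul]

/-- An anisotropic algebraic class. -/
structure Cl (W : WeilCohomology.{u, v} ops) (Y : 𝒱.Obj) (E : Y.Cycles)
    (g : Module.End W.K (W.H Y)) (j : ℕ) (e : W.H Y) (c : ℚ) : Prop where
  alg : e ∈ algClasses W Y j
  ne : c ≠ 0
  val : bf W Y E g e e = (c : W.K)

section

variable {j : ℕ} {e : W.H Y} {c : ℚ} (h : Cl W Y E g j e c) (G : Gd W Y E g)

include h

lemma Cl.wt : H914.wt (W.isInternal Y) Y.dim e = ((2 * j - Y.dim : ℤ) : W.K) • e := by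
  rw [Fr.wt_gr (alg_gr h.alg)]
  congr 1
  push_cast
  ring

lemma Cl.pe_self : pe W Y E g e c e = e := by
  have hc : (c : W.K) ≠ 0 := by exact_mod_cast h.ne
  rw [pe_apply, h.val, Rat.cast_inv, inv_mul_cancel₀ hc, one_smul]

include G

lemma Cl.mo : Mo W Y E g (pe W Y E g e c) where
  gd := G
  aop := by
    have h1 : pe W Y E g e c = ((c⁻¹ : ℚ) : W.K) • th W E g (ext W e e) := by
      apply LinearMap.ext
      intro z
      rw [LinearMap.smul_apply, th_ext G.fr (alg_gr h.alg) (alg_gr h.alg)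
        (by rw [← two_mul]; exact even_two_mul _), pe, LinearMap.smul_apply,
        LinearMap.smulRight_apply]
    rw [h1]
    have h2 : AOp W Y Y (W.corr (ext W e e)) :=
      ⟨_, (AS.of h.alg).ext (AS.of h.alg), rfl⟩
    exact (h2.comp (G.pa.mul G.sa)).smul _
  idem := by
    apply LinearMap.ext
    intro x
    rw [Module.End.mul_apply, pe_apply (x := x), map_smul, h.pe_self]
  self := by
    intro a b
    rw [pe_apply, pe_apply, map_smul, LinearMap.smul_apply, map_smul, smul_eq_mul, smul_eq_mul,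
      ← bf_comm G (AS.of h.alg) a]
    ring
  wt := by
    intro a
    rw [pe_apply, map_smul, h.wt, pe_apply, ← G.wt_self, h.wt, map_smul, LinearMap.smul_apply,
      smul_smul, smul_eq_mul]
    congr 1
    ring

/-- The contraction with `e`. -/
noncomputable def ct (W : WeilCohomology.{u, v} ops) {Y : 𝒱.Obj} (X : 𝒱.Obj) (E : Y.Cycles)
    (g : Module.End W.K (W.H Y)) (e : W.H Y) (c : ℚ) : W.H (Y.prod X) →ₗ[W.K] W.H X :=
  ((c⁻¹ : ℚ) : W.K) • (W.push (snd Y X) ∘ₗ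
    LinearMap.mulLeft W.K (W.map (fst Y X) (st W Y E g e)))

omit h G in
lemma ct_apply (y : W.H (Y.prod X)) : ct W X E g e c y = ((c⁻¹ : ℚ) : W.K) •
    W.push (snd Y X) (W.map (fst Y X) (st W Y E g e) * y) := rfl

lemma Cl.ct_ext (a : W.H Y) (b : W.H X) : ct W X E g e c (ext W a b) =
    (((c⁻¹ : ℚ) : W.K) * bf W Y E g e a) • b := by
  rw [ct_apply, ext, ← mul_assoc, ← map_mul, W.push_snd, smul_smul,
    (G.fr.st_AS (AS.of h.alg)).comm, ← bf_apply, bf_comm G (AS.of h.alg)]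

lemma Cl.ct_self (x : W.H X) : ct W X E g e c (ext W e x) = x := by
  have hc : (c : W.K) ≠ 0 := by exact_mod_cast h.ne
  rw [h.ct_ext G, h.val, Rat.cast_inv, inv_mul_cancel₀ hc, one_smul]

lemma Cl.ext_ct (y : W.H (Y.prod X)) : ext W e (ct W X E g e c y) =
    extOp W (pe W Y E g e c) 1 y := by
  refine ext_ind (p := fun y => ext W e (ct W X E g e c y) =
    extOp W (pe W Y E g e c) 1 y) ?_ ?_ y
  · intro a b ha hb
    rw [map_add, map_add, ← ha, ← hb, ext_add_right]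
  · intro i l a _ b _
    rw [h.ct_ext G, extOp_ext, pe_apply, Module.End.one_apply, ext_smul_left, ext_smul_right]

lemma Cl.ct_AS {y : W.H (Y.prod X)} (hy : AS W _ y) : AS W X (ct W X E g e c y) := by
  rw [ct_apply]
  exact ((((G.fr.st_AS (AS.of h.alg)).map _).mul hy).push _).smul _

variable {μ : Module.End W.K (W.H X)}

lemma Cl.surj_aux (hμ : μ * μ = μ) {y : W.H (Y.prod X)}
    (hy : extOp W (pe W Y E g e c) μ y = y) :
    ext W e (ct W X E g e c y) = y ∧ μ (ct W X E g e c y) = ct W X E g e c y := by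
  have hpp := (h.mo G).idem
  have h1 : ext W e (ct W X E g e c y) = y := by
    rw [h.ext_ct G]
    conv_lhs => rw [← hy]
    rw [← Module.End.mul_apply, extOp_mul, hpp, one_mul, hy]
  refine ⟨h1, ?_⟩
  have h2 : ext W e (μ (ct W X E g e c y)) = ext W e (ct W X E g e c y) := by
    have h3 : ext W e (μ (ct W X E g e c y)) =
        extOp W 1 μ (ext W e (ct W X E g e c y)) := by
      rw [extOp_ext]; rfl
    rw [h3, h1]
    conv_lhs => rw [← hy]
    rw [← Module.End.mul_apply, extOp_mul, hμ, one_mul, hy]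
  rw [← h.ct_self G (μ (ct W X E g e c y)), h2, h.ct_self G]

/-- **The part of a product cut out by a class.** -/
lemma Cl.sg_VP (M : Mo W X D f μ) {m m' : ℤ} (hm : m' = m + (2 * j - Y.dim)) {p q : ℕ}
    (hs : Sg (bf W X D f) (VP W X μ m) p q) :
    if 0 < c then Sg (bf W (Y.prod X) (ops.pull (fst Y X) E + ops.pull (snd Y X) D)
      (extSum W g f)) (VP W (Y.prod X) (extOp W (pe W Y E g e c) μ) m') p q
    else Sg (bf W (Y.prod X) (ops.pull (fst Y X) E + ops.pull (snd Y X) D)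
      (extSum W g f)) (VP W (Y.prod X) (extOp W (pe W Y E g e c) μ) m') q p := by
  refine Sg.sim (fun x => ext W e x) ?_ ?_ h.ne ?_ hs
  · rintro x ⟨⟨h1, h2⟩, h3⟩
    refine ⟨⟨(AS.of h.alg).ext h1, ?_⟩, ?_⟩
    · rw [extOp_ext, h.pe_self, h2]
    · rw [wt_ext, h.wt, h3, hm, ext_smul_left, ext_smul_right, ← add_smul]
      congr 1
      push_cast
      ring
  · rintro y ⟨⟨h1, h2⟩, h3⟩
    obtain ⟨h4, h5⟩ := h.surj_aux G M.idem h2
    refine ⟨ct W X E g e c y, ⟨⟨h.ct_AS G h1, h5⟩, ?_⟩, h4⟩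
    have h6 := wt_ext (W := W) e (ct W X E g e c y)
    rw [h4, h3, h.wt] at h6
    have h7 : ext W e (H914.wt (W.isInternal X) X.dim (ct W X E g e c y)) =
        ext W e ((m : W.K) • ct W X E g e c y) := by
      have h8 : ext W (((2 * j - Y.dim : ℤ) : W.K) • e) (ct W X E g e c y) =
          ((2 * j - Y.dim : ℤ) : W.K) • y := by
        rw [ext_smul_left, h4]
      have h9 : ext W e ((m : W.K) • ct W X E g e c y) = (m : W.K) • y := by
        rw [ext_smul_right, h4]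
      rw [h9]
      rw [h8] at h6
      rw [← sub_eq_iff_eq_add'.2 h6, ← sub_smul, hm]
      congr 1
      push_cast
      ring
    rw [← h.ct_self G (H914.wt (W.isInternal X) X.dim (ct W X E g e c y)), h7, h.ct_self G]
  · intro x y _ _
    rw [G.fr.bf_ext M.gd.fr, h.val]

lemma Cl.sg_VT (M : Mo W X D f μ) {p q : ℕ} (hs : Sg (bf W X D f) (VT W X μ) p q) :
    if 0 < c then Sg (bf W (Y.prod X) (ops.pull (fst Y X) E + ops.pull (snd Y X) D)
      (extSum W g f)) (VT W (Y.prod X) (extOp W (pe W Y E g e c) μ)) p q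
    else Sg (bf W (Y.prod X) (ops.pull (fst Y X) E + ops.pull (snd Y X) D)
      (extSum W g f)) (VT W (Y.prod X) (extOp W (pe W Y E g e c) μ)) q p := by
  refine Sg.sim (fun x => ext W e x) ?_ ?_ h.ne ?_ hs
  · rintro x ⟨h1, h2⟩
    refine ⟨(AS.of h.alg).ext h1, ?_⟩
    rw [extOp_ext, h.pe_self, h2]
  · rintro y ⟨h1, h2⟩
    obtain ⟨h4, h5⟩ := h.surj_aux G M.idem h2
    exact ⟨ct W X E g e c y, ⟨h.ct_AS G h1, h5⟩, h4⟩
  · intro x y _ _
    rw [G.fr.bf_ext M.gd.fr, h.val]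

end

section Add

variable {π₁ π₂ : Module.End W.K (W.H X)} (M₁ : Mo W X D f π₁) (M₂ : Mo W X D f π₂)
  (h12 : π₁ * π₂ = 0) (h21 : π₂ * π₁ = 0)

include M₁ M₂ h12 h21

/-- Orthogonal sums of idempotents. -/
lemma Mo.add : Mo W X D f (π₁ + π₂) where
  gd := M₁.gd
  aop := M₁.aop.add M₂.aop
  idem := by rw [add_mul, mul_add, mul_add, h12, h21, M₁.idem, M₂.idem, add_zero, zero_add]
  self a b := by
    rw [LinearMap.add_apply, LinearMap.add_apply, map_add, map_add, LinearMap.add_apply,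
      M₁.self, M₂.self]
  wt a := by
    rw [LinearMap.add_apply, LinearMap.add_apply, map_add, M₁.wt, M₂.wt]

lemma Mo.sg_VP {m : ℤ} {p q p' q' : ℕ} (hs : Sg (bf W X D f) (VP W X π₁ m) p q)
    (hs' : Sg (bf W X D f) (VP W X π₂ m) p' q') :
    Sg (bf W X D f) (VP W X (π₁ + π₂) m) (p + p') (q + q') := by
  have e12 : ∀ x, π₁ (π₂ x) = 0 := fun x => congrArg (fun F => F x) h12
  have e21 : ∀ x, π₂ (π₁ x) = 0 := fun x => congrArg (fun F => F x) h21
  refine Sg.add ?_ ?_ ?_ ?_ hs hs'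
  · rintro x ⟨⟨h1, h2⟩, h3⟩
    refine ⟨⟨h1, ?_⟩, h3⟩
    have : π₂ x = 0 := by rw [← h2, e21]
    rw [LinearMap.add_apply, h2, this, add_zero]
  · rintro x ⟨⟨h1, h2⟩, h3⟩
    refine ⟨⟨h1, ?_⟩, h3⟩
    have : π₁ x = 0 := by rw [← h2, e12]
    rw [LinearMap.add_apply, h2, this, zero_add]
  · rintro x ⟨⟨h1, h2⟩, h3⟩
    refine ⟨π₁ x, π₂ x, ⟨⟨M₁.aop.apply h1, ?_⟩, ?_⟩, ⟨⟨M₂.aop.apply h1, ?_⟩, ?_⟩, h2.symm⟩
    · rw [← Module.End.mul_apply, M₁.idem]
    · rw [M₁.wt, h3, map_smul]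
    · rw [← Module.End.mul_apply, M₂.idem]
    · rw [M₂.wt, h3, map_smul]
  · rintro x y ⟨⟨_, h2⟩, _⟩ ⟨⟨_, h4⟩, _⟩
    constructor
    · rw [← h2, M₁.self, ← h4, e12, map_zero]
    · rw [← h4, M₂.self, ← h2, e21, map_zero]

lemma Mo.sg_VT {p q p' q' : ℕ} (hs : Sg (bf W X D f) (VT W X π₁) p q)
    (hs' : Sg (bf W X D f) (VT W X π₂) p' q') :
    Sg (bf W X D f) (VT W X (π₁ + π₂)) (p + p') (q + q') := by
  have e12 : ∀ x, π₁ (π₂ x) = 0 := fun x => congrArg (fun F => F x) h12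
  have e21 : ∀ x, π₂ (π₁ x) = 0 := fun x => congrArg (fun F => F x) h21
  refine Sg.add ?_ ?_ ?_ ?_ hs hs'
  · rintro x ⟨h1, h2⟩
    refine ⟨h1, ?_⟩
    have : π₂ x = 0 := by rw [← h2, e21]
    rw [LinearMap.add_apply, h2, this, add_zero]
  · rintro x ⟨h1, h2⟩
    refine ⟨h1, ?_⟩
    have : π₁ x = 0 := by rw [← h2, e12]
    rw [LinearMap.add_apply, h2, this, zero_add]
  · rintro x ⟨h1, h2⟩
    refine ⟨π₁ x, π₂ x, ⟨M₁.aop.apply h1, ?_⟩, ⟨M₂.aop.apply h1, ?_⟩, h2.symm⟩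
    · rw [← Module.End.mul_apply, M₁.idem]
    · rw [← Module.End.mul_apply, M₂.idem]
  · rintro x y ⟨_, h2⟩ ⟨_, h4⟩
    constructor
    · rw [← h2, M₁.self, ← h4, e12, map_zero]
    · rw [← h4, M₂.self, ← h2, e21, map_zero]

end Add

/-- Complements. -/
lemma Mo.compl {π : Module.End W.K (W.H X)} (M : Mo W X D f π) : Mo W X D f (1 - π) where
  gd := M.gd
  aop := by
    rw [sub_eq_add_neg]
    exact AOp.one.add (AOp.ratSub.neg M.aop)
  idem := by rw [mul_sub, sub_mul, sub_mul, M.idem]; simp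
  self a b := by
    rw [LinearMap.sub_apply, LinearMap.sub_apply, map_sub, map_sub, LinearMap.sub_apply,
      M.self]
    rfl
  wt a := by
    rw [LinearMap.sub_apply, LinearMap.sub_apply, map_sub, M.wt]
    rfl

end Pool.Agent.X312.HH
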