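import Pool.Agent.X312.HH.Rnk

/-!
# The Cauchy-Schwarz inequality for idempotents
-/

set_option autoImplicit false
set_option linter.unusedSectionVars false

open CategoryTheory AlgebraicGeometry

universe u v

namespace Pool.Agent.X312.HH

open Module
open Pool.Agent.H914 Pool.Agent.H914.VarClass Pool.Agent.H914.VarClass.Obj
  Pool.Agent.H914.WeilCohomology Pool.Agent.H281R3.HT Pool.Agent.W552 Pool.Agent.W539.Ker
  Pool.Agent.Y133.Half

variable {k : Type u} [Field k] {𝒱 : VarClass k} {ops : CycleOps 𝒱}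
  {W : WeilCohomology.{u, v} ops}

/-- The rank of the form on the classes cut out by `π`. -/
noncomputable def rr (A : Bd W) (π : Module.End W.K (W.H A.X)) : ℕ :=
  rk ((algSys W).F A.X π)

variable {A B C : Bd W}

lemma rr_eq {π : Module.End W.K (W.H A.X)} (M : A.Mo π) {p q : ℕ}
    (hs : Sg A.bf (VT W A.X π) p q) : rr A π = p + q := M.rk_eq hs

lemma exists_sg_VT {π : Module.End W.K (W.H A.X)} (M : A.Mo π) :
    ∃ p q, Sg A.bf (VT W A.X π) p q := (rf_VT M.gd π).exists_Sg

lemma exists_sg_VP {π : Module.End W.K (W.H A.X)} (M : A.Mo π) (m : ℤ) :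
    ∃ p q, Sg A.bf (VP W A.X π m) p q := (rf_VP M.gd π m).exists_Sg

lemma rr_iso {θ : A.X ≅ B.X} {π : Module.End W.K (W.H B.X)}
    {π' : Module.End W.K (W.H A.X)} (ho : ∀ x, π' (W.map θ.hom x) = W.map θ.hom (π x)) :
    rr A π' = rr B π := (algSys W).rk_F_iso θ ho

lemma adj_st (G : A.Gd) : Adj W (st W A.X A.D A.f) (st W A.X A.D A.f) := by
  intro a b
  have h1 := G.st_self a (st W A.X A.D A.f b)
  rw [bf_apply, bf_apply, G.st_st_apply] at h1
  exact h1

lemma adj_of_self {α : Module.End W.K (W.H A.X)} (M : A.Mo α) :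
    Adj W (st W A.X A.D A.f * α * st W A.X A.D A.f) α := by
  have h1 : Adj W α (st W A.X A.D A.f * α * st W A.X A.D A.f) := by
    intro a b
    have h2 := M.self a (st W A.X A.D A.f b)
    rw [bf_apply, bf_apply, M.gd.st_st_apply] at h2
    exact h2
  exact h1.symm (aop_ev M.aop) (aop_ev ((M.gd.sa.mul M.aop).mul M.gd.sa))

/-- Conjugation by the star operator of one factor does not change the rank. -/
lemma rk_conj (hA : A.Gd) (α : Module.End W.K (W.H A.X)) (β : Module.End W.K (W.H B.X)) :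
    rk ((algSys W).F (A.X.prod B.X) (extOp W (st W A.X A.D A.f * α * st W A.X A.D A.f) β)) =
      rr (A.prod B) (extOp W α β) := by
  set s : Module.End W.K (W.H (A.X.prod B.X)) :=
    extOp W (st W A.X A.D A.f) (1 : Module.End W.K (W.H B.X)) with hs
  have hss : s * s = 1 := by rw [hs, extOp_mul, hA.st_st, one_mul, extOp_one]
  have hsO : s ∈ (algSys W).Op (A.X.prod B.X) (A.X.prod B.X) :=
    aop_Op (hA.sa.ext AOp.one)
  have hadj : Adj W s s := (adj_st hA).extOp Adj.one (aop_ev hA.sa) Ev.id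
  let σ : (algSys W).C (A.X.prod B.X) →ₗ[W.K] (algSys W).C (A.X.prod B.X) :=
    s.restrict fun x hx => Sys.Op.apply (fun _ => le_rfl) hsO hx
  have hσ : Function.Surjective σ := by
    intro x
    refine ⟨σ x, Subtype.ext ?_⟩
    change s (s x) = x
    rw [← Module.End.mul_apply, hss]
    rfl
  have h1 : extOp W (st W A.X A.D A.f * α * st W A.X A.D A.f) β = s * extOp W α β * s := by
    rw [hs, extOp_mul, extOp_mul, one_mul, mul_one]
  have h2 : (algSys W).F (A.X.prod B.X) (s * extOp W α β * s) =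
      ((algSys W).F (A.X.prod B.X) (extOp W α β)).compl₁₂ σ σ := by
    apply LinearMap.ext
    intro c
    apply LinearMap.ext
    intro d
    rw [LinearMap.compl₁₂_apply, Sys.F_apply, Sys.F_apply, Module.End.mul_apply,
      Module.End.mul_apply, hadj]
    rfl
  rw [h1, h2, rk_comp _ hσ hσ]
  rfl

lemma rk_BO_eq {α : Module.End W.K (W.H A.X)} {β : Module.End W.K (W.H B.X)} (M : A.Mo α)
    (N : B.Mo β) : rk (A := (algSys W).Op A.X B.X) (B := (algSys W).Op B.X A.X)
      ((algSys W).BO B.X A.X β α) = rr (A.prod B) (extOp W α β) := by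
  rw [(algSys W).rk_BO (aop_ev N.aop) (aop_ev M.aop) (adj_of_self M)]
  exact rk_conj M.gd α β

/-- **The Cauchy-Schwarz inequality.** -/
theorem rr_cs {α : Module.End W.K (W.H A.X)} {β : Module.End W.K (W.H B.X)} (M : A.Mo α)
    (N : B.Mo β) : rr (A.prod B) (extOp W α β) ^ 2 ≤
      rr (A.prod A) (extOp W α α) * rr (B.prod B) (extOp W β β) := by
  let X : Fin 2 → 𝒱.Obj := ![B.X, A.X]
  have key := ((algSys W).cat X).rk_B_sq_le' (i := 0) (j := 1) (g := β) (aop_Op N.aop) N.idem
    (g' := α) (aop_Op M.aop) M.idem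
  have e01 := (algSys W).cat_B X 0 1 β α
  have e00 := (algSys W).cat_B X 0 0 β β
  have e11 := (algSys W).cat_B X 1 1 α α
  have f01 := rk_BO_eq M N
  have f00 := rk_BO_eq N N
  have f11 := rk_BO_eq M M
  rw [← f01, ← f00, ← f11, mul_comm]
  exact key

end Pool.Agent.X312.HH
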