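import Pool.Agent.W539.Ker.Inertia
import Pool.Agent.W552.RatBasis

/-!
# Maximal orthogonal families in rational structures
-/

set_option autoImplicit false

open Finset

set_option linter.unusedSectionVars false

universe v

namespace Pool.Agent.X312.HH

open Pool.Agent.W539.Ker Pool.Agent.W552

variable {K : Type*} [Field K] [CharZero K] {H : Type v} [AddCommGroup H] [Module K H]

/-- A rational structure on which the form is rational and symmetric. -/
structure RF (B : H →ₗ[K] H →ₗ[K] K) (V : H → Prop) : Prop where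
  sub : RatSub K V
  rat : ∀ x y, V x → V y → ∃ q : ℚ, B x y = q
  symm : ∀ x y, V x → V y → B x y = B y x

/-- A maximal orthogonal family of anisotropic vectors of `V`. -/
structure MF (B : H →ₗ[K] H →ₗ[K] K) (V : H → Prop) {ι : Type*} (y : ι → H) (s : ι → ℚ) :
    Prop where
  mem : ∀ i, V (y i)
  ne : ∀ i, s i ≠ 0
  diag : ∀ i, B (y i) (y i) = s i
  orth : ∀ i j, i ≠ j → B (y i) (y j) = 0
  max : ∀ u, V u → (∀ i, B u (y i) = 0) → B u u = 0

variable {B : H →ₗ[K] H →ₗ[K] K} {V : H → Prop}

/-- The form over the rational numbers. -/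
lemma RF.exists_form (h : RF B V) : ∃ (M : Type v) (_ : AddCommGroup M) (_ : Module ℚ M)
    (B' : M →ₗ[ℚ] M →ₗ[ℚ] ℚ) (φ : M → H), (∀ m, V (φ m)) ∧ (∀ x, V x → ∃ m, φ m = x) ∧
      (∀ m m', B (φ m) (φ m') = ((B' m m' : ℚ) : K)) ∧ ∀ m m', B' m m' = B' m' m := by
  classical
  let _ : Module ℚ H := Module.compHom H (algebraMap ℚ K)
  have hsm : ∀ (q : ℚ) (x : H), q • x = (q : K) • x := fun q x => rfl
  let M : Submodule ℚ H :=
    { carrier := {x | V x}
      zero_mem' := h.sub.zero
      add_mem' := fun ha hb => h.sub.add ha hb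
      smul_mem' := fun q x hx => h.sub.smul q hx }
  choose b hb using fun m m' : M => h.rat _ _ m.2 m'.2
  have key : ∀ {p q : ℚ}, (p : K) = q → p = q := fun h => by exact_mod_cast h
  refine ⟨M, inferInstance, inferInstance, LinearMap.mk₂ ℚ b ?_ ?_ ?_ ?_, fun m => m.1,
    fun m => m.2, fun x hx => ⟨⟨x, hx⟩, rfl⟩, fun m m' => hb m m', ?_⟩
  · intro m m' n
    apply key
    rw [← hb, Rat.cast_add, ← hb, ← hb, Submodule.coe_add, map_add, LinearMap.add_apply]
  · intro q m n
    apply key
    rw [smul_eq_mul, ← hb, Rat.cast_mul, ← hb, Submodule.coe_smul, hsm, map_smul,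
      LinearMap.smul_apply, smul_eq_mul]
  · intro m n n'
    apply key
    rw [← hb, Rat.cast_add, ← hb, ← hb, Submodule.coe_add, map_add]
  · intro q m n
    apply key
    rw [smul_eq_mul, ← hb, Rat.cast_mul, ← hb, Submodule.coe_smul, hsm, map_smul, smul_eq_mul]
  · intro m m'
    apply key
    rw [LinearMap.mk₂_apply, LinearMap.mk₂_apply, ← hb, ← hb, h.symm _ _ m.2 m'.2]

/-- The numbers of positive and negative vectors in a maximal orthogonal family. -/
def Sg (B : H →ₗ[K] H →ₗ[K] K) (V : H → Prop) (p q : ℕ) : Prop :=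
  ∃ (n : ℕ) (y : Fin n → H) (s : Fin n → ℚ), MF B V y s ∧
    (univ.filter fun i => 0 < s i).card = p ∧ (univ.filter fun i => s i < 0).card = q

/-- Families indexed by arbitrary finite types. -/
lemma MF.sg {ι : Type*} [Fintype ι] {y : ι → H} {s : ι → ℚ} (h : MF B V y s) :
    Sg B V (univ.filter fun i => 0 < s i).card (univ.filter fun i => s i < 0).card := by
  classical
  let e := Fintype.equivFin ι
  refine ⟨Fintype.card ι, y ∘ e.symm, s ∘ e.symm, ⟨fun i => h.mem _, fun i => h.ne _,
    fun i => h.diag _, fun i j hij => h.orth _ _ fun h0 => hij (e.symm.injective h0),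
    fun u hu h0 => h.max u hu fun i => ?_⟩, ?_, ?_⟩
  · have := h0 (e i)
    rwa [Function.comp_apply, e.symm_apply_apply] at this
  · refine Finset.card_bij (fun i _ => e.symm i) ?_ ?_ ?_
    · intro i hi
      rw [Finset.mem_filter] at hi ⊢
      exact ⟨Finset.mem_univ _, hi.2⟩
    · intro i _ j _ hij
      exact e.symm.injective hij
    · intro i hi
      rw [Finset.mem_filter] at hi
      refine ⟨e i, ?_, e.symm_apply_apply i⟩
      rw [Finset.mem_filter, Function.comp_apply, e.symm_apply_apply]
      exact ⟨Finset.mem_univ _, hi.2⟩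
  · refine Finset.card_bij (fun i _ => e.symm i) ?_ ?_ ?_
    · intro i hi
      rw [Finset.mem_filter] at hi ⊢
      exact ⟨Finset.mem_univ _, hi.2⟩
    · intro i _ j _ hij
      exact e.symm.injective hij
    · intro i hi
      rw [Finset.mem_filter] at hi
      refine ⟨e i, ?_, e.symm_apply_apply i⟩
      rw [Finset.mem_filter, Function.comp_apply, e.symm_apply_apply]
      exact ⟨Finset.mem_univ _, hi.2⟩

/-- **Sylvester's law of inertia.** -/
lemma Sg.unique (h : RF B V) {p q p' q' : ℕ} (h1 : Sg B V p q) (h2 : Sg B V p' q') :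
    p = p' ∧ q = q' := by
  obtain ⟨M, _, _, B', φ, hφ, hφs, hB, hsym⟩ := h.exists_form
  have key : ∀ {p q : ℕ}, Sg B V p q → p = posIdx (fun x y => B' x y) ∧
      q = posIdx (fun x y => (-B') x y) := by
    rintro p q ⟨n, y, s, hM, rfl, rfl⟩
    choose m hm using fun i => hφs _ (hM.mem i)
    have hs : ∀ i, B' (m i) (m i) = s i := by
      intro i
      have := hB (m i) (m i)
      rw [hm, hM.diag] at this
      exact_mod_cast this.symm
    have hOM : OM B' m := by
      refine ⟨fun i => ?_, fun i j hij => ?_, fun u hu => ?_⟩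
      · rw [hs]; exact hM.ne i
      · have := hB (m i) (m j)
        rw [hm, hm, hM.orth i j hij] at this
        exact_mod_cast this.symm
      · have h3 := hM.max (φ u) (hφ u) fun i => by
          rw [← hm, hB, hu i, Rat.cast_zero]
        rw [hB] at h3
        exact_mod_cast h3
    constructor
    · rw [hOM.posIdx_eq hsym]
      congr 1
      ext i
      rw [Finset.mem_filter, Finset.mem_filter, hs]
    · rw [hOM.neg.posIdx_eq (fun x y => by
        rw [LinearMap.neg_apply, LinearMap.neg_apply, LinearMap.neg_apply, LinearMap.neg_apply,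
          hsym])]
      congr 1
      ext i
      rw [Finset.mem_filter, Finset.mem_filter, LinearMap.neg_apply, LinearMap.neg_apply, hs,
        neg_pos]
  obtain ⟨a1, a2⟩ := key h1
  obtain ⟨b1, b2⟩ := key h2
  exact ⟨a1.trans b1.symm, a2.trans b2.symm⟩

/-- Orthogonal families are linearly independent. -/
lemma card_le_of_orth [Module.Finite K H] {m : ℕ} {x : Fin m → H}
    (h1 : ∀ i, B (x i) (x i) ≠ 0) (h2 : ∀ i j, i ≠ j → B (x i) (x j) = 0) :
    m ≤ Module.finrank K H := by
  have hli : LinearIndependent K x := by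
    rw [Fintype.linearIndependent_iff]
    intro g hg i
    have h3 := congrArg (fun a => B a (x i)) hg
    simp only [map_sum, map_smul, LinearMap.sum_apply, LinearMap.smul_apply, smul_eq_mul,
      map_zero, LinearMap.zero_apply] at h3
    rw [Finset.sum_eq_single i] at h3
    · exact (mul_eq_zero.1 h3).resolve_right (h1 i)
    · intro j _ hj
      rw [h2 j i hj, mul_zero]
    · intro h; exact absurd (Finset.mem_univ _) h
  have := hli.fintype_card_le_finrank
  rwa [Fintype.card_fin] at this

/-- Existence. -/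
lemma RF.exists_MF [Module.Finite K H] (h : RF B V) :
    ∃ (n : ℕ) (y : Fin n → H) (s : Fin n → ℚ), MF B V y s := by
  obtain ⟨M, _, _, B', φ, hφ, hφs, hB, hsym⟩ := h.exists_form
  obtain ⟨n, m, hm⟩ := exists_OM hsym (N := Module.finrank K H) (by
    intro m x h1 h2
    refine card_le_of_orth (B := B) (x := fun i => φ (x i)) (fun i => ?_) fun i j hij => ?_
    · rw [hB]
      exact_mod_cast h1 i
    · rw [hB, h2 i j hij, Rat.cast_zero])
  refine ⟨n, fun i => φ (m i), fun i => B' (m i) (m i), fun i => hφ _, hm.ne, fun i => hB _ _,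
    fun i j hij => ?_, fun u hu h0 => ?_⟩
  · rw [hB, hm.orth i j hij, Rat.cast_zero]
  · obtain ⟨v, rfl⟩ := hφs u hu
    rw [hB, hm.max v fun i => ?_, Rat.cast_zero]
    have := h0 i
    rw [hB] at this
    exact_mod_cast this

lemma RF.exists_Sg [Module.Finite K H] (h : RF B V) : ∃ p q, Sg B V p q := by
  obtain ⟨n, y, s, hy⟩ := h.exists_MF
  exact ⟨_, _, n, y, s, hy, rfl, rfl⟩

lemma MF.card_eq {n : ℕ} {y : Fin n → H} {s : Fin n → ℚ} (h : MF B V y s) :
    (univ.filter fun i => 0 < s i).card + (univ.filter fun i => s i < 0).card = n := by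
  rw [← Finset.card_union_of_disjoint]
  · have h1 : (univ.filter fun i => 0 < s i) ∪ (univ.filter fun i => s i < 0) = univ := by
      ext i
      rw [Finset.mem_union, Finset.mem_filter, Finset.mem_filter]
      constructor
      · intro _; exact Finset.mem_univ _
      · intro _
        rcases lt_or_gt_of_ne (h.ne i) with h0 | h0
        · exact Or.inr ⟨Finset.mem_univ _, h0⟩
        · exact Or.inl ⟨Finset.mem_univ _, h0⟩
    rw [h1, Finset.card_univ, Fintype.card_fin]
  · rw [Finset.disjoint_left]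
    intro i hi hi'
    rw [Finset.mem_filter] at hi hi'
    exact lt_asymm hi.2 hi'.2

/-- The form on `V` in terms of a maximal orthogonal family. -/
lemma MF.decomp (h : RF B V) {n : ℕ} {y : Fin n → H} {s : Fin n → ℚ} (hy : MF B V y s) {u : H}
    (hu : V u) : ∃ r : Fin n → K, ∀ v, V v → B u v = ∑ i, r i * B (y i) v := by
  classical
  have key : ∀ u, V u → ∃ r : Fin n → ℚ, V (u - ∑ i, ((r i : ℚ) : K) • y i) ∧
      ∀ i, B (u - ∑ i, ((r i : ℚ) : K) • y i) (y i) = 0 := by
    intro u hu
    choose t ht using fun i => h.rat u (y i) hu (hy.mem i)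
    refine ⟨fun i => t i / s i, h.sub.sub hu (h.sub.sum _ fun i _ => h.sub.smul _ (hy.mem i)),
      fun i => ?_⟩
    rw [map_sub, LinearMap.sub_apply, map_sum, LinearMap.sum_apply, Finset.sum_eq_single i]
    · have hs : (s i : K) ≠ 0 := by exact_mod_cast hy.ne i
      rw [map_smul, LinearMap.smul_apply, hy.diag, ht, smul_eq_mul, Rat.cast_div,
        div_mul_cancel₀ _ hs, sub_self]
    · intro j _ hj
      rw [map_smul, LinearMap.smul_apply, hy.orth j i hj, smul_zero]
    · intro h0; exact absurd (Finset.mem_univ _) h0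
  obtain ⟨r, hr, hr'⟩ := key u hu
  refine ⟨fun i => ((r i : ℚ) : K), fun v hv => ?_⟩
  obtain ⟨t, ht, ht'⟩ := key v hv
  set u' := u - ∑ i, ((r i : ℚ) : K) • y i with hu'
  set v' := v - ∑ i, ((t i : ℚ) : K) • y i with hv'
  have h1 : B u' v' = 0 := by
    have e1 := hy.max u' hr hr'
    have e2 := hy.max v' ht ht'
    have e3 := hy.max (u' + v') (h.sub.add hr ht) fun i => by
      rw [map_add, LinearMap.add_apply, hr', ht', add_zero]
    rw [map_add B, LinearMap.add_apply, map_add, map_add, e1, e2, zero_add, add_zero,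
      h.symm v' u' ht hr, ← two_mul] at e3
    exact (mul_eq_zero.1 e3).resolve_left two_ne_zero
  have h2 : B u' v = 0 := by
    have e4 : v = v' + ∑ i, ((t i : ℚ) : K) • y i := by rw [hv']; abel
    rw [e4, map_add, h1, map_sum, zero_add]
    refine Finset.sum_eq_zero fun i _ => ?_
    rw [map_smul, hr', smul_zero]
  have e5 : u = u' + ∑ i, ((r i : ℚ) : K) • y i := by rw [hu']; abel
  rw [e5, map_add, LinearMap.add_apply, h2, zero_add, map_sum, LinearMap.sum_apply]
  refine Finset.sum_congr rfl fun i _ => ?_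
  rw [map_smul, LinearMap.smul_apply, smul_eq_mul]

/-- **Orthogonal sums.** -/
lemma Sg.add {V₁ V₂ : H → Prop} (h1 : ∀ x, V₁ x → V x) (h2 : ∀ x, V₂ x → V x)
    (h3 : ∀ x, V x → ∃ x₁ x₂, V₁ x₁ ∧ V₂ x₂ ∧ x = x₁ + x₂)
    (h4 : ∀ x y, V₁ x → V₂ y → B x y = 0 ∧ B y x = 0) {p q p' q' : ℕ} (hp : Sg B V₁ p q)
    (hp' : Sg B V₂ p' q') : Sg B V (p + p') (q + q') := by
  classical
  obtain ⟨n, y, s, hy, rfl, rfl⟩ := hp
  obtain ⟨n', y', s', hy', rfl, rfl⟩ := hp'
  have hM : MF B V (Sum.elim y y') (Sum.elim s s') := by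
    refine ⟨?_, ?_, ?_, ?_, ?_⟩
    · rintro (i | i)
      · exact h1 _ (hy.mem i)
      · exact h2 _ (hy'.mem i)
    · rintro (i | i)
      · exact hy.ne i
      · exact hy'.ne i
    · rintro (i | i)
      · exact hy.diag i
      · exact hy'.diag i
    · rintro (i | i) (j | j) hij
      · exact hy.orth i j fun h => hij (by rw [h])
      · exact (h4 _ _ (hy.mem i) (hy'.mem j)).1
      · exact (h4 _ _ (hy.mem j) (hy'.mem i)).2
      · exact hy'.orth i j fun h => hij (by rw [h])
    · intro u hu h0
      obtain ⟨x₁, x₂, hx₁, hx₂, rfl⟩ := h3 u hu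
      have e1 : B x₁ x₁ = 0 := hy.max x₁ hx₁ fun i => by
        have := h0 (Sum.inl i)
        rw [Sum.elim_inl, map_add, LinearMap.add_apply, (h4 _ _ (hy.mem i) hx₂).2,
          add_zero] at this
        exact this
      have e2 : B x₂ x₂ = 0 := hy'.max x₂ hx₂ fun i => by
        have := h0 (Sum.inr i)
        rw [Sum.elim_inr, map_add, LinearMap.add_apply, (h4 _ _ hx₁ (hy'.mem i)).1,
          zero_add] at this
        exact this
      rw [map_add B, LinearMap.add_apply, map_add, map_add, e1, e2, (h4 _ _ hx₁ hx₂).1,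
        (h4 _ _ hx₁ hx₂).2]
      simp
  have h5 := hM.sg
  have e1 : (univ.filter fun i => 0 < Sum.elim s s' i).card =
      (univ.filter fun i => 0 < s i).card + (univ.filter fun i => 0 < s' i).card := by
    rw [Finset.card_filter, Finset.card_filter, Finset.card_filter, Fintype.sum_sum_type]
    rfl
  have e2 : (univ.filter fun i => Sum.elim s s' i < 0).card =
      (univ.filter fun i => s i < 0).card + (univ.filter fun i => s' i < 0).card := by
    rw [Finset.card_filter, Finset.card_filter, Finset.card_filter, Fintype.sum_sum_type]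
    rfl
  rwa [e1, e2] at h5

section Sim

variable {H' : Type v} [AddCommGroup H'] [Module K H'] {B' : H' →ₗ[K] H' →ₗ[K] K}
  {V' : H' → Prop}

/-- **Similitudes.** -/
lemma Sg.sim (φ : H → H') (h1 : ∀ x, V x → V' (φ x)) (h2 : ∀ x', V' x' → ∃ x, V x ∧ φ x = x')
    {c : ℚ} (hc : c ≠ 0) (h3 : ∀ x y, V x → V y → B' (φ x) (φ y) = c * B x y) {p q : ℕ}
    (hp : Sg B V p q) : if 0 < c then Sg B' V' p q else Sg B' V' q p := by
  obtain ⟨n, y, s, hy, rfl, rfl⟩ := hp
  have hc' : (c : K) ≠ 0 := by exact_mod_cast hc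
  have hM : MF B' V' (fun i => φ (y i)) (fun i => c * s i) := by
    refine ⟨fun i => h1 _ (hy.mem i), fun i => mul_ne_zero hc (hy.ne i), fun i => ?_,
      fun i j hij => ?_, fun u hu h0 => ?_⟩
    · rw [h3 _ _ (hy.mem i) (hy.mem i), hy.diag, Rat.cast_mul]
    · rw [h3 _ _ (hy.mem i) (hy.mem j), hy.orth i j hij, mul_zero]
    · obtain ⟨x, hx, rfl⟩ := h2 u hu
      rw [h3 _ _ hx hx, hy.max x hx fun i => ?_, mul_zero]
      have := h0 i
      rw [h3 _ _ hx (hy.mem i)] at this
      exact (mul_eq_zero.1 this).resolve_left hc'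
  have h5 := hM.sg
  split_ifs with h0
  · have e1 : (univ.filter fun i => 0 < c * s i) = univ.filter fun i => 0 < s i := by
      ext i
      rw [Finset.mem_filter, Finset.mem_filter, mul_pos_iff_of_pos_left h0]
    have e2 : (univ.filter fun i => c * s i < 0) = univ.filter fun i => s i < 0 := by
      ext i
      rw [Finset.mem_filter, Finset.mem_filter]
      constructor
      · rintro ⟨_, h⟩
        exact ⟨Finset.mem_univ _, by
          by_contra h6
          exact absurd h (not_lt.2 (mul_nonneg h0.le (not_lt.1 h6)))⟩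
      · rintro ⟨_, h⟩
        exact ⟨Finset.mem_univ _, mul_neg_of_pos_of_neg h0 h⟩
    rwa [e1, e2] at h5
  · have hneg : c < 0 := lt_of_le_of_ne (not_lt.1 h0) hc
    have e1 : (univ.filter fun i => 0 < c * s i) = univ.filter fun i => s i < 0 := by
      ext i
      rw [Finset.mem_filter, Finset.mem_filter]
      constructor
      · rintro ⟨_, h⟩
        exact ⟨Finset.mem_univ _, by
          by_contra h6
          exact absurd h (not_lt.2 (mul_nonpos_of_nonpos_of_nonneg hneg.le (not_lt.1 h6)))⟩
      · rintro ⟨_, h⟩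
        exact ⟨Finset.mem_univ _, mul_pos_of_neg_of_neg hneg h⟩
    have e2 : (univ.filter fun i => c * s i < 0) = univ.filter fun i => 0 < s i := by
      ext i
      rw [Finset.mem_filter, Finset.mem_filter]
      constructor
      · rintro ⟨_, h⟩
        exact ⟨Finset.mem_univ _, by
          by_contra h6
          exact absurd h (not_lt.2 (mul_nonneg_of_nonpos_of_nonpos hneg.le (not_lt.1 h6)))⟩
      · rintro ⟨_, h⟩
        exact ⟨Finset.mem_univ _, mul_neg_of_neg_of_pos hneg h⟩
    rwa [e1, e2] at h5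

end Sim

end Pool.Agent.X312.HH
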