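import Pool.Agent.W539.Ker.Fam
import Pool.Agent.W539.Ker.Ops
import Pool.Agent.TH132.A.HLf
import Pool.Agent.Y133.Half.Pow
import Pool.Agent.X312.HH.Dg

/-!
# Frames of products, and classes cut out by idempotents
-/

set_option autoImplicit false
set_option linter.unusedSectionVars false

open CategoryTheory AlgebraicGeometry

universe u v

namespace Pool.Agent.X312.HH

open Pool.Agent.H914 Pool.Agent.H914.VarClass Pool.Agent.H914.VarClass.Obj
  Pool.Agent.H914.WeilCohomology Pool.Agent.H281R3.HT Pool.Agent.W552 Pool.Agent.W539.Ker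

variable {k : Type u} [Field k] {𝒱 : VarClass k} {ops : CycleOps 𝒱}
  {W : WeilCohomology.{u, v} ops} {X Y Z : 𝒱.Obj} {D : X.Cycles} {f : Module.End W.K (W.H X)}
  {E : Y.Cycles} {g : Module.End W.K (W.H Y)}

section Frm

variable (F : Fr W X D f)

include F

/-- The weight operator is algebraic. -/
lemma wt_aop : AOp W X X (wt (W.isInternal X) X.dim) := by
  have h1 : wt (W.isInternal X) X.dim = LinearMap.mulLeft W.K (W.cl X D) * f +
      -(f * LinearMap.mulLeft W.K (W.cl X D)) := by
    rw [← sub_eq_add_neg]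
    exact F.sl2.ef.symm
  rw [h1]
  exact (F.Lop.mul F.aop).add (AOp.ratSub.neg (F.aop.mul F.Lop))

/-- Approximations of the projector to degree `i`. -/
lemma exists_approx (i m : ℕ) : ∃ q : Module.End W.K (W.H X), AOp W X X q ∧
    ∀ j, ∀ a ∈ W.gr X j, (j = i → q a = a) ∧ (j < m → j ≠ i → q a = 0) := by
  induction m with
  | zero => exact ⟨1, AOp.one, fun j a _ => ⟨fun _ => rfl, fun h => absurd h (Nat.not_lt_zero _)⟩⟩
  | succ m ih =>
    obtain ⟨q, hq, hq'⟩ := ih
    by_cases hmi : m = i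
    · refine ⟨q, hq, fun j a ha => ⟨(hq' j a ha).1, fun h1 h2 => (hq' j a ha).2 ?_ h2⟩⟩
      omega
    · have hne : ((i : ℚ) - m) ≠ 0 := by
        rw [sub_ne_zero]
        exact_mod_cast Ne.symm hmi
      refine ⟨((((i : ℚ) - m)⁻¹ : ℚ) : W.K) • (q * (wt (W.isInternal X) X.dim +
        (((X.dim : ℚ) - m : ℚ) : W.K) • 1)), (hq.mul ((wt_aop F).add (AOp.one.smul _))).smul _,
        fun j a ha => ?_⟩
      have h1 : ((((i : ℚ) - m)⁻¹ : ℚ) : W.K) • (q * (wt (W.isInternal X) X.dim +
          (((X.dim : ℚ) - m : ℚ) : W.K) • 1)) a =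
          ((((i : ℚ) - m)⁻¹ * ((j : ℚ) - m) : ℚ) : W.K) • q a := by
        rw [Module.End.mul_apply, LinearMap.add_apply, LinearMap.smul_apply,
          Module.End.one_apply, Fr.wt_gr ha, ← add_smul, map_smul, smul_smul]
        congr 1
        push_cast
        ring
      rw [LinearMap.smul_apply, h1]
      constructor
      · intro h
        subst h
        rw [inv_mul_cancel₀ hne, Rat.cast_one, one_smul, (hq' j a ha).1 rfl]
      · intro h2 h3
        by_cases h4 : j = m
        · rw [h4, sub_self, mul_zero, Rat.cast_zero, zero_smul]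
        · rw [(hq' j a ha).2 (by omega) h3, smul_zero]

/-- The Kunneth projectors are algebraic. -/
lemma proj_aop' (i : ℕ) : AOp W X X (proj (W.isInternal X) i) := by
  obtain ⟨q, hq, hq'⟩ := exists_approx F i (2 * X.dim + 1)
  have h1 : proj (W.isInternal X) i = q := by
    apply gr_ext (W.isInternal X)
    intro j a ha
    by_cases hij : j = i
    · subst hij
      rw [proj_same _ ha, (hq' j a ha).1 rfl]
    · rw [proj_ne _ ha hij]
      by_cases hj : j < 2 * X.dim + 1
      · exact ((hq' j a ha).2 hj hij).symm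
      · rw [W.gr_eq_bot X j (by omega)] at ha
        rw [(Submodule.mem_bot _).1 ha, map_zero]
  rw [h1]
  exact hq

/-- Frames have all operators. -/
lemma gd_of_fr : Gd W X D f where
  fr := F
  ls := by
    refine ⟨mulLeft_isHom F.hD, W_hbd, ?_, F.sl2⟩
    refine TH132.A.hardLefschetz_of_inj F.hD fun i hi a ha h0 => ?_
    by_contra ha0
    refine Sl2.e_pow_inj F.sl2 (x := a) (M := X.dim - i) ?_ ha0 le_rfl h0
    rw [wt, scal_apply _ _ ha, node]
    congr 1
    rw [Nat.cast_sub hi]
    push_cast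
    ring
  sa := st_aop F (proj_aop' F)
  pa := par_aop (proj_aop' F)

end Frm

/-- The product of two frames. -/
lemma gd_prod (G : Gd W X D f) (G' : Gd W Y E g) :
    Gd W (X.prod Y) (ops.pull (fst X Y) D + ops.pull (snd X Y) E) (extSum W f g) :=
  gd_of_fr (G.fr.prod G'.fr)

lemma par_AS {x : W.H X} (hx : AS W X x) : par (W.isInternal X) x = x := by
  refine AS.ind (p := fun x => par (W.isInternal X) x = x) ?_ ?_ hx
  · intro j x hx
    rw [par, scal_apply _ _ (alg_gr hx), pow_mul]
    simp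
  · intro a b ha hb
    rw [map_add, ha, hb]

/-- The form is symmetric on the algebraic classes. -/
lemma bf_comm (G : Gd W X D f) {x : W.H X} (hx : AS W X x) (y : W.H X) :
    bf W X D f x y = bf W X D f y x := by
  have h := G.sy y x
  rw [par_AS hx] at h
  exact h.symm

/-- The classes cut out by `π`. -/
def VT (W : WeilCohomology.{u, v} ops) (X : 𝒱.Obj) (π : Module.End W.K (W.H X)) (x : W.H X) :
    Prop := AS W X x ∧ π x = x

/-- The classes of weight `m` cut out by `π`. -/
def VP (W : WeilCohomology.{u, v} ops) (X : 𝒱.Obj) (π : Module.End W.K (W.H X)) (m : ℤ)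
    (x : W.H X) : Prop :=
  (AS W X x ∧ π x = x) ∧ wt (W.isInternal X) X.dim x = (m : W.K) • x

lemma rf_VT (G : Gd W X D f) (π : Module.End W.K (W.H X)) :
    RF (bf W X D f) (VT W X π) where
  sub := ⟨⟨AS.zero, map_zero _⟩, fun h h' => ⟨h.1.add h'.1, by rw [map_add, h.2, h'.2]⟩,
    fun q x h => ⟨h.1.smul q, by rw [map_smul, h.2]⟩⟩
  rat _ _ h h' := G.fr.bf_rat h.1 h'.1
  symm _ y h _ := bf_comm G h.1 y

lemma rf_VP (G : Gd W X D f) (π : Module.End W.K (W.H X)) (m : ℤ) :
    RF (bf W X D f) (VP W X π m) where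
  sub := ⟨⟨⟨AS.zero, map_zero _⟩, by rw [map_zero, smul_zero]⟩,
    fun h h' => ⟨⟨h.1.1.add h'.1.1, by rw [map_add, h.1.2, h'.1.2]⟩, by
      rw [map_add, h.2, h'.2, smul_add]⟩,
    fun q x h => ⟨⟨h.1.1.smul q, by rw [map_smul, h.1.2]⟩, by
      rw [map_smul, h.2, smul_comm]⟩⟩
  rat _ _ h h' := G.fr.bf_rat h.1.1 h'.1.1
  symm _ y h _ := bf_comm G h.1.1 y

/-- A self-adjoint algebraic idempotent of weight zero. -/
structure Mo (W : WeilCohomology.{u, v} ops) (X : 𝒱.Obj) (D : X.Cycles)
    (f : Module.End W.K (W.H X)) (π : Module.End W.K (W.H X)) : Prop where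
  gd : Gd W X D f
  aop : AOp W X X π
  idem : π * π = π
  self : ∀ a b, bf W X D f (π a) b = bf W X D f a (π b)
  wt : ∀ a, H914.wt (W.isInternal X) X.dim (π a) = π (H914.wt (W.isInternal X) X.dim a)

lemma Mo.one (G : Gd W X D f) : Mo W X D f 1 :=
  ⟨G, AOp.one, one_mul 1, fun _ _ => rfl, fun _ => rfl⟩

lemma ext_add_left (x x' : W.H X) (y : W.H Y) : ext W (x + x') y = ext W x y + ext W x' y := by
  simp only [ext, map_add, add_mul]

lemma ext_add_right (x : W.H X) (y y' : W.H Y) : ext W x (y + y') = ext W x y + ext W x y' := by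
  simp only [ext, map_add, mul_add]

lemma ext_smul_left (c : W.K) (x : W.H X) (y : W.H Y) : ext W (c • x) y = c • ext W x y := by
  simp only [ext, map_smul, smul_mul_assoc]

lemma ext_smul_right (c : W.K) (x : W.H X) (y : W.H Y) : ext W x (c • y) = c • ext W x y := by
  simp only [ext, map_smul, mul_smul_comm]

/-- Linear identities on a product. -/
lemma ext_ind {p : W.H (X.prod Y) → Prop} (hadd : ∀ a b, p a → p b → p (a + b))
    (h : ∀ i j, ∀ a ∈ W.gr X i, ∀ b ∈ W.gr Y j, p (ext W a b)) (c : W.H (X.prod Y)) : p c :=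
  W.kunneth_induction hadd h c

lemma extOp_ext (a : Module.End W.K (W.H X)) (b : Module.End W.K (W.H Y)) (x : W.H X)
    (y : W.H Y) : extOp W a b (ext W x y) = ext W (a x) (b y) := extOp_tmul a b x y

lemma wt_ext (x : W.H X) (y : W.H Y) : wt (W.isInternal (X.prod Y)) (X.prod Y).dim (ext W x y) =
    ext W (wt (W.isInternal X) X.dim x) y + ext W x (wt (W.isInternal Y) Y.dim y) := by
  rw [wt_prod, extSum, LinearMap.add_apply, extL_apply, extR_apply, extOp_ext, extOp_ext]
  rfl

/-- Products. -/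
lemma Mo.prod {π : Module.End W.K (W.H X)} {μ : Module.End W.K (W.H Y)} (M : Mo W X D f π)
    (N : Mo W Y E g μ) : Mo W (X.prod Y) (ops.pull (fst X Y) D + ops.pull (snd X Y) E)
      (extSum W f g) (extOp W π μ) where
  gd := gd_prod M.gd N.gd
  aop := M.aop.ext N.aop
  idem := by rw [extOp_mul, M.idem, N.idem]
  self := by
    intro a b
    refine ext_ind (p := fun a => bf W (X.prod Y) (ops.pull (fst X Y) D + ops.pull (snd X Y) E)
      (extSum W f g) (extOp W π μ a) b = bf W (X.prod Y) (ops.pull (fst X Y) D +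
        ops.pull (snd X Y) E) (extSum W f g) a (extOp W π μ b)) ?_ ?_ a
    · intro a a' ha ha'
      rw [map_add, map_add, LinearMap.add_apply, ha, ha', map_add, LinearMap.add_apply]
    intro i j a₁ _ a₂ _
    refine ext_ind (p := fun b => bf W (X.prod Y) (ops.pull (fst X Y) D + ops.pull (snd X Y) E)
      (extSum W f g) (extOp W π μ (ext W a₁ a₂)) b = bf W (X.prod Y) (ops.pull (fst X Y) D +
        ops.pull (snd X Y) E) (extSum W f g) (ext W a₁ a₂) (extOp W π μ b)) ?_ ?_ b
    · intro b b' hb hb'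
      rw [map_add, hb, hb', map_add, map_add]
    intro i' j' b₁ _ b₂ _
    rw [extOp_ext, extOp_ext, M.gd.fr.bf_ext N.gd.fr, M.gd.fr.bf_ext N.gd.fr, M.self, N.self]
  wt := by
    intro a
    refine ext_ind (p := fun a => H914.wt (W.isInternal (X.prod Y)) (X.prod Y).dim
      (extOp W π μ a) = extOp W π μ (H914.wt (W.isInternal (X.prod Y)) (X.prod Y).dim a)) ?_ ?_ a
    · intro a a' ha ha'
      rw [map_add, map_add, ha, ha', map_add, map_add]
    intro i j a₁ _ a₂ _
    rw [extOp_ext, wt_ext, wt_ext, map_add, extOp_ext, extOp_ext, M.wt, N.wt]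

end Pool.Agent.X312.HH
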