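import Pool.Agent.X312.HH.Cls
import Pool.Agent.Y133.Half.TateSys

/-!
# Isometries between products
-/

set_option autoImplicit false
set_option linter.unusedSectionVars false

open CategoryTheory AlgebraicGeometry

universe u v

namespace Pool.Agent.X312.HH

open Pool.Agent.H914 Pool.Agent.H914.VarClass Pool.Agent.H914.VarClass.Obj
  Pool.Agent.H914.WeilCohomology Pool.Agent.H281R3.HT Pool.Agent.W552 Pool.Agent.W539.Ker
  Pool.Agent.Y133.Half

variable {k : Type u} [Field k] {𝒱 : VarClass k} {ops : CycleOps 𝒱}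
  {W : WeilCohomology.{u, v} ops}

/-- A variety with a divisor and an operator. -/
structure Bd (W : WeilCohomology.{u, v} ops) where
  /-- the variety -/
  X : 𝒱.Obj
  /-- the divisor -/
  D : X.Cycles
  /-- the operator -/
  f : Module.End W.K (W.H X)

/-- The product. -/
noncomputable abbrev Bd.prod (A B : Bd W) : Bd W :=
  ⟨A.X.prod B.X, ops.pull (fst A.X B.X) A.D + ops.pull (snd A.X B.X) B.D, extSum W A.f B.f⟩

/-- The form. -/
noncomputable abbrev Bd.bf (A : Bd W) : W.H A.X →ₗ[W.K] W.H A.X →ₗ[W.K] W.K :=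
  W552.bf W A.X A.D A.f

/-- A frame. -/
abbrev Bd.Gd (A : Bd W) : Prop := W539.Ker.Gd W A.X A.D A.f

/-- An idempotent. -/
abbrev Bd.Mo (A : Bd W) (π : Module.End W.K (W.H A.X)) : Prop := HH.Mo W A.X A.D A.f π

variable {A B C P Q R : Bd W}

lemma Bd.Gd.prod (hA : A.Gd) (hB : B.Gd) : (A.prod B).Gd := gd_prod hA hB

lemma Bd.Mo.prod {π : Module.End W.K (W.H A.X)} {μ : Module.End W.K (W.H B.X)} (hA : A.Mo π)
    (hB : B.Mo μ) : (A.prod B).Mo (extOp W π μ) := HH.Mo.prod hA hB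

lemma Bd.bf_ext (hA : A.Gd) (hB : B.Gd) (a a' : W.H A.X) (b b' : W.H B.X) :
    (A.prod B).bf (ext W a b) (ext W a' b') = A.bf a a' * B.bf b b' := hA.fr.bf_ext hB.fr a a' b b'

/-- Isometries. -/
structure Isom (A B : Bd W) (θ : A.X ≅ B.X) : Prop where
  dim : A.X.dim = B.X.dim
  bf : ∀ x y, A.bf (W.map θ.hom x) (W.map θ.hom y) = B.bf x y

lemma map_inv_hom (θ : A.X ≅ B.X) (x : W.H A.X) : W.map θ.hom (W.map θ.inv x) = x := by
  rw [← W.map_comp, θ.hom_inv_id, W.map_id]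

lemma map_hom_inv (θ : A.X ≅ B.X) (x : W.H B.X) : W.map θ.inv (W.map θ.hom x) = x := by
  rw [← W.map_comp, θ.inv_hom_id, W.map_id]

lemma Isom.refl (A : Bd W) : Isom A A (Iso.refl _) :=
  ⟨rfl, fun x y => by
    change A.bf (W.map (𝟙 A.X) x) (W.map (𝟙 A.X) y) = _
    rw [W.map_id, W.map_id]⟩

lemma Isom.symm {θ : A.X ≅ B.X} (h : Isom A B θ) : Isom B A θ.symm :=
  ⟨h.dim.symm, fun x y => by
    rw [← h.bf]
    change A.bf (W.map θ.hom (W.map θ.inv x)) (W.map θ.hom (W.map θ.inv y)) = _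
    rw [map_inv_hom, map_inv_hom]⟩

lemma Isom.trans {θ : A.X ≅ B.X} {η : B.X ≅ C.X} (h : Isom A B θ) (h' : Isom B C η) :
    Isom A C (θ ≪≫ η) :=
  ⟨h.dim.trans h'.dim, fun x y => by
    change A.bf (W.map (θ.hom ≫ η.hom) x) (W.map (θ.hom ≫ η.hom) y) = _
    rw [W.map_comp, W.map_comp, h.bf, h'.bf]⟩

lemma Isom.wt {θ : A.X ≅ B.X} (h : Isom A B θ) (x : W.H B.X) :
    wt (W.isInternal A.X) A.X.dim (W.map θ.hom x) =
      W.map θ.hom (wt (W.isInternal B.X) B.X.dim x) := by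
  refine gr_induction (W.isInternal B.X) (p := fun x => H914.wt (W.isInternal A.X) A.X.dim
    (W.map θ.hom x) = W.map θ.hom (H914.wt (W.isInternal B.X) B.X.dim x)) ?_ ?_ x
  swap
  · intro a b ha hb; rw [map_add, map_add, ha, hb, map_add, map_add]
  intro i x hx
  rw [Fr.wt_gr (W.map_mem θ.hom hx), Fr.wt_gr hx, map_smul, h.dim]

/-- Transport along isometries. -/
lemma Isom.sg_VP {θ : A.X ≅ B.X} (h : Isom A B θ) {π : Module.End W.K (W.H B.X)}
    {π' : Module.End W.K (W.H A.X)} (ho : ∀ x, π' (W.map θ.hom x) = W.map θ.hom (π x)) {m : ℤ}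
    {p q : ℕ} (hs : Sg B.bf (VP W B.X π m) p q) : Sg A.bf (VP W A.X π' m) p q := by
  have h1 := Sg.sim (B := B.bf) (V := VP W B.X π m) (B' := A.bf) (V' := VP W A.X π' m)
    (fun x => W.map θ.hom x) ?_ ?_ (c := 1) one_ne_zero ?_ hs
  · rwa [if_pos one_pos] at h1
  · rintro x ⟨⟨h1, h2⟩, h3⟩
    refine ⟨⟨h1.map _, ?_⟩, ?_⟩
    · rw [ho, h2]
    · rw [h.wt, h3, map_smul]
  · rintro y ⟨⟨h1, h2⟩, h3⟩
    refine ⟨W.map θ.inv y, ⟨⟨h1.map _, ?_⟩, ?_⟩, map_inv_hom θ y⟩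
    · rw [← map_hom_inv θ (π (W.map θ.inv y)), ← ho, map_inv_hom, h2]
    · rw [← map_hom_inv θ (H914.wt _ _ (W.map θ.inv y)), ← h.wt, map_inv_hom, h3, map_smul]
  · intro x y _ _
    rw [h.bf, Rat.cast_one, one_mul]

lemma Isom.sg_VT {θ : A.X ≅ B.X} (h : Isom A B θ) {π : Module.End W.K (W.H B.X)}
    {π' : Module.End W.K (W.H A.X)} (ho : ∀ x, π' (W.map θ.hom x) = W.map θ.hom (π x))
    {p q : ℕ} (hs : Sg B.bf (VT W B.X π) p q) : Sg A.bf (VT W A.X π') p q := by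
  have h1 := Sg.sim (B := B.bf) (V := VT W B.X π) (B' := A.bf) (V' := VT W A.X π')
    (fun x => W.map θ.hom x) ?_ ?_ (c := 1) one_ne_zero ?_ hs
  · rwa [if_pos one_pos] at h1
  · rintro x ⟨h1, h2⟩
    exact ⟨h1.map _, by rw [ho, h2]⟩
  · rintro y ⟨h1, h2⟩
    refine ⟨W.map θ.inv y, ⟨h1.map _, ?_⟩, map_inv_hom θ y⟩
    rw [← map_hom_inv θ (π (W.map θ.inv y)), ← ho, map_inv_hom, h2]
  · intro x y _ _
    rw [h.bf, Rat.cast_one, one_mul]

/-- Double induction on products. -/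
lemma ext_ind₂ {A B : 𝒱.Obj} {p : W.H (A.prod B) → W.H (A.prod B) → Prop}
    (h1 : ∀ a a' b, p a b → p a' b → p (a + a') b) (h2 : ∀ a b b', p a b → p a b' → p a (b + b'))
    (h : ∀ i j i' j', ∀ a ∈ W.gr A i, ∀ b ∈ W.gr B j, ∀ a' ∈ W.gr A i', ∀ b' ∈ W.gr B j',
      p (ext W a b) (ext W a' b')) (x y : W.H (A.prod B)) : p x y := by
  refine ext_ind (p := fun x => p x y) (fun a a' ha ha' => h1 _ _ _ ha ha') ?_ x
  intro i j a ha b hb
  refine ext_ind (p := fun y => p (ext W a b) y) (fun a a' ha ha' => h2 _ _ _ ha ha') ?_ y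
  intro i' j' a' ha' b' hb'
  exact h i j i' j' a ha b hb a' ha' b' hb'

/-- Double induction on triple products. -/
lemma ext_ind₃ {A B C : 𝒱.Obj}
    {p : W.H (A.prod (B.prod C)) → W.H (A.prod (B.prod C)) → Prop}
    (h1 : ∀ a a' b, p a b → p a' b → p (a + a') b) (h2 : ∀ a b b', p a b → p a b' → p a (b + b'))
    (h : ∀ i j l i' j' l', ∀ a ∈ W.gr A i, ∀ b ∈ W.gr B j, ∀ c ∈ W.gr C l, ∀ a' ∈ W.gr A i',
      ∀ b' ∈ W.gr B j', ∀ c' ∈ W.gr C l', p (ext W a (ext W b c)) (ext W a' (ext W b' c')))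
    (x y : W.H (A.prod (B.prod C))) : p x y := by
  refine ext_ind₂ h1 h2 ?_ x y
  intro i _ i' _ a ha u _ a' ha' v _
  refine ext_ind₂ (p := fun u v => p (ext W a u) (ext W a' v)) ?_ ?_ ?_ u v
  · intro u u' v hu hu'; rw [ext_add_right]; exact h1 _ _ _ hu hu'
  · intro u v v' hv hv'; rw [ext_add_right]; exact h2 _ _ _ hv hv'
  · intro j l j' l' b hb c hc b' hb' c' hc'
    exact h i j l i' j' l' a ha b hb c hc a' ha' b' hb' c' hc'

/-- Products of isometries. -/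
lemma Isom.prodCongr (hA : A.Gd) (hB : B.Gd) (hP : P.Gd) (hQ : Q.Gd) {α : A.X ≅ P.X}
    {β : B.X ≅ Q.X} (h : Isom A P α) (h' : Isom B Q β) :
    Isom (A.prod B) (P.prod Q) (Y133.Half.prodCongr α β) := by
  refine ⟨?_, ?_⟩
  · change A.X.dim + B.X.dim = P.X.dim + Q.X.dim
    rw [h.dim, h'.dim]
  have key : ∀ (p : W.H P.X) (q : W.H Q.X),
      W.map (Y133.Half.prodCongr α β).hom (ext W p q) =
        ext W (W.map α.hom p) (W.map β.hom q) := by
    intro p q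
    have e1 : (Y133.Half.prodCongr α β).hom ≫ fst _ _ = fst _ _ ≫ α.hom := Obj.lift_fst _ _
    have e2 : (Y133.Half.prodCongr α β).hom ≫ snd _ _ = snd _ _ ≫ β.hom := Obj.lift_snd _ _
    rw [ext, map_mul (W.map (Y133.Half.prodCongr α β).hom), ← W.map_comp, ← W.map_comp, e1, e2,
      W.map_comp, W.map_comp, ext]
  intro x y
  refine ext_ind₂ (p := fun x y => (A.prod B).bf (W.map (Y133.Half.prodCongr α β).hom x)
    (W.map (Y133.Half.prodCongr α β).hom y) = (P.prod Q).bf x y) ?_ ?_ ?_ x y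
  · intro a a' b ha ha'
    rw [map_add, map_add, LinearMap.add_apply, ha, ha', map_add, LinearMap.add_apply]
  · intro a b b' hb hb'
    rw [map_add, map_add, hb, hb', map_add]
  · intro i j i' j' a _ b _ a' _ b' _
    rw [key, key, Bd.bf_ext hA hB, h.bf, h'.bf, ← Bd.bf_ext hP hQ]

lemma θ₃_ext (P Q Z : 𝒱.Obj) (p : W.H P) (q : W.H Q) (z : W.H Z) :
    W.map (θ₃ P Q Z).hom (ext W p (ext W q z)) = ext W (ext W p q) z := θ₃_xp p q z

/-- Associativity. -/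
lemma isom_θ₃ (hP : P.Gd) (hQ : Q.Gd) (hR : R.Gd) :
    Isom ((P.prod Q).prod R) (P.prod (Q.prod R)) (θ₃ P.X Q.X R.X) := by
  refine ⟨?_, ?_⟩
  · change (P.X.dim + Q.X.dim) + R.X.dim = P.X.dim + (Q.X.dim + R.X.dim)
    rw [add_assoc]
  intro x y
  refine ext_ind₃ (p := fun x y => ((P.prod Q).prod R).bf (W.map (θ₃ P.X Q.X R.X).hom x)
    (W.map (θ₃ P.X Q.X R.X).hom y) = (P.prod (Q.prod R)).bf x y) ?_ ?_ ?_ x y
  · intro a a' b ha ha'
    rw [map_add, map_add, LinearMap.add_apply, ha, ha', map_add, LinearMap.add_apply]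
  · intro a b b' hb hb'
    rw [map_add, map_add, hb, hb', map_add]
  · intro i j l i' j' l' a _ b _ c _ a' _ b' _ c' _
    rw [θ₃_ext, θ₃_ext]
    have e1 : ((P.prod Q).prod R).bf (ext W (ext W a b) c) (ext W (ext W a' b') c') =
        P.bf a a' * Q.bf b b' * R.bf c c' := by
      rw [← Bd.bf_ext hP hQ]
      exact Bd.bf_ext (hP.prod hQ) hR _ _ _ _
    have e2 : (P.prod (Q.prod R)).bf (ext W a (ext W b c)) (ext W a' (ext W b' c')) =
        P.bf a a' * (Q.bf b b' * R.bf c c') := by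
      rw [← Bd.bf_ext hQ hR]
      exact Bd.bf_ext hP (hQ.prod hR) _ _ _ _
    rw [e1, e2, mul_assoc]

lemma θ₁_ext (Y P Y' : 𝒱.Obj) {i j : ℕ} {p : W.H P} (hp : p ∈ W.gr P i) {y : W.H Y}
    (hy : y ∈ W.gr Y j) (y' : W.H Y') : W.map (θ₁ Y P Y').hom (ext W p (ext W y y')) =
      (-1 : W.K) ^ (i * j) • ext W y (ext W p y') := θ₁_xp (PH.of hp) (PH.of hy) y'

/-- Interchanging two factors. -/
lemma isom_θ₁ (hP : P.Gd) (hQ : Q.Gd) (hR : R.Gd) :
    Isom (Q.prod (P.prod R)) (P.prod (Q.prod R)) (θ₁ Q.X P.X R.X) := by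
  refine ⟨?_, ?_⟩
  · change Q.X.dim + (P.X.dim + R.X.dim) = P.X.dim + (Q.X.dim + R.X.dim)
    ring
  intro x y
  refine ext_ind₃ (p := fun x y => (Q.prod (P.prod R)).bf (W.map (θ₁ Q.X P.X R.X).hom x)
    (W.map (θ₁ Q.X P.X R.X).hom y) = (P.prod (Q.prod R)).bf x y) ?_ ?_ ?_ x y
  · intro a a' b ha ha'
    rw [map_add, map_add, LinearMap.add_apply, ha, ha', map_add, LinearMap.add_apply]
  · intro a b b' hb hb'
    rw [map_add, map_add, hb, hb', map_add]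
  · intro i j l i' j' l' a ha b hb c _ a' ha' b' hb' c' _
    rw [θ₁_ext _ _ _ ha hb, θ₁_ext _ _ _ ha' hb', map_smul, map_smul, LinearMap.smul_apply]
    have e1 : (Q.prod (P.prod R)).bf (ext W b (ext W a c)) (ext W b' (ext W a' c')) =
        Q.bf b b' * (P.bf a a' * R.bf c c') := by
      rw [← Bd.bf_ext hP hR]
      exact Bd.bf_ext hQ (hP.prod hR) _ _ _ _
    have e2 : (P.prod (Q.prod R)).bf (ext W a (ext W b c)) (ext W a' (ext W b' c')) =
        P.bf a a' * (Q.bf b b' * R.bf c c') := by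
      rw [← Bd.bf_ext hQ hR]
      exact Bd.bf_ext hP (hQ.prod hR) _ _ _ _
    rw [e1, e2]
    by_cases hi : i = i'
    · by_cases hj : j = j'
      · subst hi hj
        have h3 : (-1 : W.K) ^ (i * j) * (-1) ^ (i * j) = 1 := by rw [← mul_pow]; simp
        simp only [smul_eq_mul]
        linear_combination (Q.bf b b' * (P.bf a a' * R.bf c c')) * h3
      · have h0 : Q.bf b b' = 0 := hQ.fr.bf_deg hb hb' hj
        rw [h0]; simp
    · have h0 : P.bf a a' = 0 := hP.fr.bf_deg ha ha' hi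
      rw [h0]; simp

lemma aop_ev {X Y : 𝒱.Obj} {u : W.H X →ₗ[W.K] W.H Y} (h : AOp W X Y u) : Ev W u := by
  obtain ⟨c, hc, rfl⟩ := h
  refine Ev.corr ?_
  refine AS.ind (p := fun c => c ∈ PH W _ 0) ?_ ?_ hc
  · intro j x hx
    exact PH.of' (by omega) (alg_gr hx)
  · intro a b ha hb
    exact Submodule.add_mem _ ha hb

lemma θ₃_op' {P Q Z : 𝒱.Obj} (a : Module.End W.K (W.H P)) (b : Module.End W.K (W.H Q))
    (c : Module.End W.K (W.H Z)) (x : W.H (P.prod (Q.prod Z))) :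
    extOp W (extOp W a b) c (W.map (θ₃ P Q Z).hom x) =
      W.map (θ₃ P Q Z).hom (extOp W a (extOp W b c) x) := by
  have h : (extOp W (extOp W a b) c) ∘ₗ (W.map (θ₃ P Q Z).hom).toLinearMap =
      (W.map (θ₃ P Q Z).hom).toLinearMap ∘ₗ (extOp W a (extOp W b c)) := by
    apply xpL_ext
    intro i j l p hp q hq z hz
    simp only [LinearMap.comp_apply, AlgHom.toLinearMap_apply, extOp_xp]
    rw [θ₃_xp, θ₃_xp, extOp_xp, extOp_xp]
  exact congrArg (fun f => f x) h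

lemma θ₁_op' {Y P Y' : 𝒱.Obj} {a : Module.End W.K (W.H P)} (ha : Ev W a)
    {b : Module.End W.K (W.H Y)} (hb : Ev W b) (c : Module.End W.K (W.H Y'))
    (x : W.H (P.prod (Y.prod Y'))) :
    extOp W b (extOp W a c) (W.map (θ₁ Y P Y').hom x) =
      W.map (θ₁ Y P Y').hom (extOp W a (extOp W b c) x) := by
  have h : (extOp W b (extOp W a c)) ∘ₗ (W.map (θ₁ Y P Y').hom).toLinearMap =
      (W.map (θ₁ Y P Y').hom).toLinearMap ∘ₗ (extOp W a (extOp W b c)) := by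
    apply xpL_ext
    intro i j l p hp q hq z hz
    simp only [LinearMap.comp_apply, AlgHom.toLinearMap_apply, extOp_xp]
    rw [θ₁_xp hp hq, θ₁_xp (ha _ _ hp) (hb _ _ hq), map_smul, extOp_xp, extOp_xp]
  exact congrArg (fun f => f x) h

end Pool.Agent.X312.HH
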