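import Pool.Agent.X312.HH.Pol

/-!
# The law for the powers
-/

set_option autoImplicit false
set_option linter.unusedSectionVars false

open CategoryTheory AlgebraicGeometry

universe u v

namespace Pool.Agent.X312.HH

open Module Filter Topology
open Pool.Agent.H914 Pool.Agent.H914.VarClass Pool.Agent.H914.VarClass.Obj
  Pool.Agent.H914.WeilCohomology Pool.Agent.H281R3.HT Pool.Agent.W552 Pool.Agent.W539.Ker
  Pool.Agent.Y133.Half

section Num

/-- Splitting the number of factors. -/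
lemma split_factors (μ : ℕ) (hμ : Even μ) (N : ℕ) (h : 2 ≤ (N + 1) / (μ + 1)) :
    ∃ s n, N = 2 * s + n * (μ + 1) + 1 ∧ (N + 1) / (μ + 1) - 2 ≤ n := by
  obtain ⟨a, ha⟩ := hμ
  have h1 : (μ + 1) * ((N + 1) / (μ + 1)) + (N + 1) % (μ + 1) = N + 1 :=
    Nat.div_add_mod (N + 1) (μ + 1)
  have h2 : (N + 1) % (μ + 1) < μ + 1 := Nat.mod_lt _ (by omega)
  obtain ⟨q', hq'⟩ : ∃ q', (N + 1) / (μ + 1) = q' + 2 := ⟨(N + 1) / (μ + 1) - 2, by omega⟩
  rw [hq'] at h1 ⊢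
  generalize (N + 1) % (μ + 1) = r at h1 h2
  have h3 : (μ + 1) * (q' + 2) = q' * (μ + 1) + 2 * (μ + 1) := by ring
  rcases Nat.even_or_odd r with ⟨c, hc⟩ | ⟨c, hc⟩
  · rcases Nat.eq_zero_or_pos c with hc0 | hc0
    · refine ⟨μ, q', ?_, by omega⟩
      omega
    · refine ⟨c - 1, q' + 2, ?_, by omega⟩
      have h4 : (q' + 2) * (μ + 1) = q' * (μ + 1) + 2 * (μ + 1) := by ring
      omega
  · refine ⟨(r + (μ + 1)) / 2 - 1, q' + 1, ?_, by omega⟩
    have h4 : (q' + 1) * (μ + 1) = q' * (μ + 1) + (μ + 1) := by ring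
    omega

lemma tendsto_rate (c b w d : ℕ) (hw : 0 < w) (hb : 2 ≤ b) :
    Tendsto (fun N : ℕ => (c : ℝ) * (((N + 1) * d : ℕ) + 1) * b *
      (1 - 2 / (b : ℝ)) ^ ((N + 1) / w - 2)) atTop (𝓝 0) := by
  have hb0 : (0 : ℝ) < b := by exact_mod_cast (by omega : 0 < b)
  have hb2 : (2 : ℝ) ≤ b := by exact_mod_cast hb
  set θ := 1 - 2 / (b : ℝ) with hθ
  have h0 : 0 ≤ θ := by
    rw [hθ, sub_nonneg, div_le_one hb0]; exact hb2
  have h1 : θ < 1 := by
    rw [hθ]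
    have : 0 < 2 / (b : ℝ) := by positivity
    linarith
  have hM : Tendsto (fun N : ℕ => (N + 1) / w - 2) atTop atTop := by
    rw [tendsto_atTop]
    intro M
    filter_upwards [eventually_ge_atTop (w * (M + 2))] with N hN
    have : M + 2 ≤ (N + 1) / w := by
      rw [Nat.le_div_iff_mul_le hw]
      calc (M + 2) * w = w * (M + 2) := by ring
        _ ≤ N + 1 := by omega
    omega
  have h2 : Tendsto (fun M : ℕ => ((M : ℝ) * θ ^ M)) atTop (𝓝 0) :=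
    tendsto_self_mul_const_pow_of_lt_one h0 h1
  have h3 : Tendsto (fun M : ℕ => θ ^ M) atTop (𝓝 0) := tendsto_pow_atTop_nhds_zero_of_lt_one h0 h1
  have h4 : Tendsto (fun M : ℕ => (c : ℝ) * b * (w * d * ((M : ℝ) * θ ^ M) +
      (3 * w * d + 1) * θ ^ M)) atTop (𝓝 0) := by
    have := ((h2.const_mul ((w : ℝ) * d)).add (h3.const_mul ((3 : ℝ) * w * d + 1))).const_mul
      ((c : ℝ) * b)
    simpa using this
  refine squeeze_zero (fun N => ?_) (fun N => ?_) (h4.comp hM)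
  · positivity
  · simp only [Function.comp]
    set M := (N + 1) / w - 2 with hMd
    have h5 : N + 1 ≤ w * (M + 3) := by
      have h6 := Nat.div_add_mod (N + 1) w
      have h7 := Nat.mod_lt (N + 1) hw
      have h8 : (N + 1) / w ≤ M + 2 := by omega
      calc N + 1 = w * ((N + 1) / w) + (N + 1) % w := h6.symm
        _ ≤ w * (M + 2) + w := Nat.add_le_add (Nat.mul_le_mul_left _ h8) h7.le
        _ = w * (M + 3) := by ring
    have h6 : (((N + 1) * d : ℕ) : ℝ) ≤ w * (M + 3) * d := by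
      exact_mod_cast Nat.mul_le_mul_right d h5
    have h7 : (0 : ℝ) ≤ θ ^ M := pow_nonneg h0 M
    calc (c : ℝ) * (((N + 1) * d : ℕ) + 1) * b * θ ^ M
        ≤ (c : ℝ) * (w * (M + 3) * d + 1) * b * θ ^ M := by gcongr
      _ = _ := by ring

lemma tendsto_half {P Q S c : ℕ → ℝ} (h1 : ∀ N, |P N - Q N| ≤ S N)
    (h2 : ∀ N, S N ≤ c N * (P N + Q N)) (h3 : ∀ N, 0 < P N + Q N)
    (hc : Tendsto c atTop (𝓝 0)) : Tendsto (fun N => Q N / (P N + Q N)) atTop (𝓝 (1 / 2)) := by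
  rw [tendsto_iff_dist_tendsto_zero]
  refine squeeze_zero (fun N => dist_nonneg) (fun N => ?_) hc
  rw [Real.dist_eq]
  have h4 : Q N / (P N + Q N) - 1 / 2 = (Q N - P N) / (2 * (P N + Q N)) := by
    have := (h3 N).ne'
    field_simp
    ring
  have h5 : |Q N - P N| ≤ c N * (P N + Q N) := by
    rw [abs_sub_comm]
    exact (h1 N).trans (h2 N)
  have h6 : 0 ≤ c N * (P N + Q N) := (abs_nonneg _).trans h5
  rw [h4, abs_div, abs_of_pos (by linarith [h3 N] : 0 < 2 * (P N + Q N)),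
    div_le_iff₀ (by linarith [h3 N])]
  linarith

end Num

variable {k : Type u} [Field k] {𝒱 : VarClass k} {ops : CycleOps 𝒱}
  {W : WeilCohomology.{u, v} ops}

/-- The product of `n + 1` copies of `P`, with the sum of the pull-backs of the divisor. -/
noncomputable def power (ops : CycleOps 𝒱) (P : Polarized 𝒱) : ℕ → Polarized 𝒱
  | 0 => P
  | n + 1 => (power ops P n).prod ops P

/-- The total numbers of the positive and of the negative squares. -/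
noncomputable def tot (W : WeilCohomology.{u, v} ops) (s : ℚ) (P : Polarized 𝒱) : ℕ :=
  ∑ j ∈ Finset.range (P.X.dim / 2 + 1), idx W P.X P.D s j

lemma power_eq (A : Bd W) (n : ℕ) :
    power ops ⟨A.X, A.D⟩ n = ⟨(pwB A n).X, (pwB A n).D⟩ := by
  induction n with
  | zero => rfl
  | succ n ih => rw [power, ih]; rfl

lemma idx_fund {P : Polarized 𝒱} (hD : P.X.IsCyc 1 P.D) {f : Module.End W.K (W.H P.X)}
    (F : Fr W P.X P.D f) (hv : Vol W P.X P.D f) : 1 ≤ idx W P.X P.D 1 0 := by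
  apply le_csSup (bddAbove_family W hD (n := 0) (by omega)).1
  refine ⟨fun _ => P.X.V.fundCycle, fun _ => prim_fund F, fun _ => ?_, fun i j hij => ?_⟩
  · rw [one_mul]
    exact (vol_iff F).1 hv
  · exact absurd (Subsingleton.elim i j) hij

/-- Positivity on the primitive cycles modulo numerical equivalence. -/
def Pos (W : WeilCohomology.{u, v} ops) (P : Polarized 𝒱) : Prop :=
  ∀ j, 2 * j ≤ P.X.dim → ∀ z, Primitive W P.X P.D j z →
    (∃ w, P.X.IsCyc (P.X.dim - j) w ∧ P.X.V.degCycle (ops.mul z w) ≠ 0) →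
    0 < pairing ops P.X P.D j z z

/-- The rate. -/
noncomputable def rate (b w d N : ℕ) : ℝ :=
  2 * (((N + 1) * d : ℕ) + 1) * (b : ℝ) ^ w * (1 - 2 / (b : ℝ) ^ w) ^ ((N + 1) / w - 2)

lemma exists_par {A : Bd W} (hA : A.Gd) (hv : Vol W A.X A.D A.f) {m : ℕ}
    (hm : ¬ Pos W (power ops ⟨A.X, A.D⟩ m)) :
    ∃ j e z c c', Par (pwB A (2 * ((m + 1) / 2))) j e z c c' := by
  rw [power_eq] at hm
  unfold Pos at hm
  push Not at hm
  obtain ⟨j, hj, z, hz, ⟨w, hw, hzw⟩, hle⟩ := hm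
  obtain ⟨z', hz', hneg⟩ := exists_neg (pwB_gd hA m).fr hj hz hw hzw hle
  obtain ⟨e, z'', c, c', hP⟩ := par_of_neg (B := pwB A m) (pwB_gd hA m) (vol_pwB hA hv m) hj hz'
    hneg
  rcases Nat.even_or_odd m with ⟨a, ha⟩ | ⟨a, ha⟩
  · rw [show 2 * ((m + 1) / 2) = m by omega]
    exact ⟨j, e, z'', c, c', hP⟩
  · rw [show 2 * ((m + 1) / 2) = m + 1 by omega]
    obtain ⟨e, z, c, c', h⟩ := Par.prod hP (pwB_gd hA m) hA hv
    exact ⟨j, e, z, c, c', h⟩

lemma sum_abs_le_tot (P : Polarized 𝒱) :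
    ∑ j ∈ Finset.range (P.X.dim / 2 + 1),
      |(idx W P.X P.D 1 j : ℝ) - idx W P.X P.D (-1) j| ≤ (tot W 1 P : ℝ) + tot W (-1) P := by
  rw [tot, tot, Nat.cast_sum, Nat.cast_sum, ← Finset.sum_add_distrib]
  apply Finset.sum_le_sum
  intro j _
  have h1 : (0 : ℝ) ≤ idx W P.X P.D 1 j := Nat.cast_nonneg _
  have h2 : (0 : ℝ) ≤ idx W P.X P.D (-1) j := Nat.cast_nonneg _
  rw [abs_le]
  constructor <;> linarith

/-- **The law with the explicit rate.** -/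
theorem law {A : Bd W} (hA : A.Gd) (hv : Vol W A.X A.D A.f) {m : ℕ}
    (hm : ¬ Pos W (power ops ⟨A.X, A.D⟩ m)) :
    2 ≤ finrank W.K (W.H A.X) ^ (2 * ((m + 1) / 2) + 1) ∧
    ∀ N, ∑ j ∈ Finset.range ((power ops ⟨A.X, A.D⟩ N).X.dim / 2 + 1),
      |(idx W (power ops ⟨A.X, A.D⟩ N).X (power ops ⟨A.X, A.D⟩ N).D 1 j : ℝ) -
        idx W (power ops ⟨A.X, A.D⟩ N).X (power ops ⟨A.X, A.D⟩ N).D (-1) j| ≤
      rate (finrank W.K (W.H A.X)) (2 * ((m + 1) / 2) + 1) A.X.dim N *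
        ((tot W 1 (power ops ⟨A.X, A.D⟩ N) : ℝ) + tot W (-1) (power ops ⟨A.X, A.D⟩ N)) := by
  obtain ⟨j, e, z, c, c', hP⟩ := exists_par hA hv hm
  set μ := 2 * ((m + 1) / 2) with hμ
  have hμe : Even μ := even_two_mul _
  have hB : (pwB A μ).Gd := pwB_gd hA μ
  have hfr := finrank_rho hB hP
  rw [finrank_pwB] at hfr
  have hb2 : 2 ≤ finrank W.K (W.H A.X) ^ (μ + 1) := by omega
  refine ⟨hb2, fun N => ?_⟩
  set b := finrank W.K (W.H A.X) ^ (μ + 1) with hb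
  have hbR : (2 : ℝ) ≤ b := by exact_mod_cast hb2
  have hb0 : (0 : ℝ) < b := by linarith
  have hrate : rate (finrank W.K (W.H A.X)) (μ + 1) A.X.dim N =
      2 * (((N + 1) * A.X.dim : ℕ) + 1) * (b : ℝ) *
        (1 - 2 / (b : ℝ)) ^ ((N + 1) / (μ + 1) - 2) := by
    rw [rate, hb, Nat.cast_pow]
  have hθ0 : 0 ≤ 1 - 2 / (b : ℝ) := by
    rw [sub_nonneg, div_le_one hb0]; exact hbR
  have hθ1 : 1 - 2 / (b : ℝ) ≤ 1 := by
    have : 0 < 2 / (b : ℝ) := by positivity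
    linarith
  have htot : (0 : ℝ) ≤ (tot W 1 (power ops ⟨A.X, A.D⟩ N) : ℝ) +
      tot W (-1) (power ops ⟨A.X, A.D⟩ N) := by positivity
  by_cases hq : 2 ≤ (N + 1) / (μ + 1)
  swap
  · refine (sum_abs_le_tot _).trans ?_
    rw [hrate, show (N + 1) / (μ + 1) - 2 = 0 by omega, pow_zero, mul_one]
    apply le_mul_of_one_le_left htot
    have h1 : (0 : ℝ) ≤ ((N + 1) * A.X.dim : ℕ) := Nat.cast_nonneg _
    nlinarith
  obtain ⟨s, n, hN, hn⟩ := split_factors μ hμe N hq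
  obtain ⟨θ, hθ⟩ := isom_NBA hA s μ n N hN
  have hS := sig_bound (pwB_gd hA s) hB (pwB_gd hA N) hP n hθ
  rw [finrank_pwB, ← hb] at hS
  have hpe := power_eq (ops := ops) A N
  rw [hpe, hrate]
  have hSR : (∑ i ∈ Finset.range ((pwB A N).X.dim / 2 + 1),
      |(idx W (pwB A N).X (pwB A N).D 1 i : ℝ) - idx W (pwB A N).X (pwB A N).D (-1) i|) *
        (b : ℝ) ^ n ≤ 2 * ((pwB A N).X.dim + 1) * b * ((b : ℝ) - 2) ^ n *
      ∑ i ∈ Finset.range ((pwB A N).X.dim / 2 + 1),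
        ((idx W (pwB A N).X (pwB A N).D 1 i : ℝ) + idx W (pwB A N).X (pwB A N).D (-1) i) := by
    exact_mod_cast hS
  have htot' : ∑ i ∈ Finset.range ((pwB A N).X.dim / 2 + 1),
        ((idx W (pwB A N).X (pwB A N).D 1 i : ℝ) + idx W (pwB A N).X (pwB A N).D (-1) i) =
      (tot W 1 (⟨(pwB A N).X, (pwB A N).D⟩ : Polarized 𝒱) : ℝ) +
        tot W (-1) (⟨(pwB A N).X, (pwB A N).D⟩ : Polarized 𝒱) := by
    rw [tot, tot, Nat.cast_sum, Nat.cast_sum, Finset.sum_add_distrib]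
  rw [htot'] at hSR
  rw [hpe] at htot
  have hdim : (pwB A N).X.dim = (N + 1) * A.X.dim := dim_pwB A N
  have hbn : (0 : ℝ) < (b : ℝ) ^ n := by positivity
  set T := (tot W 1 (⟨(pwB A N).X, (pwB A N).D⟩ : Polarized 𝒱) : ℝ) +
        tot W (-1) (⟨(pwB A N).X, (pwB A N).D⟩ : Polarized 𝒱) with hT
  have h1 : (∑ i ∈ Finset.range ((pwB A N).X.dim / 2 + 1),
      |(idx W (pwB A N).X (pwB A N).D 1 i : ℝ) - idx W (pwB A N).X (pwB A N).D (-1) i|) ≤
        2 * ((pwB A N).X.dim + 1) * b * (1 - 2 / (b : ℝ)) ^ n * T := by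
    rw [← mul_le_mul_iff_left₀ hbn]
    refine hSR.trans (le_of_eq ?_)
    have h2 : ((b : ℝ) - 2) ^ n = (1 - 2 / (b : ℝ)) ^ n * (b : ℝ) ^ n := by
      rw [← mul_pow]
      congr 1
      field_simp
    rw [h2]
    ring
  refine h1.trans ?_
  have h3 : (1 - 2 / (b : ℝ)) ^ n ≤ (1 - 2 / (b : ℝ)) ^ ((N + 1) / (μ + 1) - 2) :=
    pow_le_pow_of_le_one hθ0 hθ1 hn
  have h4 : (((pwB A N).X.dim : ℕ) : ℝ) = (((N + 1) * A.X.dim : ℕ) : ℝ) := by rw [hdim]
  rw [h4]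
  gcongr

/-- **The `0 - 1/2` law.** -/
theorem dichotomy {A : Bd W} (hA : A.Gd) (hv : Vol W A.X A.D A.f) :
    (∀ m, Pos W (power ops ⟨A.X, A.D⟩ m)) ∨
    Tendsto (fun N => (tot W (-1) (power ops ⟨A.X, A.D⟩ N) : ℝ) /
      (tot W 1 (power ops ⟨A.X, A.D⟩ N) + tot W (-1) (power ops ⟨A.X, A.D⟩ N))) atTop
        (𝓝 (1 / 2)) := by
  by_cases h : ∀ m, Pos W (power ops ⟨A.X, A.D⟩ m)
  · exact Or.inl h
  right
  push Not at h
  obtain ⟨m, hm⟩ := h
  obtain ⟨hb2, hlaw⟩ := law hA hv hm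
  refine tendsto_half (c := fun N => rate (finrank W.K (W.H A.X)) (2 * ((m + 1) / 2) + 1)
    A.X.dim N) (fun N => ?_) hlaw (fun N => ?_) ?_
  · rw [tot, tot, Nat.cast_sum, Nat.cast_sum, ← Finset.sum_sub_distrib]
    exact Finset.abs_sum_le_sum_abs _ _
  · have h1 : 1 ≤ tot W 1 (power ops ⟨A.X, A.D⟩ N) := by
      rw [power_eq]
      have h2 := idx_fund (P := ⟨(pwB A N).X, (pwB A N).D⟩) (W := W) (pwB_gd hA N).fr.hD
        (pwB_gd hA N).fr (vol_pwB hA hv N)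
      refine h2.trans ?_
      unfold tot
      exact Finset.single_le_sum (f := fun j => idx W (pwB A N).X (pwB A N).D 1 j)
        (fun j _ => Nat.zero_le _) (Finset.mem_range.2 (Nat.succ_pos _))
    have h3 : (1 : ℝ) ≤ tot W 1 (power ops ⟨A.X, A.D⟩ N) := by exact_mod_cast h1
    have h4 : (0 : ℝ) ≤ tot W (-1) (power ops ⟨A.X, A.D⟩ N) := Nat.cast_nonneg _
    linarith
  · have h1 := tendsto_rate 2 (finrank W.K (W.H A.X) ^ (2 * ((m + 1) / 2) + 1))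
      (2 * ((m + 1) / 2) + 1) A.X.dim (by omega) hb2
    refine h1.congr fun N => ?_
    rw [rate]
    push_cast
    ring

end Pool.Agent.X312.HH
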