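import Pool.Agent.X312.HH.Pow

/-!
# Negative primitive classes on powers
-/

set_option autoImplicit false
set_option linter.unusedSectionVars false

open CategoryTheory AlgebraicGeometry

universe u v

namespace Pool.Agent.X312.HH

open Module
open Pool.Agent.H914 Pool.Agent.H914.VarClass Pool.Agent.H914.VarClass.Obj
  Pool.Agent.H914.WeilCohomology Pool.Agent.H281R3.HT Pool.Agent.W552 Pool.Agent.W539.Ker
  Pool.Agent.Y133.Half

variable {k : Type u} [Field k] {𝒱 : VarClass k} {ops : CycleOps 𝒱}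
  {W : WeilCohomology.{u, v} ops}

section Single

variable {X : 𝒱.Obj} {D : X.Cycles} {f : Module.End W.K (W.H X)}

/-- If the form is not positive on a primitive class which is not numerically trivial, then it is
negative on some primitive class. -/
lemma exists_neg (F : Fr W X D f) {j : ℕ} (hj : 2 * j ≤ X.dim) {z w : X.Cycles}
    (hz : Primitive W X D j z) (hw : X.IsCyc (X.dim - j) w)
    (hzw : X.V.degCycle (ops.mul z w) ≠ 0) (h : pairing ops X D j z z ≤ 0) :
    ∃ z', Primitive W X D j z' ∧ pairing ops X D j z' z' < 0 := by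
  rcases h.lt_or_eq with hlt | h0
  · exact ⟨z, hz, hlt⟩
  set L := LinearMap.mulLeft W.K (W.cl X D) with hL
  obtain ⟨c', hc', hcc⟩ := (ap_alg F).hl j hj (W.cl X w) ⟨w, hw, rfl⟩
  obtain ⟨u, hu, hs⟩ := (ap_alg F).decomp_low (mulLeft_isHom F.hD) W_hbd j hj c' hc'
  obtain ⟨⟨z', hz', hzu⟩, hu0⟩ := hu 0 (Nat.zero_le _)
  rw [Nat.sub_zero] at hz' hu0
  have hprim' : Primitive W X D j z' := ⟨hz', by rw [cl_divPow, hzu]; exact hu0⟩
  have h1 : W.tr X (W.cl X z * W.cl X w) =
      W.tr X (W.cl X z * (L ^ (X.dim - 2 * j)) (W.cl X z')) := by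
    rw [← hcc, hs, map_sum, Finset.mul_sum, map_sum, Finset.sum_eq_single 0]
    · rw [pow_zero, Module.End.one_apply, hzu]
    · intro b hb hb0
      have h2 : (L ^ (X.dim - 2 * j + b)) (W.cl X z) = 0 := by
        have h3 : (L ^ (X.dim - 2 * j + 1)) (W.cl X z) = 0 := by
          rw [← cl_divPow]; exact hz.2
        rw [show X.dim - 2 * j + b = (b - 1) + (X.dim - 2 * j + 1) by omega, pow_add,
          Module.End.mul_apply, h3, map_zero]
      rw [← Module.End.mul_apply, ← pow_add, ← L_pow_self F.hD, h2, zero_mul, map_zero]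
    · intro h; exact absurd (Finset.mem_range.2 (Nat.succ_pos _)) h
  have hα : pairing ops X D j z z' ≠ 0 := by
    intro h2
    have h3 := pairing_cast (W := W) F.hD hj hz.1 hz'
    rw [h2, Rat.cast_zero, ← h1, ← W.cl_mul, W.tr_cl (by
      have := ops.mul_mem hz.1 hw
      rwa [show j + (X.dim - j) = X.dim by omega] at this)] at h3
    have h4 : ((X.V.degCycle (ops.mul z w) : ℚ) : W.K) ≠ 0 := by exact_mod_cast hzw
    exact mul_ne_zero (pow_ne_zero _ (neg_ne_zero.2 one_ne_zero)) h4 h3.symm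
  set B := BP W F.hD j hj with hB
  let a : PM W X D j := ⟨z, hz⟩
  let a' : PM W X D j := ⟨z', hprim'⟩
  have haa : B a a = 0 := h0
  have haa' : B a a' ≠ 0 := hα
  have ha'a : B a' a = B a a' := BP_symm F.hD hj a' a
  set α := B a a'
  set β := B a' a'
  have hε : (0 : ℚ) < (|β| + 1)⁻¹ := by positivity
  set ε := (|β| + 1)⁻¹ with hεd
  refine ⟨(a + (-(α * ε)) • a' : PM W X D j), (a + (-(α * ε)) • a' : PM W X D j).2, ?_⟩
  have h5 : pairing ops X D j ((a + (-(α * ε)) • a' : PM W X D j) : X.Cycles)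
      ((a + (-(α * ε)) • a' : PM W X D j) : X.Cycles) =
      B (a + (-(α * ε)) • a') (a + (-(α * ε)) • a') := rfl
  rw [h5]
  have h6 : B (a + (-(α * ε)) • a') (a + (-(α * ε)) • a') =
      ε * α ^ 2 * (ε * β - 2) := by
    simp only [map_add, map_smul, LinearMap.add_apply, LinearMap.smul_apply, smul_eq_mul, haa,
      ha'a]
    change 0 + -(α * ε) * α + (-(α * ε)) * (α + (-(α * ε)) * β) = _
    ring
  rw [h6]
  have h7 : ε * β < 2 := by
    have h8 : ε * β ≤ 1 := by
      rw [hεd, inv_mul_le_iff₀ (by positivity), mul_one]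
      linarith [le_abs_self β]
    linarith
  have h8 : 0 < ε * α ^ 2 := mul_pos hε (pow_pos_of_ne_zero haa')
  exact mul_neg_of_pos_of_neg h8 (by linarith)
where
  pow_pos_of_ne_zero {α : ℚ} (h : α ≠ 0) : 0 < α ^ 2 := by positivity

/-- The fundamental cycle is primitive. -/
lemma prim_fund (F : Fr W X D f) : Primitive W X D 0 X.V.fundCycle := by
  refine ⟨X.V.fundCycle_mem, ?_⟩
  have h1 := W.cl_mem (divPow_mem (ops := ops) F.hD (X.dim - 2 * 0 + 1) X.V.fundCycle_mem)
  rw [W.gr_eq_bot _ _ (by omega)] at h1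
  exact (Submodule.mem_bot _).1 h1

lemma bf_one (F : Fr W X D f) : bf W X D f 1 1 =
    (((X.dim.factorial : ℚ)⁻¹ * pairing ops X D 0 X.V.fundCycle X.V.fundCycle : ℚ) : W.K) := by
  have h := bf_same F (n := 0) (by omega) (prim_fund F) (prim_fund F) (j := 0) (Nat.zero_le _)
  rw [pow_zero, Module.End.one_apply, W.cl_fund] at h
  rw [h]
  congr 1
  rw [Nat.factorial_zero, Nat.cast_one, one_mul, mul_zero, Nat.sub_zero, Nat.sub_zero]

/-- Positive degree. -/
def Vol (W : WeilCohomology.{u, v} ops) (X : 𝒱.Obj) (D : X.Cycles)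
    (f : Module.End W.K (W.H X)) : Prop :=
  ∃ c : ℚ, 0 < c ∧ bf W X D f 1 1 = (c : W.K)

lemma vol_iff (F : Fr W X D f) : Vol W X D f ↔
    0 < pairing ops X D 0 X.V.fundCycle X.V.fundCycle := by
  constructor
  · rintro ⟨c, hc, h⟩
    rw [bf_one F, Rat.cast_inj] at h
    rw [← h] at hc
    exact (pos_iff_pos_of_mul_pos hc).1 (by positivity)
  · intro h
    exact ⟨_, by positivity, bf_one F⟩

lemma vol_of_deg (F : Fr W X D f)
    (hdeg : 0 < X.V.degCycle (divPow ops D X.dim X.V.fundCycle)) : Vol W X D f := by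
  rw [vol_iff F]
  have h1 := pairing_cast (W := W) F.hD (n := 0) (by omega) X.V.fundCycle_mem X.V.fundCycle_mem
  rw [pow_zero, one_mul, ← cl_divPow, W.cl_fund, one_mul, mul_zero, Nat.sub_zero,
    W.tr_cl (by
      have := divPow_mem (ops := ops) F.hD X.dim X.V.fundCycle_mem
      rwa [zero_add] at this)] at h1
  have h2 : pairing ops X D 0 X.V.fundCycle X.V.fundCycle =
      X.V.degCycle (divPow ops D X.dim X.V.fundCycle) := by exact_mod_cast h1
  rw [h2]
  exact hdeg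

/-- Classes of codimension zero are not negative. -/
lemma not_neg_zero (F : Fr W X D f) (hv : Vol W X D f) {z : X.Cycles}
    (hz : Primitive W X D 0 z) : 0 ≤ pairing ops X D 0 z z := by
  obtain ⟨c, hc, hcb⟩ := hv
  have h1 := W.cl_mem hz.1
  rw [mul_zero, W.gr_zero, Submodule.mem_span_singleton] at h1
  obtain ⟨t, ht⟩ := h1
  obtain ⟨s, hs⟩ := F.bf_rat (AS.of (j := 0) ⟨z, hz.1, rfl⟩)
    (AS.of (j := 0) ⟨X.V.fundCycle, X.V.fundCycle_mem, rfl⟩)
  rw [W.cl_fund, ← ht, map_smul, LinearMap.smul_apply, hcb, smul_eq_mul] at hs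
  have h2 := bf_same F (n := 0) (by omega) hz hz (j := 0) (Nat.zero_le _)
  have h2' : t * (t * (c : W.K)) = ((((Nat.factorial 0 : ℕ) : ℚ) *
      ((X.dim - 2 * 0 - 0).factorial : ℚ)⁻¹ * pairing ops X D 0 z z : ℚ) : W.K) := by
    have h2a : bf W X D f (t • (1 : W.H X)) (t • (1 : W.H X)) = t * (t * (c : W.K)) := by
      rw [map_smul, map_smul, LinearMap.smul_apply, hcb, smul_eq_mul, smul_eq_mul]
    rw [← h2a, ht]
    rw [pow_zero, Module.End.one_apply] at h2
    exact h2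
  have h3 : (((s * s : ℚ)) : W.K) = ((c * (((Nat.factorial 0 : ℕ) : ℚ) *
      ((X.dim - 2 * 0 - 0).factorial : ℚ)⁻¹ * pairing ops X D 0 z z) : ℚ) : W.K) := by
    rw [Rat.cast_mul c, ← h2', Rat.cast_mul, ← hs]
    ring
  have h4 : s * s = c * (((Nat.factorial 0 : ℕ) : ℚ) *
      ((X.dim - 2 * 0 - 0).factorial : ℚ)⁻¹ * pairing ops X D 0 z z) := by exact_mod_cast h3
  by_contra hlt
  push Not at hlt
  have h5 : c * (((Nat.factorial 0 : ℕ) : ℚ) *
      ((X.dim - 2 * 0 - 0).factorial : ℚ)⁻¹ * pairing ops X D 0 z z) < 0 := by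
    apply mul_neg_of_pos_of_neg hc
    apply mul_neg_of_pos_of_neg _ hlt
    positivity
  rw [← h4] at h5
  exact absurd (mul_self_nonneg s) (not_le.2 h5)

end Single

variable {A B : Bd W}

/-- A negative primitive class gives a pair. -/
theorem par_of_neg (hB : B.Gd) (hv : Vol W B.X B.D B.f) {j : ℕ} (hj : 2 * j ≤ B.X.dim)
    {z : B.X.Cycles} (hz : Primitive W B.X B.D j z) (hneg : pairing ops B.X B.D j z z < 0) :
    ∃ e z' c c', Par B j e z' c c' := by
  have hj0 : j ≠ 0 := by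
    rintro rfl
    exact absurd (not_neg_zero hB.fr hv hz) (not_le.2 hneg)
  have hfu := prim_fund (W := W) hB.fr
  have hpos := (vol_iff hB.fr).1 hv
  refine ⟨((LinearMap.mulLeft W.K (W.cl B.X B.D)) ^ j) (W.cl B.X B.X.V.fundCycle), W.cl B.X z,
    (j.factorial * ((B.X.dim - 2 * 0 - j).factorial : ℚ)⁻¹ *
      pairing ops B.X B.D 0 B.X.V.fundCycle B.X.V.fundCycle),
    ((Nat.factorial 0 : ℕ) * ((B.X.dim - 2 * j - 0).factorial : ℚ)⁻¹ *
      pairing ops B.X B.D j z z), ?_, ?_, ?_, ?_, ?_⟩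
  · refine ⟨?_, ?_, ?_⟩
    · have h1 := (ap_alg hB.fr).map_L_pow j (l := 0) (c := W.cl B.X B.X.V.fundCycle)
        ⟨_, B.X.V.fundCycle_mem, rfl⟩
      rwa [zero_add] at h1
    · have : (0 : ℚ) < j.factorial * ((B.X.dim - 2 * 0 - j).factorial : ℚ)⁻¹ *
        pairing ops B.X B.D 0 B.X.V.fundCycle B.X.V.fundCycle := by positivity
      exact this.ne'
    · exact bf_same hB.fr (n := 0) (by omega) hfu hfu (by omega)
  · refine ⟨⟨z, hz.1, rfl⟩, ?_, ?_⟩
    · have : ((Nat.factorial 0 : ℕ) * ((B.X.dim - 2 * j - 0).factorial : ℚ)⁻¹ *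
        pairing ops B.X B.D j z z) < 0 := by
        apply mul_neg_of_pos_of_neg _ hneg
        positivity
      exact this.ne
    · have := bf_same hB.fr (n := j) hj hz hz (j := 0) (by omega)
      rwa [pow_zero, Module.End.one_apply] at this
  · positivity
  · apply mul_neg_of_pos_of_neg _ hneg
    positivity
  · have := bf_cross hB.fr (n := 0) (n' := j) (by omega) hj (Ne.symm hj0) hfu hz (j := j)
      (j' := 0) (by omega) (by omega)
    rwa [pow_zero, Module.End.one_apply] at this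

lemma ext_one_one (X Y : 𝒱.Obj) : ext W (1 : W.H X) (1 : W.H Y) = 1 := by
  rw [ext, map_one, map_one, one_mul]

lemma vol_prod (hA : A.Gd) (hB : B.Gd) (hvA : Vol W A.X A.D A.f) (hvB : Vol W B.X B.D B.f) :
    Vol W (A.prod B).X (A.prod B).D (A.prod B).f := by
  obtain ⟨a, ha, ha'⟩ := hvA
  obtain ⟨b, hb, hb'⟩ := hvB
  refine ⟨a * b, mul_pos ha hb, ?_⟩
  have h := Bd.bf_ext hA hB 1 1 1 1
  rw [ext_one_one] at h
  rw [Rat.cast_mul, ← ha', ← hb']
  exact h

lemma vol_pwB (hA : A.Gd) (hvA : Vol W A.X A.D A.f) (n : ℕ) :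
    Vol W (pwB A n).X (pwB A n).D (pwB A n).f := by
  induction n with
  | zero => exact hvA
  | succ n ih => exact vol_prod (pwB_gd hA n) hA ih hvA

lemma alg_ext_one {X Y : 𝒱.Obj} {j : ℕ} {a : W.H X} (ha : a ∈ algClasses W X j) :
    ext W a (1 : W.H Y) ∈ algClasses W (X.prod Y) j := by
  obtain ⟨z, hz, rfl⟩ := ha
  refine ⟨ops.pull (fst X Y) z, ops.pull_mem _ hz, ?_⟩
  rw [W.cl_pull, ext, map_one, mul_one]

/-- Products with a factor. -/
theorem Par.prod {j : ℕ} {e z : W.H B.X} {c c' : ℚ} (h : Par B j e z c c') (hB : B.Gd)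
    (hA : A.Gd) (hv : Vol W A.X A.D A.f) : ∃ e z c c', Par (B.prod A) j e z c c' := by
  obtain ⟨a, ha, ha'⟩ := hv
  refine ⟨ext W e 1, ext W z 1, c * a, c' * a, ⟨alg_ext_one h.clE.alg, ?_, ?_⟩,
    ⟨alg_ext_one h.clZ.alg, ?_, ?_⟩, mul_pos h.pos ha, mul_neg_of_neg_of_pos h.neg ha, ?_⟩
  · exact (mul_pos h.pos ha).ne'
  · have h1 := Bd.bf_ext hB hA e e 1 1
    rw [Rat.cast_mul, ← ha', ← h.clE.val]
    exact h1
  · exact (mul_neg_of_neg_of_pos h.neg ha).ne
  · have h1 := Bd.bf_ext hB hA z z 1 1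
    rw [Rat.cast_mul, ← ha', ← h.clZ.val]
    exact h1
  · have h1 := Bd.bf_ext hB hA e z 1 1
    rw [h.orth, zero_mul] at h1
    exact h1

end Pool.Agent.X312.HH
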