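import Pool.Agent.X312.HH.Bnd

/-!
# Powers
-/

set_option autoImplicit false
set_option linter.unusedSectionVars false

open CategoryTheory AlgebraicGeometry

universe u v

namespace Pool.Agent.X312.HH

open Module
open Pool.Agent.H914 Pool.Agent.H914.VarClass Pool.Agent.H914.VarClass.Obj
  Pool.Agent.H914.WeilCohomology Pool.Agent.H281R3.HT Pool.Agent.W552 Pool.Agent.W539.Ker
  Pool.Agent.Y133.Half

variable {k : Type u} [Field k] {𝒱 : VarClass k} {ops : CycleOps 𝒱}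
  {W : WeilCohomology.{u, v} ops} {A : Bd W}

/-- `A ^ (n + 1)`. -/
noncomputable def pwB (A : Bd W) : ℕ → Bd W
  | 0 => A
  | n + 1 => (pwB A n).prod A

lemma pwB_gd (hA : A.Gd) (n : ℕ) : (pwB A n).Gd := by
  induction n with
  | zero => exact hA
  | succ n ih => exact Bd.Gd.prod ih hA

lemma dim_pwB (A : Bd W) (n : ℕ) : (pwB A n).X.dim = (n + 1) * A.X.dim := by
  induction n with
  | zero => rw [zero_add, one_mul]; rfl
  | succ n ih =>
    change (pwB A n).X.dim + A.X.dim = _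
    rw [ih]; ring

lemma finrank_pwB (A : Bd W) (n : ℕ) :
    finrank W.K (W.H (pwB A n).X) = finrank W.K (W.H A.X) ^ (n + 1) := by
  induction n with
  | zero => rw [zero_add, pow_one]; rfl
  | succ n ih =>
    have h := Y133.Half.finrank_prod (W := W) (pwB A n).X A.X
    change finrank W.K (W.H ((pwB A n).prod A).X) = _
    rw [h, ih]
    ring

lemma isom_pw_add (hA : A.Gd) (m n : ℕ) :
    ∀ N, N = m + n + 1 → ∃ θ, Isom ((pwB A m).prod (pwB A n)) (pwB A N) θ := by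
  induction n with
  | zero => rintro N rfl; exact ⟨_, Isom.refl _⟩
  | succ n ih =>
    rintro N rfl
    obtain ⟨θ, hθ⟩ := ih (m + n + 1) rfl
    have hm := pwB_gd hA m
    have hn := pwB_gd hA n
    have h1 := (isom_θ₃ hm hn hA).symm
    have h2 := Isom.prodCongr (hm.prod hn) hA (pwB_gd hA (m + n + 1)) hA hθ (Isom.refl A)
    exact ⟨_, h1.trans h2⟩

lemma isom_NB (hA : A.Gd) (s μ n : ℕ) :
    ∀ N, N = s + n * (μ + 1) → ∃ θ, Isom (NB (pwB A s) (pwB A μ) n) (pwB A N) θ := by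
  induction n with
  | zero =>
    intro N hN
    rw [zero_mul, add_zero] at hN
    subst hN
    exact ⟨_, Isom.refl _⟩
  | succ n ih =>
    intro N hN
    obtain ⟨θ, hθ⟩ := ih (s + n * (μ + 1)) rfl
    have hs := pwB_gd hA s
    have hμ := pwB_gd hA μ
    obtain ⟨η, hη⟩ := isom_pw_add hA (s + n * (μ + 1)) μ N (by rw [hN]; ring)
    have h2 := Isom.prodCongr (NB_gd hs hμ n) hμ (pwB_gd hA (s + n * (μ + 1))) hμ hθ
      (Isom.refl (pwB A μ))
    exact ⟨_, h2.trans hη⟩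

lemma isom_NBA (hA : A.Gd) (s μ n N : ℕ) (hN : N = 2 * s + n * (μ + 1) + 1) :
    ∃ θ, Isom ((NB (pwB A s) (pwB A μ) n).prod (pwB A s)) (pwB A N) θ := by
  obtain ⟨θ, hθ⟩ := isom_NB hA s μ n _ rfl
  have hs := pwB_gd hA s
  have hμ := pwB_gd hA μ
  obtain ⟨η, hη⟩ := isom_pw_add hA (s + n * (μ + 1)) s N (by rw [hN]; ring)
  have h2 := Isom.prodCongr (NB_gd hs hμ n) hs (pwB_gd hA (s + n * (μ + 1))) hs hθ
    (Isom.refl (pwB A s))
  exact ⟨_, h2.trans hη⟩

end Pool.Agent.X312.HH
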