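import Pool.Agent.X312.HH.Iso

/-!
# Adding a factor
-/

set_option autoImplicit false
set_option linter.unusedSectionVars false

open CategoryTheory AlgebraicGeometry

universe u v

namespace Pool.Agent.X312.HH

open Pool.Agent.H914 Pool.Agent.H914.VarClass Pool.Agent.H914.VarClass.Obj
  Pool.Agent.H914.WeilCohomology Pool.Agent.H281R3.HT Pool.Agent.W552 Pool.Agent.W539.Ker
  Pool.Agent.Y133.Half

variable {k : Type u} [Field k] {𝒱 : VarClass k} {ops : CycleOps 𝒱}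
  {W : WeilCohomology.{u, v} ops}

/-- Two orthogonal classes of the same codimension of different signs. -/
structure Par (B : Bd W) (j : ℕ) (e z : W.H B.X) (c c' : ℚ) : Prop where
  clE : Cl W B.X B.D B.f j e c
  clZ : Cl W B.X B.D B.f j z c'
  pos : 0 < c
  neg : c' < 0
  orth : B.bf e z = 0

/-- The complementary idempotent. -/
noncomputable def rho (B : Bd W) (e z : W.H B.X) (c c' : ℚ) : Module.End W.K (W.H B.X) :=
  1 - (pe W B.X B.D B.f e c + pe W B.X B.D B.f z c')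

variable {A B C : Bd W} {j : ℕ} {e z : W.H B.X} {c c' : ℚ}

section

variable (h : Par B j e z c c') (hB : B.Gd)

include h hB

lemma Par.ez : pe W B.X B.D B.f e c * pe W B.X B.D B.f z c' = 0 := by
  apply LinearMap.ext
  intro x
  rw [Module.End.mul_apply, pe_apply (e := z), map_smul, pe_apply, h.orth, mul_zero, zero_smul,
    smul_zero]
  rfl

lemma Par.ze : pe W B.X B.D B.f z c' * pe W B.X B.D B.f e c = 0 := by
  apply LinearMap.ext
  intro x
  rw [Module.End.mul_apply, pe_apply (e := e), map_smul, pe_apply,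
    ← bf_comm hB (AS.of h.clE.alg) z, h.orth, mul_zero, zero_smul, smul_zero]
  rfl

lemma Par.mo_sum : B.Mo (pe W B.X B.D B.f e c + pe W B.X B.D B.f z c') :=
  (h.clE.mo hB).add (h.clZ.mo hB) (h.ez hB) (h.ze hB)

lemma Par.mo_rho : B.Mo (rho B e z c c') := (h.mo_sum hB).compl

end

section

variable {ζ : Module.End W.K (W.H C.X)} (hA : A.Gd) (hB : B.Gd) (hC : C.Mo ζ)
  (h : Par B j e z c c')

include hA hB hC h

/-- One of the three parts. -/
lemma part_VP {x : W.H B.X} {b : ℚ} (hx : Cl W B.X B.D B.f j x b) {m m' : ℤ}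
    (hm : m' = m + (2 * j - B.X.dim)) {p q : ℕ}
    (h1 : Sg (A.prod C).bf (VP W (A.prod C).X (extOp W 1 ζ) m) p q) :
    if 0 < b then Sg (A.prod (B.prod C)).bf (VP W (A.prod (B.prod C)).X
      (extOp W 1 (extOp W (pe W B.X B.D B.f x b) ζ)) m') p q
    else Sg (A.prod (B.prod C)).bf (VP W (A.prod (B.prod C)).X
      (extOp W 1 (extOp W (pe W B.X B.D B.f x b) ζ)) m') q p := by
  have hAC : (A.prod C).Mo (extOp W 1 ζ) := Bd.Mo.prod (Mo.one hA) hC
  have h2 := hx.sg_VP hB hAC hm h1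
  have hI := isom_θ₁ (P := B) (Q := A) (R := C) hB hA hC.gd
  have ho := θ₁_op' (Y := A.X) (P := B.X) (Y' := C.X) (aop_ev (hx.mo hB).aop)
    (b := (1 : Module.End W.K (W.H A.X))) (fun i y hy => hy) ζ
  by_cases hb : 0 < b
  · rw [if_pos hb] at h2 ⊢
    exact hI.sg_VP ho h2
  · rw [if_neg hb] at h2 ⊢
    exact hI.sg_VP ho h2

lemma part_VT {x : W.H B.X} {b : ℚ} (hx : Cl W B.X B.D B.f j x b) {p q : ℕ}
    (h1 : Sg (A.prod C).bf (VT W (A.prod C).X (extOp W 1 ζ)) p q) :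
    if 0 < b then Sg (A.prod (B.prod C)).bf (VT W (A.prod (B.prod C)).X
      (extOp W 1 (extOp W (pe W B.X B.D B.f x b) ζ))) p q
    else Sg (A.prod (B.prod C)).bf (VT W (A.prod (B.prod C)).X
      (extOp W 1 (extOp W (pe W B.X B.D B.f x b) ζ))) q p := by
  have hAC : (A.prod C).Mo (extOp W 1 ζ) := Bd.Mo.prod (Mo.one hA) hC
  have h2 := hx.sg_VT hB hAC h1
  have hI := isom_θ₁ (P := B) (Q := A) (R := C) hB hA hC.gd
  have ho := θ₁_op' (Y := A.X) (P := B.X) (Y' := C.X) (aop_ev (hx.mo hB).aop)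
    (b := (1 : Module.End W.K (W.H A.X))) (fun i y hy => hy) ζ
  by_cases hb : 0 < b
  · rw [if_pos hb] at h2 ⊢
    exact hI.sg_VT ho h2
  · rw [if_neg hb] at h2 ⊢
    exact hI.sg_VT ho h2

omit hC in
lemma op_eq (ζ : Module.End W.K (W.H C.X)) :
    extOp W (1 : Module.End W.K (W.H A.X)) (extOp W (pe W B.X B.D B.f e c) ζ) +
      extOp W 1 (extOp W (pe W B.X B.D B.f z c') ζ) +
        extOp W 1 (extOp W (rho B e z c c') ζ) =
      extOp W (1 : Module.End W.K (W.H A.X)) (extOp W 1 ζ) := by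
  rw [← extOp_add_right, ← extOp_add_right, ← extOp_add_left, ← extOp_add_left, rho,
    add_sub_cancel]

/-- **Adding a factor.** -/
theorem step_VP {m m' : ℤ} (hm : m' = m + (2 * j - B.X.dim)) {p q p' q' : ℕ}
    (h1 : Sg (A.prod C).bf (VP W (A.prod C).X (extOp W 1 ζ) m) p q)
    (h2 : Sg (A.prod (B.prod C)).bf (VP W (A.prod (B.prod C)).X
      (extOp W 1 (extOp W (rho B e z c c') ζ)) m') p' q') :
    Sg ((A.prod B).prod C).bf (VP W ((A.prod B).prod C).X (extOp W 1 ζ) m')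
      (p + q + p') (q + p + q') := by
  have he := part_VP hA hB hC h h.clE hm h1
  rw [if_pos h.pos] at he
  have hz := part_VP hA hB hC h h.clZ hm h1
  rw [if_neg (not_lt.2 h.neg.le)] at hz
  have M1 : (A.prod (B.prod C)).Mo (extOp W 1 (extOp W (pe W B.X B.D B.f e c) ζ)) :=
    Bd.Mo.prod (Mo.one hA) (Bd.Mo.prod (h.clE.mo hB) hC)
  have M2 : (A.prod (B.prod C)).Mo (extOp W 1 (extOp W (pe W B.X B.D B.f z c') ζ)) :=
    Bd.Mo.prod (Mo.one hA) (Bd.Mo.prod (h.clZ.mo hB) hC)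
  have M3 : (A.prod (B.prod C)).Mo (extOp W 1 (extOp W (rho B e z c c') ζ)) :=
    Bd.Mo.prod (Mo.one hA) (Bd.Mo.prod (h.mo_rho hB) hC)
  have e12 : ∀ {x y : Module.End W.K (W.H B.X)}, x * y = 0 →
      extOp W (1 : Module.End W.K (W.H A.X)) (extOp W x ζ) *
        extOp W (1 : Module.End W.K (W.H A.X)) (extOp W y ζ) = 0 := by
    intro x y hxy
    rw [extOp_mul, extOp_mul, hxy, extOp_zero_left, extOp_zero_right]
  have k1 : pe W B.X B.D B.f e c * pe W B.X B.D B.f e c = pe W B.X B.D B.f e c :=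
    (h.clE.mo hB).idem
  have k2 : pe W B.X B.D B.f z c' * pe W B.X B.D B.f z c' = pe W B.X B.D B.f z c' :=
    (h.clZ.mo hB).idem
  have r1 : pe W B.X B.D B.f e c * rho B e z c c' = 0 := by
    rw [rho, mul_sub, mul_add, k1, h.ez hB, mul_one, add_zero, sub_self]
  have r2 : pe W B.X B.D B.f z c' * rho B e z c c' = 0 := by
    rw [rho, mul_sub, mul_add, k2, h.ze hB, mul_one, zero_add, sub_self]
  have r3 : rho B e z c c' * pe W B.X B.D B.f e c = 0 := by
    rw [rho, sub_mul, add_mul, k1, h.ze hB, one_mul, add_zero, sub_self]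
  have r4 : rho B e z c c' * pe W B.X B.D B.f z c' = 0 := by
    rw [rho, sub_mul, add_mul, k2, h.ez hB, one_mul, zero_add, sub_self]
  have s1 := Mo.sg_VP M1 M2 (e12 (h.ez hB)) (e12 (h.ze hB)) he hz
  have s2 := Mo.sg_VP (Mo.add M1 M2 (e12 (h.ez hB)) (e12 (h.ze hB))) M3
    (by rw [add_mul, e12 r1, e12 r2, add_zero]) (by rw [mul_add, e12 r3, e12 r4, add_zero]) s1 h2
  rw [op_eq hA hB h ζ] at s2
  have hI := isom_θ₃ (P := A) (Q := B) (R := C) hA hB hC.gd
  have ho := θ₃_op' (1 : Module.End W.K (W.H A.X)) (1 : Module.End W.K (W.H B.X)) ζ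
  rw [extOp_one] at ho
  exact hI.sg_VP ho s2

theorem step_VT {p q p' q' : ℕ}
    (h1 : Sg (A.prod C).bf (VT W (A.prod C).X (extOp W 1 ζ)) p q)
    (h2 : Sg (A.prod (B.prod C)).bf (VT W (A.prod (B.prod C)).X
      (extOp W 1 (extOp W (rho B e z c c') ζ))) p' q') :
    Sg ((A.prod B).prod C).bf (VT W ((A.prod B).prod C).X (extOp W 1 ζ))
      (p + q + p') (q + p + q') := by
  have he := part_VT hA hB hC h h.clE h1
  rw [if_pos h.pos] at he
  have hz := part_VT hA hB hC h h.clZ h1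
  rw [if_neg (not_lt.2 h.neg.le)] at hz
  have M1 : (A.prod (B.prod C)).Mo (extOp W 1 (extOp W (pe W B.X B.D B.f e c) ζ)) :=
    Bd.Mo.prod (Mo.one hA) (Bd.Mo.prod (h.clE.mo hB) hC)
  have M2 : (A.prod (B.prod C)).Mo (extOp W 1 (extOp W (pe W B.X B.D B.f z c') ζ)) :=
    Bd.Mo.prod (Mo.one hA) (Bd.Mo.prod (h.clZ.mo hB) hC)
  have M3 : (A.prod (B.prod C)).Mo (extOp W 1 (extOp W (rho B e z c c') ζ)) :=
    Bd.Mo.prod (Mo.one hA) (Bd.Mo.prod (h.mo_rho hB) hC)
  have e12 : ∀ {x y : Module.End W.K (W.H B.X)}, x * y = 0 →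
      extOp W (1 : Module.End W.K (W.H A.X)) (extOp W x ζ) *
        extOp W (1 : Module.End W.K (W.H A.X)) (extOp W y ζ) = 0 := by
    intro x y hxy
    rw [extOp_mul, extOp_mul, hxy, extOp_zero_left, extOp_zero_right]
  have k1 : pe W B.X B.D B.f e c * pe W B.X B.D B.f e c = pe W B.X B.D B.f e c :=
    (h.clE.mo hB).idem
  have k2 : pe W B.X B.D B.f z c' * pe W B.X B.D B.f z c' = pe W B.X B.D B.f z c' :=
    (h.clZ.mo hB).idem
  have r1 : pe W B.X B.D B.f e c * rho B e z c c' = 0 := by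
    rw [rho, mul_sub, mul_add, k1, h.ez hB, mul_one, add_zero, sub_self]
  have r2 : pe W B.X B.D B.f z c' * rho B e z c c' = 0 := by
    rw [rho, mul_sub, mul_add, k2, h.ze hB, mul_one, zero_add, sub_self]
  have r3 : rho B e z c c' * pe W B.X B.D B.f e c = 0 := by
    rw [rho, sub_mul, add_mul, k1, h.ze hB, one_mul, add_zero, sub_self]
  have r4 : rho B e z c c' * pe W B.X B.D B.f z c' = 0 := by
    rw [rho, sub_mul, add_mul, k2, h.ez hB, one_mul, zero_add, sub_self]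
  have s1 := Mo.sg_VT M1 M2 (e12 (h.ez hB)) (e12 (h.ze hB)) he hz
  have s2 := Mo.sg_VT (Mo.add M1 M2 (e12 (h.ez hB)) (e12 (h.ze hB))) M3
    (by rw [add_mul, e12 r1, e12 r2, add_zero]) (by rw [mul_add, e12 r3, e12 r4, add_zero]) s1 h2
  rw [op_eq hA hB h ζ] at s2
  have hI := isom_θ₃ (P := A) (Q := B) (R := C) hA hB hC.gd
  have ho := θ₃_op' (1 : Module.End W.K (W.H A.X)) (1 : Module.End W.K (W.H B.X)) ζ
  rw [extOp_one] at ho
  exact hI.sg_VT ho s2

end

end Pool.Agent.X312.HH
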