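import Pool.Agent.X312.HH.Rec

/-!
# Ranks over the coefficient field
-/

set_option autoImplicit false
set_option linter.unusedSectionVars false

open CategoryTheory AlgebraicGeometry

universe u v

namespace Pool.Agent.X312.HH

open Module
open Pool.Agent.H914 Pool.Agent.H914.VarClass Pool.Agent.H914.VarClass.Obj
  Pool.Agent.H914.WeilCohomology Pool.Agent.H281R3.HT Pool.Agent.W552 Pool.Agent.W539.Ker
  Pool.Agent.Y133.Half

variable {k : Type u} [Field k] {𝒱 : VarClass k} {ops : CycleOps 𝒱}
  {W : WeilCohomology.{u, v} ops}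

lemma AS_mem {X : 𝒱.Obj} {x : W.H X} (hx : AS W X x) : x ∈ (algSys W).C X := by
  refine AS.ind (p := fun x => x ∈ algSpan W X) ?_ ?_ hx
  · intro j x hx
    exact Submodule.subset_span (Set.mem_iUnion.2 ⟨j, hx⟩)
  · intro a b ha hb
    exact Submodule.add_mem _ ha hb

lemma C_ind {X : 𝒱.Obj} {p : W.H X → Prop} (h1 : ∀ x, AS W X x → p x) (h0 : p 0)
    (h2 : ∀ x y, p x → p y → p (x + y)) (h3 : ∀ (c : W.K) x, p x → p (c • x)) {x : W.H X}
    (hx : x ∈ (algSys W).C X) : p x := by
  have hx' : x ∈ Submodule.span W.K (⋃ j, algClasses W X j) := hx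
  clear hx
  induction hx' using Submodule.span_induction with
  | mem x hx =>
    obtain ⟨j, hj⟩ := Set.mem_iUnion.1 hx
    exact h1 x (AS.of hj)
  | zero => exact h0
  | add x y _ _ ihx ihy => exact h2 x y ihx ihy
  | smul c x _ ih => exact h3 c x ih

lemma aop_Op {X Y : 𝒱.Obj} {u : W.H X →ₗ[W.K] W.H Y} (h : AOp W X Y u) :
    u ∈ (algSys W).Op X Y := by
  obtain ⟨c, hc, rfl⟩ := h
  exact Sys.Op.corr (AS_mem hc)

variable {X : 𝒱.Obj} {D : X.Cycles} {f : Module.End W.K (W.H X)}

/-- The total number of vectors in a maximal orthogonal family is the rank of the intersection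
form over the coefficient field. -/
theorem Mo.rk_eq {π : Module.End W.K (W.H X)} (M : Mo W X D f π) {p q : ℕ}
    (hs : Sg (bf W X D f) (VT W X π) p q) : rk ((algSys W).F X π) = p + q := by
  classical
  obtain ⟨n, y, s, hy, rfl, rfl⟩ := hs
  rw [hy.card_eq]
  have hR := rf_VT M.gd π
  -- the form without the star operator
  let β : (algSys W).C X →ₗ[W.K] (algSys W).C X →ₗ[W.K] W.K :=
    ((bf W X D f).compl₁₂ (π ∘ₗ ((algSys W).C X).subtype) ((algSys W).C X).subtype)
  have hβ : ∀ c d, β c d = bf W X D f (π (c : W.H X)) (d : W.H X) := fun _ _ => rfl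
  let σ : (algSys W).C X →ₗ[W.K] (algSys W).C X := (st W X D f).restrict fun x hx =>
    C_ind (p := fun x => st W X D f x ∈ (algSys W).C X) (fun x hx => AS_mem (M.gd.fr.st_AS hx))
      (by rw [map_zero]; exact Submodule.zero_mem _)
      (fun x y hx hy => by rw [map_add]; exact Submodule.add_mem _ hx hy)
      (fun c x hx => by rw [map_smul]; exact Submodule.smul_mem _ _ hx) hx
  have hσ : Function.Surjective σ := by
    intro x
    refine ⟨σ x, Subtype.ext ?_⟩
    change st W X D f (st W X D f x) = x
    exact M.gd.st_st_apply _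
  have h1 : (algSys W).F X π = β.compl₁₂ LinearMap.id σ := by
    apply LinearMap.ext
    intro c
    apply LinearMap.ext
    intro d
    rw [LinearMap.compl₁₂_apply, hβ, Sys.F_apply, bf_apply]
    change _ = W.tr X (π (c : W.H X) * st W X D f (st W X D f (d : W.H X)))
    rw [M.gd.st_st_apply]
  rw [h1, rk_comp β (f := LinearMap.id) Function.surjective_id hσ, rk]
  -- the functionals of the family
  let Y : Fin n → (algSys W).C X := fun i => ⟨y i, AS_mem (hy.mem i).1⟩
  have hsub : LinearMap.range β = Submodule.span W.K (Set.range fun i => β (Y i)) := by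
    apply le_antisymm
    · rintro _ ⟨⟨c, hc⟩, rfl⟩
      have key : ∃ r : Fin n → W.K, ∀ d ∈ (algSys W).C X,
          bf W X D f (π c) d = ∑ i, r i * bf W X D f (π (y i)) d := by
        refine C_ind (p := fun c => ∃ r : Fin n → W.K, ∀ d ∈ (algSys W).C X,
          bf W X D f (π c) d = ∑ i, r i * bf W X D f (π (y i)) d) ?_ ?_ ?_ ?_ hc
        · intro c hc
          obtain ⟨r, hr⟩ := hy.decomp hR (u := π c) ⟨M.aop.apply hc, by
            rw [← Module.End.mul_apply, M.idem]⟩
          refine ⟨r, fun d hd => ?_⟩
          refine C_ind (p := fun d => bf W X D f (π c) d = ∑ i, r i * bf W X D f (π (y i)) d)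
            ?_ ?_ ?_ ?_ hd
          · intro d hd
            have h3 := hr (π d) ⟨M.aop.apply hd, by rw [← Module.End.mul_apply, M.idem]⟩
            rw [← M.self, ← Module.End.mul_apply, M.idem] at h3
            rw [h3]
            refine Finset.sum_congr rfl fun i _ => ?_
            rw [M.self]
          · rw [map_zero]
            symm
            refine Finset.sum_eq_zero fun i _ => by rw [map_zero, mul_zero]
          · intro d d' hd hd'
            rw [map_add, hd, hd', ← Finset.sum_add_distrib]
            refine Finset.sum_congr rfl fun i _ => by rw [map_add, mul_add]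
          · intro t d hd
            rw [map_smul, hd, smul_eq_mul, Finset.mul_sum]
            refine Finset.sum_congr rfl fun i _ => by rw [map_smul, smul_eq_mul]; ring
        · refine ⟨0, fun d _ => ?_⟩
          rw [map_zero, map_zero, LinearMap.zero_apply]
          symm
          refine Finset.sum_eq_zero fun i _ => by rw [Pi.zero_apply, zero_mul]
        · rintro a b ⟨r, hr⟩ ⟨r', hr'⟩
          refine ⟨r + r', fun d hd => ?_⟩
          rw [map_add, map_add, LinearMap.add_apply, hr d hd, hr' d hd, ← Finset.sum_add_distrib]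
          refine Finset.sum_congr rfl fun i _ => by rw [Pi.add_apply, add_mul]
        · rintro t a ⟨r, hr⟩
          refine ⟨t • r, fun d hd => ?_⟩
          rw [map_smul, map_smul, LinearMap.smul_apply, hr d hd, smul_eq_mul, Finset.mul_sum]
          refine Finset.sum_congr rfl fun i _ => by rw [Pi.smul_apply, smul_eq_mul, mul_assoc]
      obtain ⟨r, hr⟩ := key
      have h2 : β ⟨c, hc⟩ = ∑ i, r i • β (Y i) := by
        apply LinearMap.ext
        rintro ⟨d, hd⟩
        rw [hβ, LinearMap.sum_apply]
        exact hr d hd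
      rw [h2]
      exact Submodule.sum_mem _ fun i _ => Submodule.smul_mem _ _
        (Submodule.subset_span ⟨i, rfl⟩)
    · refine Submodule.span_le.2 ?_
      rintro _ ⟨i, rfl⟩
      exact ⟨_, rfl⟩
  rw [hsub]
  have hli : LinearIndependent W.K fun i => β (Y i) := by
    rw [Fintype.linearIndependent_iff]
    intro t ht i
    have h3 := congrArg (fun F => F (Y i)) ht
    simp only [LinearMap.sum_apply, LinearMap.smul_apply, smul_eq_mul, LinearMap.zero_apply] at h3
    rw [Finset.sum_eq_single i] at h3
    · rcases mul_eq_zero.1 h3 with h4 | h4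
      · exact h4
      · exfalso
        rw [hβ] at h4
        change bf W X D f (π (y i)) (y i) = 0 at h4
        rw [(hy.mem i).2, hy.diag] at h4
        exact hy.ne i (by exact_mod_cast h4)
    · intro j _ hj
      rw [hβ]
      change t j * bf W X D f (π (y j)) (y i) = 0
      rw [(hy.mem j).2, hy.orth j i hj, mul_zero]
    · intro h0; exact absurd (Finset.mem_univ _) h0
  rw [finrank_span_eq_card hli, Fintype.card_fin]

end Pool.Agent.X312.HH
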