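import Pool.Agent.X312.HH.Csq

/-!
# Towers
-/

set_option autoImplicit false
set_option linter.unusedSectionVars false

open CategoryTheory AlgebraicGeometry

universe u v

namespace Pool.Agent.X312.HH

open Module
open Pool.Agent.H914 Pool.Agent.H914.VarClass Pool.Agent.H914.VarClass.Obj
  Pool.Agent.H914.WeilCohomology Pool.Agent.H281R3.HT Pool.Agent.W552 Pool.Agent.W539.Ker
  Pool.Agent.Y133.Half

variable {k : Type u} [Field k] {𝒱 : VarClass k} {ops : CycleOps 𝒱}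
  {W : WeilCohomology.{u, v} ops}

/-- `A × B × ⋯ × B`. -/
noncomputable def NB (A B : Bd W) : ℕ → Bd W
  | 0 => A
  | n + 1 => (NB A B n).prod B

/-- `B × ⋯ × B × A`. -/
noncomputable def ZB (A B : Bd W) : ℕ → Bd W
  | 0 => A
  | n + 1 => B.prod (ZB A B n)

/-- `ρ ⊗ ⋯ ⊗ ρ ⊗ 1`. -/
noncomputable def zeta (A B : Bd W) (ρ : Module.End W.K (W.H B.X)) :
    ∀ n, Module.End W.K (W.H (ZB A B n).X)
  | 0 => 1
  | n + 1 => extOp W ρ (zeta A B ρ n)

variable {A B : Bd W} {ρ : Module.End W.K (W.H B.X)}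

lemma NB_gd (hA : A.Gd) (hB : B.Gd) (n : ℕ) : (NB A B n).Gd := by
  induction n with
  | zero => exact hA
  | succ n ih => exact Bd.Gd.prod ih hB

lemma zeta_mo (hA : A.Gd) (hρ : B.Mo ρ) (n : ℕ) : (ZB A B n).Mo (zeta A B ρ n) := by
  induction n with
  | zero => exact Mo.one hA
  | succ n ih => exact Bd.Mo.prod hρ ih

/-- The ranks. -/
noncomputable def gm (A B : Bd W) (ρ : Module.End W.K (W.H B.X)) (a b : ℕ) : ℕ :=
  rr ((ZB A B a).prod (ZB A B b)) (extOp W (zeta A B ρ a) (zeta A B ρ b))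

lemma gm_cs (hA : A.Gd) (hρ : B.Mo ρ) (a b : ℕ) :
    gm A B ρ a b ^ 2 ≤ gm A B ρ a a * gm A B ρ b b :=
  rr_cs (zeta_mo hA hρ a) (zeta_mo hA hρ b)

lemma rr_θ₃ (P Q R : Bd W) (a : Module.End W.K (W.H P.X)) (b : Module.End W.K (W.H Q.X))
    (c : Module.End W.K (W.H R.X)) : rr ((P.prod Q).prod R) (extOp W (extOp W a b) c) =
      rr (P.prod (Q.prod R)) (extOp W a (extOp W b c)) :=
  (algSys W).rk_F_iso (θ₃ P.X Q.X R.X) (θ₃_op' a b c)

lemma rr_θ₁ (P Q R : Bd W) {a : Module.End W.K (W.H P.X)} (ha : Ev W a)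
    {b : Module.End W.K (W.H Q.X)} (hb : Ev W b) (c : Module.End W.K (W.H R.X)) :
    rr (Q.prod (P.prod R)) (extOp W b (extOp W a c)) =
      rr (P.prod (Q.prod R)) (extOp W a (extOp W b c)) :=
  (algSys W).rk_F_iso (θ₁ Q.X P.X R.X) (θ₁_op' ha hb c)

lemma gm_shift (hA : A.Gd) (hρ : B.Mo ρ) (a b : ℕ) : gm A B ρ (a + 1) b = gm A B ρ a (b + 1) :=
  (rr_θ₃ B (ZB A B a) (ZB A B b) ρ (zeta A B ρ a) (zeta A B ρ b)).trans
    (rr_θ₁ B (ZB A B a) (ZB A B b) (aop_ev hρ.aop) (aop_ev (zeta_mo hA hρ a).aop)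
      (zeta A B ρ b)).symm

lemma gm_add (hA : A.Gd) (hρ : B.Mo ρ) (a b : ℕ) : gm A B ρ a b = gm A B ρ 0 (a + b) := by
  induction a generalizing b with
  | zero => rw [zero_add]
  | succ a ih => rw [gm_shift hA hρ, ih, show a + (b + 1) = a + 1 + b by ring]

/-- The ranks. -/
noncomputable def g (A B : Bd W) (ρ : Module.End W.K (W.H B.X)) (n : ℕ) : ℕ := gm A B ρ 0 n

lemma g_cs (hA : A.Gd) (hρ : B.Mo ρ) (a b : ℕ) :
    g A B ρ (a + b) ^ 2 ≤ g A B ρ (2 * a) * g A B ρ (2 * b) := by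
  have h := gm_cs hA hρ a b
  rw [gm_add hA hρ a b, gm_add hA hρ a a, gm_add hA hρ b b, ← two_mul, ← two_mul] at h
  exact h

lemma finrank_zeta (hρ : ρ * ρ = ρ) (n : ℕ) :
    zeta A B ρ n * zeta A B ρ n = zeta A B ρ n ∧
      finrank W.K (LinearMap.range (zeta A B ρ n)) =
        finrank W.K (LinearMap.range ρ) ^ n * finrank W.K (W.H A.X) := by
  induction n with
  | zero =>
    refine ⟨one_mul _, ?_⟩
    rw [pow_zero, one_mul]
    have h2 : LinearMap.range (zeta A B ρ 0) = ⊤ := LinearMap.range_id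
    rw [h2, finrank_top]
    rfl
  | succ n ih =>
    refine ⟨?_, ?_⟩
    · change extOp W ρ (zeta A B ρ n) * extOp W ρ (zeta A B ρ n) = extOp W ρ (zeta A B ρ n)
      rw [extOp_mul, hρ, ih.1]
    · change finrank W.K (LinearMap.range (extOp W ρ (zeta A B ρ n))) = _
      rw [finrank_extOp hρ ih.1, ih.2]
      ring

lemma g_le (hρ : ρ * ρ = ρ) (n : ℕ) :
    g A B ρ n ≤ finrank W.K (W.H A.X) ^ 2 * finrank W.K (LinearMap.range ρ) ^ n := by
  refine ((algSys W).rk_F_le _).trans ?_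
  have h0 := finrank_zeta (A := A) hρ 0
  have hn := finrank_zeta (A := A) hρ n
  rw [finrank_extOp h0.1 hn.1, h0.2, hn.2]
  apply le_of_eq
  ring

/-- Log-convex sequences with exponential growth. -/
lemma ratio_le {α : ℕ → ℕ} (hconv : ∀ l, α (l + 1) ^ 2 ≤ α l * α (l + 2)) {C β : ℕ}
    (hg : ∀ l, α l ≤ C * β ^ l) (l : ℕ) : α (l + 1) ≤ β * α l := by
  by_contra hlt
  push Not at hlt
  have hpos : ∀ n, 0 < α (l + n) ∧ (β : ℝ) * α (l + n) < α (l + n + 1) ∧
      (α (l + 1) : ℝ) * α (l + n) ≤ α l * α (l + n + 1) := by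
    intro n
    have h0 : 0 < α l := by
      rcases Nat.eq_zero_or_pos (α l) with h0 | h0
      · exfalso
        have h1 := hconv l
        rw [h0, zero_mul] at h1
        have h2 : α (l + 1) = 0 := (pow_eq_zero_iff two_ne_zero).1 (Nat.le_zero.1 h1)
        omega
      · exact h0
    have hlt' : (β : ℝ) * α l < α (l + 1) := by exact_mod_cast hlt
    have h0' : (0 : ℝ) < α l := by exact_mod_cast h0
    have hβ : (0 : ℝ) ≤ β := Nat.cast_nonneg _
    induction n with
    | zero =>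
      refine ⟨h0, hlt', ?_⟩
      rw [add_zero, mul_comm]
    | succ n ih =>
      obtain ⟨i1, i2, i3⟩ := ih
      have i1' : (0 : ℝ) < α (l + n) := by exact_mod_cast i1
      have h3 : (0 : ℝ) < α (l + n + 1) := lt_of_le_of_lt (mul_nonneg hβ i1'.le) i2
      have h4 : (α (l + n + 1) : ℝ) ^ 2 ≤ α (l + n) * α (l + n + 2) := by
        exact_mod_cast hconv (l + n)
      refine ⟨by exact_mod_cast h3, ?_, ?_⟩
      · rw [show l + (n + 1) = l + n + 1 by ring]
        have h5 : (β : ℝ) * α (l + n + 1) * α (l + n) < α (l + n + 2) * α (l + n) := by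
          calc (β : ℝ) * α (l + n + 1) * α (l + n) = (β * α (l + n)) * α (l + n + 1) := by ring
            _ < α (l + n + 1) * α (l + n + 1) := mul_lt_mul_of_pos_right i2 h3
            _ = (α (l + n + 1) : ℝ) ^ 2 := by ring
            _ ≤ _ := by rw [mul_comm (α (l + n + 2) : ℝ)]; exact h4
        exact lt_of_mul_lt_mul_right h5 i1'.le
      · rw [show l + (n + 1) = l + n + 1 by ring]
        have h5 : (α (l + 1) : ℝ) * α (l + n + 1) * α (l + n) ≤
            α l * α (l + n + 2) * α (l + n) := by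
          calc (α (l + 1) : ℝ) * α (l + n + 1) * α (l + n) =
              (α (l + 1) * α (l + n)) * α (l + n + 1) := by ring
            _ ≤ (α l * α (l + n + 1)) * α (l + n + 1) := mul_le_mul_of_nonneg_right i3 h3.le
            _ = α l * (α (l + n + 1) : ℝ) ^ 2 := by ring
            _ ≤ α l * (α (l + n) * α (l + n + 2)) := mul_le_mul_of_nonneg_left h4 h0'.le
            _ = _ := by ring
        exact le_of_mul_le_mul_right h5 i1'
  -- growth
  have h0 : (0 : ℝ) < α l := by exact_mod_cast (hpos 0).1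
  set c : ℝ := α (l + 1) / α l with hc
  have hcβ : (β : ℝ) < c := by
    rw [hc, lt_div_iff₀ h0]
    exact_mod_cast hlt
  have hc0 : 0 < c := lt_of_le_of_lt (Nat.cast_nonneg _) hcβ
  have hgrow : ∀ n, c ^ n * α l ≤ α (l + n) := by
    intro n
    induction n with
    | zero => simp
    | succ n ih =>
      have h1 := (hpos n).2.2
      have h2 : c * α (l + n) ≤ α (l + n + 1) := by
        rw [hc, div_mul_eq_mul_div, div_le_iff₀ h0, mul_comm (α (l + n + 1) : ℝ)]
        exact h1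
      calc c ^ (n + 1) * α l = c * (c ^ n * α l) := by ring
        _ ≤ c * α (l + n) := mul_le_mul_of_nonneg_left ih hc0.le
        _ ≤ _ := h2
  rcases Nat.eq_zero_or_pos β with hβ | hβ
  · have h1 := hgrow 1
    have h2 := hg (l + 1)
    rw [hβ, pow_succ, mul_zero, mul_zero] at h2
    have h3 : (α (l + 1) : ℝ) = 0 := by exact_mod_cast Nat.le_zero.1 h2
    rw [h3, pow_one] at h1
    exact absurd h1 (not_le.2 (mul_pos hc0 h0))
  · have hβ' : (0 : ℝ) < β := by exact_mod_cast hβ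
    have h1 : 1 < c / β := by rw [one_lt_div hβ']; exact hcβ
    obtain ⟨n, hn⟩ := pow_unbounded_of_one_lt ((C : ℝ) * β ^ l / α l) h1
    have h2 : (α (l + n) : ℝ) ≤ C * β ^ (l + n) := by exact_mod_cast hg (l + n)
    have h3 := (hgrow n).trans h2
    rw [div_pow, lt_div_iff₀ (pow_pos hβ' n), div_mul_eq_mul_div, div_lt_iff₀ h0] at hn
    rw [pow_add, ← mul_assoc] at h3
    exact absurd h3 (not_le.2 hn)

variable {j : ℕ} {e z : W.H B.X} {c c' : ℚ}

lemma g_ratio (hA : A.Gd) (hρ : B.Mo ρ) (l : ℕ) :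
    g A B ρ (2 * (l + 1)) ≤ finrank W.K (LinearMap.range ρ) ^ 2 * g A B ρ (2 * l) := by
  refine ratio_le (α := fun l => g A B ρ (2 * l)) ?_ (C := finrank W.K (W.H A.X) ^ 2) ?_ l
  · intro l
    have h := g_cs hA hρ l (l + 2)
    rw [show l + (l + 2) = 2 * (l + 1) by ring] at h
    exact h
  · intro l
    rw [← pow_mul]
    exact g_le hρ.idem (2 * l)

lemma g_odd (hA : A.Gd) (hρ : B.Mo ρ) (l : ℕ) :
    g A B ρ (2 * l + 1) ≤ finrank W.K (LinearMap.range ρ) * g A B ρ (2 * l) := by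
  have h := g_cs hA hρ l (l + 1)
  rw [show l + (l + 1) = 2 * l + 1 by ring] at h
  have h2 := g_ratio hA hρ l
  have h3 : g A B ρ (2 * l + 1) ^ 2 ≤
      (finrank W.K (LinearMap.range ρ) * g A B ρ (2 * l)) ^ 2 := by
    refine h.trans ?_
    calc g A B ρ (2 * l) * g A B ρ (2 * (l + 1)) ≤
        g A B ρ (2 * l) * (finrank W.K (LinearMap.range ρ) ^ 2 * g A B ρ (2 * l)) :=
          Nat.mul_le_mul_left _ h2
      _ = _ := by ring
  exact (Nat.pow_le_pow_iff_left two_ne_zero).1 h3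

/-- The rank of the complementary idempotent. -/
lemma finrank_rho (hB : B.Gd) (h : Par B j e z c c') :
    finrank W.K (LinearMap.range (rho B e z c c')) + 2 = finrank W.K (W.H B.X) := by
  have h1 : ∀ {x : W.H B.X} {b : ℚ}, Cl W B.X B.D B.f j x b →
      LinearMap.trace W.K (W.H B.X) (pe W B.X B.D B.f x b) = 1 := by
    intro x b hx
    have hb : (b : W.K) ≠ 0 := by exact_mod_cast hx.ne
    rw [pe, map_smul, LinearMap.trace_smulRight, hx.val, smul_eq_mul, Rat.cast_inv,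
      inv_mul_cancel₀ hb]
  have h2 := trace_idem (K := W.K) (f := rho B e z c c') (h.mo_rho hB).idem
  rw [rho, map_sub, map_add, h1 h.clE, h1 h.clZ, Module.End.one_eq_id, LinearMap.trace_id] at h2
  have h3 : ((finrank W.K (W.H B.X) : ℕ) : W.K) =
      ((finrank W.K (LinearMap.range (rho B e z c c')) + 2 : ℕ) : W.K) := by
    push_cast
    rw [rho, Module.End.one_eq_id, ← h2]
    ring
  exact_mod_cast h3.symm

section Rec

variable (hA : A.Gd) (hB : B.Gd) (h : Par B j e z c c')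

include hA hB h

/-- **The signatures.** -/
theorem sig_rec (n : ℕ) : ∀ (l t : ℕ), t = l + n → ∀ (m : ℤ) (p q : ℕ),
    Sg ((NB A B n).prod (ZB A B l)).bf (VP W ((NB A B n).prod (ZB A B l)).X
      (extOp W 1 (zeta A B (rho B e z c c') l)) m) p q →
    ∃ p' q', Sg ((ZB A B 0).prod (ZB A B t)).bf (VP W ((ZB A B 0).prod (ZB A B t)).X
      (extOp W (zeta A B (rho B e z c c') 0) (zeta A B (rho B e z c c') t)) m) p' q' ∧
      (p : ℤ) - q = p' - q' := by
  induction n with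
  | zero =>
    rintro l t rfl m p q hs
    exact ⟨p, q, hs, rfl⟩
  | succ n ih =>
    rintro l t ht m p q hs
    have hN := NB_gd hA hB n
    have hZ := zeta_mo (A := A) hA (h.mo_rho hB) l
    have M1 : ((NB A B n).prod (ZB A B l)).Mo (extOp W 1 (zeta A B (rho B e z c c') l)) :=
      Bd.Mo.prod (Mo.one hN) hZ
    have M2 : ((NB A B n).prod (B.prod (ZB A B l))).Mo
        (extOp W 1 (extOp W (rho B e z c c') (zeta A B (rho B e z c c') l))) :=
      Bd.Mo.prod (Mo.one hN) (Bd.Mo.prod (h.mo_rho hB) hZ)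
    obtain ⟨p1, q1, h1⟩ := exists_sg_VP M1 (m - (2 * j - B.X.dim))
    obtain ⟨p2, q2, h2⟩ := exists_sg_VP M2 m
    have h3 := step_VP hN hB hZ h (m' := m) (by ring) h1 h2
    have M3 : ((NB A B (n + 1)).prod (ZB A B l)).Mo (extOp W 1 (zeta A B (rho B e z c c') l)) :=
      Bd.Mo.prod (Mo.one (NB_gd hA hB (n + 1))) hZ
    obtain ⟨e1, e2⟩ := Sg.unique (rf_VP M3.gd _ m) hs h3
    obtain ⟨p', q', h4, h5⟩ := ih (l + 1) t (by omega) m p2 q2 h2
    refine ⟨p', q', h4, ?_⟩
    rw [← h5, e1, e2]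
    push_cast
    ring

/-- The ranks on the towers. -/
noncomputable def RR (A B : Bd W) (ρ : Module.End W.K (W.H B.X)) (n l : ℕ) : ℕ :=
  rr ((NB A B n).prod (ZB A B l)) (extOp W 1 (zeta A B ρ l))

/-- **The ranks.** -/
theorem rank_rec (n l : ℕ) : RR A B (rho B e z c c') (n + 1) l =
    2 * RR A B (rho B e z c c') n l + RR A B (rho B e z c c') n (l + 1) := by
  have hN := NB_gd hA hB n
  have hZ := zeta_mo (A := A) hA (h.mo_rho hB) l
  have M1 : ((NB A B n).prod (ZB A B l)).Mo (extOp W 1 (zeta A B (rho B e z c c') l)) :=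
    Bd.Mo.prod (Mo.one hN) hZ
  have M2 : ((NB A B n).prod (B.prod (ZB A B l))).Mo
      (extOp W 1 (extOp W (rho B e z c c') (zeta A B (rho B e z c c') l))) :=
    Bd.Mo.prod (Mo.one hN) (Bd.Mo.prod (h.mo_rho hB) hZ)
  obtain ⟨p1, q1, h1⟩ := exists_sg_VT M1
  obtain ⟨p2, q2, h2⟩ := exists_sg_VT M2
  have h3 := step_VT hN hB hZ h h1 h2
  have M3 : (((NB A B n).prod B).prod (ZB A B l)).Mo (extOp W 1 (zeta A B (rho B e z c c') l)) :=
    Bd.Mo.prod (Mo.one (Bd.Gd.prod hN hB)) hZ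
  have e1 := rr_eq M1 h1
  have e2 := rr_eq M2 h2
  have e3 := rr_eq M3 h3
  change rr (((NB A B n).prod B).prod (ZB A B l)) (extOp W 1 (zeta A B (rho B e z c c') l)) =
    2 * rr ((NB A B n).prod (ZB A B l)) (extOp W 1 (zeta A B (rho B e z c c') l)) +
      rr ((NB A B n).prod (B.prod (ZB A B l)))
        (extOp W 1 (extOp W (rho B e z c c') (zeta A B (rho B e z c c') l)))
  rw [e1, e2, e3]
  ring

lemma rank_zero (l : ℕ) : RR A B (rho B e z c c') 0 l = g A B (rho B e z c c') l := rfl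

end Rec

end Pool.Agent.X312.HH
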