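import Pool.Agent.X312.HH.Csq

/-!
# Sums over the weights
-/

set_option autoImplicit false
set_option linter.unusedSectionVars false

open CategoryTheory AlgebraicGeometry

universe u v

namespace Pool.Agent.X312.HH

open Module
open Pool.Agent.H914 Pool.Agent.H914.VarClass Pool.Agent.H914.VarClass.Obj
  Pool.Agent.H914.WeilCohomology Pool.Agent.H281R3.HT Pool.Agent.W552 Pool.Agent.W539.Ker
  Pool.Agent.Y133.Half

variable {k : Type u} [Field k] {𝒱 : VarClass k} {ops : CycleOps 𝒱}
  {W : WeilCohomology.{u, v} ops} {X : 𝒱.Obj} {D : X.Cycles} {f : Module.End W.K (W.H X)}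

/-- Operators commuting with the weight operator preserve the degrees. -/
lemma Mo.gr {π : Module.End W.K (W.H X)} (M : Mo W X D f π) {i : ℕ} {x : W.H X}
    (hx : x ∈ W.gr X i) : π x ∈ W.gr X i := by
  have h1 : H914.wt (W.isInternal X) X.dim (π x) = ((i : W.K) - X.dim) • π x := by
    rw [M.wt, Fr.wt_gr hx, map_smul]
  exact (mem_gr_of_wt (W.isInternal X) W_hbd h1).1 i rfl

lemma Mo.proj {π : Module.End W.K (W.H X)} (M : Mo W X D f π) (i : ℕ) (x : W.H X) :
    π (H914.proj (W.isInternal X) i x) = H914.proj (W.isInternal X) i (π x) := by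
  refine gr_induction (W.isInternal X) (p := fun x => π (H914.proj (W.isInternal X) i x) =
    H914.proj (W.isInternal X) i (π x)) ?_ ?_ x
  swap
  · intro a b ha hb; rw [map_add, map_add, ha, hb, map_add, map_add]
  intro j x hx
  by_cases hij : j = i
  · subst hij
    rw [proj_same _ hx, proj_same _ (M.gr hx)]
  · rw [proj_ne _ hx hij, proj_ne _ (M.gr hx) hij, map_zero]

/-- Classes of weight `2 j - dim X`. -/
lemma VP_gr {π : Module.End W.K (W.H X)} {j : ℕ} {x : W.H X}
    (hx : VP W X π (2 * j - X.dim) x) : x ∈ W.gr X (2 * j) := by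
  refine (mem_gr_of_wt (W.isInternal X) W_hbd hx.2).1 (2 * j) ?_
  push_cast
  ring

/-- The classes whose components of codimension at least `J` vanish. -/
def VJ (W : WeilCohomology.{u, v} ops) (X : 𝒱.Obj) (π : Module.End W.K (W.H X)) (J : ℕ)
    (x : W.H X) : Prop :=
  VT W X π x ∧ ∀ j, J ≤ j → H914.proj (W.isInternal X) (2 * j) x = 0

/-- **The sum over the weights.** -/
theorem sum_weights {π : Module.End W.K (W.H X)} (M : Mo W X D f π) (P Q : ℕ → ℕ)
    (h : ∀ j : ℕ, Sg (bf W X D f) (VP W X π (2 * j - X.dim)) (P j) (Q j)) (J : ℕ) :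
    Sg (bf W X D f) (VJ W X π J) (∑ j ∈ Finset.range J, P j) (∑ j ∈ Finset.range J, Q j) := by
  induction J with
  | zero =>
    rw [Finset.range_zero, Finset.sum_empty, Finset.sum_empty]
    refine ⟨0, Fin.elim0, Fin.elim0, ⟨fun i => i.elim0, fun i => i.elim0, fun i => i.elim0,
      fun i => i.elim0, fun u hu _ => ?_⟩, ?_, ?_⟩
    · have h1 : u = 0 := by
        rw [Fr.AS_sum hu.1.1]
        exact Finset.sum_eq_zero fun j _ => hu.2 j (Nat.zero_le _)
      rw [h1, map_zero]
    · rfl
    · rfl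
  | succ J ih =>
    rw [Finset.sum_range_succ, Finset.sum_range_succ]
    refine Sg.add ?_ ?_ ?_ ?_ ih (h J)
    · rintro x ⟨h1, h2⟩
      exact ⟨h1, fun j hj => h2 j (by omega)⟩
    · intro x hx
      refine ⟨hx.1, fun j hj => proj_ne _ (VP_gr hx) (by omega)⟩
    · rintro x ⟨h1, h2⟩
      have h3 : VP W X π (2 * J - X.dim) (H914.proj (W.isInternal X) (2 * J) x) := by
        refine ⟨⟨(proj_aop' M.gd.fr (2 * J)).apply h1.1, ?_⟩, ?_⟩
        · rw [M.proj, h1.2]
        · rw [Fr.wt_gr (proj_mem _ _ _)]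
          congr 1
          push_cast
          ring
      refine ⟨x - H914.proj (W.isInternal X) (2 * J) x, H914.proj (W.isInternal X) (2 * J) x,
        ⟨⟨AS.ratSub.sub h1.1 h3.1.1, ?_⟩, fun j hj => ?_⟩, h3, by rw [sub_add_cancel]⟩
      · rw [map_sub, h1.2, h3.1.2]
      · rw [map_sub]
        by_cases hjJ : j = J
        · subst hjJ
          rw [proj_same _ (proj_mem _ _ _), sub_self]
        · rw [h2 j (by omega), proj_ne _ (proj_mem _ _ _) (by omega), sub_zero]
    · rintro x y ⟨h1, h2⟩ hy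
      have h3 : bf W X D f x y = 0 := by
        rw [Fr.AS_sum h1.1, map_sum, LinearMap.sum_apply]
        refine Finset.sum_eq_zero fun j _ => ?_
        by_cases hjJ : j = J
        · rw [hjJ, h2 J le_rfl, map_zero, LinearMap.zero_apply]
        · exact M.gd.fr.bf_deg (proj_mem _ _ _) (VP_gr hy) (by omega)
      exact ⟨h3, by rw [← bf_comm M.gd h1.1, h3]⟩

/-- The sum over all weights is the rank. -/
theorem sum_weights_eq {A : Bd W} {π : Module.End W.K (W.H A.X)} (M : A.Mo π) (P Q : ℕ → ℕ)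
    (h : ∀ j : ℕ, Sg A.bf (VP W A.X π (2 * j - A.X.dim)) (P j) (Q j)) :
    ∑ j ∈ Finset.range (A.X.dim + 1), (P j + Q j) = rr A π := by
  have h1 := sum_weights M P Q h (A.X.dim + 1)
  obtain ⟨p, q, h2⟩ := exists_sg_VT M
  have h3 : Sg A.bf (VT W A.X π) (∑ j ∈ Finset.range (A.X.dim + 1), P j)
      (∑ j ∈ Finset.range (A.X.dim + 1), Q j) := by
    have h4 : VJ W A.X π (A.X.dim + 1) = VT W A.X π := by
      funext x
      apply propext
      constructor
      · exact fun hx => hx.1
      · refine fun hx => ⟨hx, fun j hj => ?_⟩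
        have h5 := proj_mem (W.isInternal A.X) (2 * j) x
        rw [W.gr_eq_bot A.X (2 * j) (by omega)] at h5
        exact (Submodule.mem_bot _).1 h5
    rw [h4] at h1
    exact h1
  rw [Finset.sum_add_distrib, rr_eq M h3]

end Pool.Agent.X312.HH
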